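import Pool.Agent.Run7.h730.Step

/-!
Assembling the scales: the quasi-polynomial bound.
-/

namespace Run7.h730

open Set

variable {d : ℕ}

theorem one_sub_exp_neg_ge {u : ℝ} (hu : 0 ≤ u) : u / (1 + u) ≤ 1 - Real.exp (-u) := by
  have h1 : Real.exp (-u) ≤ 1 / (1 + u) := by
    rw [Real.exp_neg, ← one_div]
    apply one_div_le_one_div_of_le (by linarith)
    have := Real.add_one_le_exp u
    linarith
  have h2 : u / (1 + u) = 1 - 1 / (1 + u) := by field_simp; ring
  linarith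

theorem exp_sub_one_le {u : ℝ} : Real.exp u - 1 ≤ u * Real.exp u := by
  have h1 := Real.add_one_le_exp (-u)
  have h2 : Real.exp u * Real.exp (-u) = 1 := by rw [← Real.exp_add]; simp
  nlinarith [Real.exp_pos u]

/-- The union bound holds once `t` is large. -/
theorem union_bound_of_le {r t : ℕ} {δ V D : ℝ} (hr : 1 ≤ r) (hD : 0 < D)
    (hDV : D ≤ δ ^ 2 / (4 * V)) (ht : (1 + Real.log r) / D < t) :
    r * (2 * Real.exp (-(t * δ ^ 2 / (4 * V)))) < 1 := by
  have hr' : (0 : ℝ) < r := by exact_mod_cast hr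
  have ht0 : (0 : ℝ) ≤ t := Nat.cast_nonneg t
  have h1 : 1 + Real.log r < t * δ ^ 2 / (4 * V) := by
    rw [div_lt_iff₀ hD] at ht
    calc 1 + Real.log r < t * D := ht
      _ ≤ t * (δ ^ 2 / (4 * V)) := mul_le_mul_of_nonneg_left hDV ht0
      _ = _ := by ring
  have h2 : Real.exp (-(t * δ ^ 2 / (4 * V))) < Real.exp (-(1 + Real.log r)) :=
    Real.exp_lt_exp.2 (by linarith)
  have h3 : Real.exp (-(1 + Real.log r)) = Real.exp (-1) / r := by
    rw [neg_add, Real.exp_add, Real.exp_neg (Real.log r), Real.exp_log hr']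
    rfl
  have h4 : 2 * Real.exp (-1) < 1 := by
    have h5 : Real.exp 1 * Real.exp (-1) = 1 := by rw [← Real.exp_add]; simp
    have h6 := Real.exp_one_gt_d9
    nlinarith [Real.exp_pos (-1)]
  calc r * (2 * Real.exp (-(t * δ ^ 2 / (4 * V))))
      < r * (2 * (Real.exp (-1) / r)) := by
        apply mul_lt_mul_of_pos_left _ hr'
        rw [← h3]; linarith
    _ = 2 * Real.exp (-1) := by field_simp
    _ < 1 := h4

/-- Scales at least `1`. -/
theorem Admissible.card_le_of_one_le {G K : Set (EuclideanSpace ℝ (Fin d))}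
    (hA : Admissible G K) {α s : ℝ} {r m t : ℕ} (hα : 0 < α) (hαs : α ≤ s) (hs : 1 ≤ s)
    (hr1 : 1 ≤ r) (hr : ∀ x, ¬ CSeq G K (α / 32) (r + 1) x) (hm : 1 ≤ m) (hrm : r < 2 ^ m)
    (ht : (648 * Real.exp 8 * (m : ℝ) ^ 5) * (1 + Real.log r) < t)
    (I : Finset (EuclideanSpace ℝ (Fin d))) (hI : (I : Set (EuclideanSpace ℝ (Fin d))) ⊆ G)
    (hsep : Sep K s I) : I.card ≤ (4 * (r + 1)) ^ m * r ^ t := by
  have hr' : (1 : ℝ) ≤ r := by exact_mod_cast hr1
  have hlogr : 0 ≤ Real.log r := Real.log_nonneg hr'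
  have hm' : (1 : ℝ) ≤ m := by exact_mod_cast hm
  have hlogm : 0 ≤ Real.log m := Real.log_nonneg hm'
  set S : ℝ := 2 + 16 / 13 * Real.log m with hS
  have hS0 : 2 ≤ S := by rw [hS]; nlinarith
  have hB : ∀ I : Finset (EuclideanSpace ℝ (Fin d)),
      (I : Set (EuclideanSpace ℝ (Fin d))) ⊆ G → Sep K (max S α) I →
      I.card ≤ (4 * (r + 1)) ^ m := by
    intro I hI hsep
    have hSle : S ≤ max S α := le_max_left _ _
    have hr2 : ∀ x, ¬ CSeq G K ((1 - 7 / 8) * (max S α) / 4) (r + 1) x := by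
      intro x hx
      apply hr x
      refine hx.mono_scale ?_
      have : α ≤ max S α := le_max_right _ _
      linarith
    exact (hA.card_lt_of_large (κ := 7 / 8) (s := max S α) hr2 hm hrm
      (by nlinarith) I hI hsep).le
  have hexp4S : Real.exp (4 * S) ≤ Real.exp 8 * (m : ℝ) ^ 5 := by
    have h1 : 4 * S = 8 + 64 / 13 * Real.log m := by rw [hS]; ring
    rw [h1, Real.exp_add]
    apply mul_le_mul_of_nonneg_left _ (Real.exp_pos _).le
    have h2 : (m : ℝ) ^ 5 = Real.exp (5 * Real.log m) := by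
      rw [show (5 : ℝ) * Real.log m = ((5 : ℕ) : ℝ) * Real.log m by norm_num,
        Real.exp_nat_mul, Real.exp_log (by linarith)]
    rw [h2]
    exact Real.exp_le_exp.2 (by nlinarith)
  by_cases hαS : S ≤ α
  · -- the scale is already large
    have h1 : I.card ≤ (4 * (r + 1)) ^ m := by
      refine hB I hI ?_
      rw [max_eq_right hαS]
      exact fun x hx x' hx' hne => hαs.trans (hsep x hx x' hx' hne)
    calc I.card ≤ (4 * (r + 1)) ^ m * 1 := by rw [mul_one]; exact h1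
      _ ≤ _ := Nat.mul_le_mul_left _ (Nat.one_le_pow _ _ hr1)
  push Not at hαS
  have hE0 : 1 ≤ Real.exp (4 * S) := Real.one_le_exp (by linarith)
  have hδlow : 1 / 9 ≤ 1 - Real.exp (-(s / 8)) := by
    have h1 := one_sub_exp_neg_ge (u := 1 / 8) (by norm_num)
    have h2 : Real.exp (-(s / 8)) ≤ Real.exp (-(1 / 8)) := Real.exp_le_exp.2 (by linarith)
    norm_num at h1
    linarith
  have hδ1 : 1 - Real.exp (-(s / 8)) ≤ 1 := by linarith [Real.exp_pos (-(s / 8))]
  have hDpos : (0 : ℝ) < 648 * Real.exp 8 * (m : ℝ) ^ 5 := by positivity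
  refine hA.step (s := s) (S := S) (β := α / 32) (V := 2 * Real.exp (4 * S)) (t := t)
    (by linarith) (by linarith) (by linarith) hr ?_ ?_ (by positivity) ?_ ?_ ?_ I hI hsep
  · intro J hJ hJs
    refine hB J hJ ?_
    rw [max_eq_left hαS.le]
    exact hJs
  · have h0 : (0 : ℝ) < t := lt_of_le_of_lt (by positivity) ht
    exact_mod_cast h0
  · have h1 : min (Real.exp (4 * S) - 1) 2 ≤ 2 := min_le_right _ _
    have h2 := mul_le_mul_of_nonneg_left h1 (by linarith : 0 ≤ Real.exp (4 * S) - 1)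
    linarith
  · have := mul_le_mul_of_nonneg_right hδ1 (by linarith : 0 ≤ Real.exp (4 * S) - 1)
    linarith
  · refine union_bound_of_le (D := 1 / (648 * Real.exp 8 * (m : ℝ) ^ 5)) hr1 (by positivity)
      ?_ ?_
    · rw [div_le_div_iff₀ (by positivity) (by positivity)]
      have h1 : (1 / 81 : ℝ) ≤ (1 - Real.exp (-(s / 8))) ^ 2 := by
        have := pow_le_pow_left₀ (by norm_num) hδlow 2
        norm_num at this ⊢
        linarith
      have h2 := mul_le_mul h1 (le_refl (648 * Real.exp 8 * (m : ℝ) ^ 5)) hDpos.le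
        (by positivity)
      nlinarith
    · rw [div_div_eq_mul_div, div_one]
      linarith

/-- Scales less than `1`: from `2 s` to `s`. -/
theorem Admissible.card_le_of_lt_one {G K : Set (EuclideanSpace ℝ (Fin d))}
    (hA : Admissible G K) {β s : ℝ} {r t B : ℕ} (hs0 : 0 < s) (hs : s < 1)
    (hβ : 16 * β ≤ s) (hr1 : 1 ≤ r) (hr : ∀ x, ¬ CSeq G K β (r + 1) x)
    (hB : ∀ I : Finset (EuclideanSpace ℝ (Fin d)), (I : Set (EuclideanSpace ℝ (Fin d))) ⊆ G →
      Sep K (2 * s) I → I.card ≤ B)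
    (ht : (20736 * Real.exp 16) * (1 + Real.log r) < t)
    (I : Finset (EuclideanSpace ℝ (Fin d))) (hI : (I : Set (EuclideanSpace ℝ (Fin d))) ⊆ G)
    (hsep : Sep K s I) : I.card ≤ B * r ^ t := by
  have hr' : (1 : ℝ) ≤ r := by exact_mod_cast hr1
  have hlogr : 0 ≤ Real.log r := Real.log_nonneg hr'
  have hR0 : 0 ≤ Real.exp (4 * (2 * s)) - 1 := by
    have := Real.one_le_exp (by linarith : 0 ≤ 4 * (2 * s))
    linarith
  have hR1 : Real.exp (4 * (2 * s)) - 1 ≤ 8 * s * Real.exp 8 := by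
    have h1 := exp_sub_one_le (u := 4 * (2 * s))
    have h2 : Real.exp (4 * (2 * s)) ≤ Real.exp 8 := Real.exp_le_exp.2 (by linarith)
    have h3 := mul_le_mul_of_nonneg_left h2 (by linarith : 0 ≤ 4 * (2 * s))
    linarith
  have hδ1 : 1 - Real.exp (-(s / 8)) ≤ s / 8 := by
    have := Real.add_one_le_exp (-(s / 8))
    linarith
  have hδlow : s / 9 ≤ 1 - Real.exp (-(s / 8)) := by
    refine le_trans ?_ (one_sub_exp_neg_ge (u := s / 8) (by linarith))
    rw [div_div, div_le_div_iff₀ (by norm_num) (by positivity)]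
    nlinarith
  have hδ0 : 0 ≤ 1 - Real.exp (-(s / 8)) := by linarith
  have hE8 : (1 : ℝ) ≤ Real.exp 8 := Real.one_le_exp (by norm_num)
  have hE16 : Real.exp 16 = Real.exp 8 * Real.exp 8 := by rw [← Real.exp_add]; norm_num
  refine hA.step (s := s) (S := 2 * s) (β := β) (V := (8 * s * Real.exp 8) ^ 2) (t := t)
    hs0 (by linarith) hβ hr hB ?_ (by positivity) ?_ ?_ ?_ I hI hsep
  · have h0 : (0 : ℝ) < t := lt_of_le_of_lt (by positivity) ht
    exact_mod_cast h0
  · have h1 : min (Real.exp (4 * (2 * s)) - 1) 2 ≤ Real.exp (4 * (2 * s)) - 1 := min_le_left _ _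
    have h2 := mul_le_mul_of_nonneg_left h1 hR0
    have h3 := pow_le_pow_left₀ hR0 hR1 2
    rw [sq] at h3
    linarith
  · have h1 : (1 - Real.exp (-(s / 8))) * (Real.exp (4 * (2 * s)) - 1) ≤
        (s / 8) * (8 * s * Real.exp 8) := mul_le_mul hδ1 hR1 hR0 (by linarith)
    have h2 : (s / 8) * (8 * s * Real.exp 8) ≤ 2 * (8 * s * Real.exp 8) ^ 2 := by
      have h3 : 0 < s ^ 2 := by positivity
      have h4 : 0 < s ^ 2 * Real.exp 8 := by positivity
      nlinarith
    linarith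
  · refine union_bound_of_le (D := 1 / (20736 * Real.exp 16)) hr1 (by positivity)
      ?_ ?_
    · rw [div_le_div_iff₀ (by positivity) (by positivity)]
      have h1 : (s / 9) ^ 2 ≤ (1 - Real.exp (-(s / 8))) ^ 2 :=
        pow_le_pow_left₀ (by linarith) hδlow 2
      have h2 := mul_le_mul_of_nonneg_right h1
        (by positivity : (0 : ℝ) ≤ 20736 * Real.exp 16)
      rw [hE16] at h2 ⊢
      nlinarith
    · rw [div_div_eq_mul_div, div_one]
      linarith

/-- The ladder of scales. -/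
theorem Admissible.ladder {G K : Set (EuclideanSpace ℝ (Fin d))}
    (hA : Admissible G K) {α : ℝ} {r m t₁ t₂ : ℕ} (hα : 0 < α)
    (hr1 : 1 ≤ r) (hr : ∀ x, ¬ CSeq G K (α / 32) (r + 1) x) (hm : 1 ≤ m) (hrm : r < 2 ^ m)
    (ht₁ : (20736 * Real.exp 16) * (1 + Real.log r) < t₁)
    (ht₂ : (648 * Real.exp 8 * (m : ℝ) ^ 5) * (1 + Real.log r) < t₂) (n : ℕ) :
    ∀ s : ℝ, α ≤ s → (1 ≤ 2 ^ n * s ∨ 2 * (α / 32) * r ≤ 2 ^ n * s) →
    ∀ I : Finset (EuclideanSpace ℝ (Fin d)), (I : Set (EuclideanSpace ℝ (Fin d))) ⊆ G →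
      Sep K s I → I.card ≤ (4 * (r + 1)) ^ m * r ^ t₂ * (r ^ t₁) ^ n := by
  have hpos1 : 1 ≤ (4 * (r + 1)) ^ m := Nat.one_le_pow _ _ (by omega)
  have hpos2 : 1 ≤ r ^ t₂ := Nat.one_le_pow _ _ hr1
  have hpos3 : 1 ≤ r ^ t₁ := Nat.one_le_pow _ _ hr1
  induction n with
  | zero =>
    intro s hαs hcase I hI hsep
    rw [pow_zero, mul_one]
    rcases hcase with h | h
    · rw [pow_zero, one_mul] at h
      exact hA.card_le_of_one_le hα hαs h hr1 hr hm hrm ht₂ I hI hsep
    · rw [pow_zero, one_mul] at h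
      have h1 := hA.card_le_one_of_top (β := α / 32) (by linarith) hr h I hI hsep
      exact h1.trans (Nat.one_le_iff_ne_zero.2 (by positivity))
  | succ n ih =>
    intro s hαs hcase I hI hsep
    by_cases hs1 : 1 ≤ s
    · have h1 := hA.card_le_of_one_le hα hαs hs1 hr1 hr hm hrm ht₂ I hI hsep
      calc I.card ≤ (4 * (r + 1)) ^ m * r ^ t₂ * 1 := by rw [mul_one]; exact h1
        _ ≤ _ := Nat.mul_le_mul_left _ (Nat.one_le_pow _ _ hpos3)
    · push Not at hs1
      have h2 : ∀ J : Finset (EuclideanSpace ℝ (Fin d)),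
          (J : Set (EuclideanSpace ℝ (Fin d))) ⊆ G → Sep K (2 * s) J →
          J.card ≤ (4 * (r + 1)) ^ m * r ^ t₂ * (r ^ t₁) ^ n := by
        apply ih (2 * s) (by linarith)
        rw [pow_succ] at hcase
        rcases hcase with h | h
        · left; linarith
        · right; linarith
      have h3 := hA.card_le_of_lt_one (β := α / 32) (s := s) (by linarith) hs1 (by linarith)
        hr1 hr h2 ht₁ I hI hsep
      calc I.card ≤ (4 * (r + 1)) ^ m * r ^ t₂ * (r ^ t₁) ^ n * r ^ t₁ := h3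
        _ = (4 * (r + 1)) ^ m * r ^ t₂ * (r ^ t₁) ^ (n + 1) := by rw [pow_succ]; ring

theorem Admissible.card_le {G K : Set (EuclideanSpace ℝ (Fin d))}
    (hA : Admissible G K) {α : ℝ} {r m t₁ t₂ : ℕ} (hα : 0 < α)
    (hr1 : 1 ≤ r) (hr : ∀ x, ¬ CSeq G K (α / 32) (r + 1) x) (hm : 1 ≤ m) (hrm : r < 2 ^ m)
    (ht₁ : (20736 * Real.exp 16) * (1 + Real.log r) < t₁)
    (ht₂ : (648 * Real.exp 8 * (m : ℝ) ^ 5) * (1 + Real.log r) < t₂)
    (I : Finset (EuclideanSpace ℝ (Fin d))) (hI : (I : Set (EuclideanSpace ℝ (Fin d))) ⊆ G)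
    (hsep : Sep K α I) : I.card ≤ (4 * (r + 1)) ^ m * r ^ t₂ * (r ^ t₁) ^ m := by
  refine hA.ladder hα hr1 hr hm hrm ht₁ ht₂ m α (le_refl _) (Or.inr ?_) I hI hsep
  have h1 : (r : ℝ) ≤ 2 ^ m := by exact_mod_cast hrm.le
  have h2 := mul_le_mul_of_nonneg_right h1 hα.le
  have h3 : (0 : ℝ) ≤ 2 ^ m * α := by positivity
  nlinarith

end Run7.h730
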