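import Pool.Agent.Run7.h730.Defs

/-!
Basic facts on the Funk and Hilbert distances.
-/

namespace Run7.h730

open Set

variable {d : ℕ}

theorem mem_polarSet {K : Set (EuclideanSpace ℝ (Fin d))} {y : EuclideanSpace ℝ (Fin d)} :
    y ∈ polarSet K ↔ ∀ x ∈ K, inner ℝ x y ≤ 1 := Iff.rfl

theorem zero_mem_polarSet (K : Set (EuclideanSpace ℝ (Fin d))) :
    (0 : EuclideanSpace ℝ (Fin d)) ∈ polarSet K := by
  intro x _
  simp

theorem convex_polarSet (K : Set (EuclideanSpace ℝ (Fin d))) : Convex ℝ (polarSet K) := by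
  intro y hy z hz a b ha hb hab x hx
  rw [inner_add_right, inner_smul_right, inner_smul_right]
  have h1 := hy x hx
  have h2 := hz x hx
  nlinarith

theorem isClosed_polarSet (K : Set (EuclideanSpace ℝ (Fin d))) : IsClosed (polarSet K) := by
  have : polarSet K = ⋂ x ∈ K, {y | inner ℝ x y ≤ 1} := by
    ext y; simp [polarSet]
  rw [this]
  refine isClosed_biInter fun x _ => ?_
  exact isClosed_le (by fun_prop) continuous_const

@[simp] theorem fAff_zero_left (x : EuclideanSpace ℝ (Fin d)) : fAff 0 x = 1 := by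
  simp [fAff]

theorem fAff_combo_right (y x x' : EuclideanSpace ℝ (Fin d)) {a b : ℝ} (h : a + b = 1) :
    fAff y (a • x + b • x') = a * fAff y x + b * fAff y x' := by
  simp only [fAff, inner_add_right, inner_smul_right]
  linear_combination -h

theorem fAff_combo_left (y y' x : EuclideanSpace ℝ (Fin d)) {a b : ℝ} (h : a + b = 1) :
    fAff (a • y + b • y') x = a * fAff y x + b * fAff y' x := by
  simp only [fAff, inner_add_left, inner_smul_left]
  simp
  linear_combination -h

theorem fAff_sum_right {ι : Type*} (s : Finset ι) (w : ι → ℝ)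
    (z : ι → EuclideanSpace ℝ (Fin d)) (y : EuclideanSpace ℝ (Fin d))
    (h : ∑ i ∈ s, w i = 1) :
    fAff y (∑ i ∈ s, w i • z i) = ∑ i ∈ s, w i * fAff y (z i) := by
  simp only [fAff, inner_sum, inner_smul_right, mul_sub, mul_one, Finset.sum_sub_distrib, h]

theorem continuous_fAff_left (x : EuclideanSpace ℝ (Fin d)) :
    Continuous fun y => fAff y x := by
  unfold fAff; fun_prop

theorem continuous_fAff_right (y : EuclideanSpace ℝ (Fin d)) :
    Continuous fun x => fAff y x := by
  unfold fAff; fun_prop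

theorem convex_le_fAff (y : EuclideanSpace ℝ (Fin d)) (a : ℝ) :
    Convex ℝ {x | a ≤ fAff y x} := by
  intro x hx x' hx' s t hs ht hst
  change a ≤ fAff y (s • x + t • x')
  change a ≤ fAff y x at hx
  change a ≤ fAff y x' at hx'
  rw [fAff_combo_right y x x' hst]
  have h0 : a = s * a + t * a := by rw [← add_mul, hst, one_mul]
  nlinarith [mul_le_mul_of_nonneg_left hx hs, mul_le_mul_of_nonneg_left hx' ht]

theorem convex_fAff_le (y : EuclideanSpace ℝ (Fin d)) (a : ℝ) :
    Convex ℝ {x | fAff y x ≤ a} := by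
  intro x hx x' hx' s t hs ht hst
  change fAff y (s • x + t • x') ≤ a
  change fAff y x ≤ a at hx
  change fAff y x' ≤ a at hx'
  rw [fAff_combo_right y x x' hst]
  have h0 : a = s * a + t * a := by rw [← add_mul, hst, one_mul]
  nlinarith [mul_le_mul_of_nonneg_left hx hs, mul_le_mul_of_nonneg_left hx' ht]

section Adm

variable {G K : Set (EuclideanSpace ℝ (Fin d))} (hA : Admissible G K)

include hA

theorem Admissible.zero_memG : (0 : EuclideanSpace ℝ (Fin d)) ∈ G := interior_subset hA.zeroMem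

/-- A uniform positive lower bound for the functions `f_y` on `G`. -/
theorem Admissible.exists_lower :
    ∃ m : ℝ, 0 < m ∧ ∀ y ∈ polarSet K, ∀ x ∈ G, m ≤ fAff y x := by
  obtain ⟨δ, hδ, hsub⟩ := hA.compG.exists_thickening_subset_open isOpen_interior hA.sub
  obtain ⟨M, hM⟩ := hA.compG.isBounded.exists_norm_le
  have hM0 : 0 ≤ M := le_trans (norm_nonneg _) (hM 0 hA.zero_memG)
  set ε : ℝ := δ / (2 * (M + 1)) with hε
  have hε0 : 0 < ε := by positivity
  refine ⟨1 - 1 / (1 + ε), ?_, ?_⟩
  · have : 1 / (1 + ε) < 1 := by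
      rw [div_lt_one (by linarith)]; linarith
    linarith
  · intro y hy x hx
    have hmem : (1 + ε) • x ∈ K := by
      apply interior_subset
      apply hsub
      rw [Metric.mem_thickening_iff]
      refine ⟨x, hx, ?_⟩
      rw [dist_eq_norm]
      have : (1 + ε) • x - x = ε • x := by
        rw [add_smul, one_smul]; abel
      rw [this, norm_smul, Real.norm_of_nonneg hε0.le]
      have h1 : ε * ‖x‖ ≤ ε * M := mul_le_mul_of_nonneg_left (hM x hx) hε0.le
      have h2 : ε * (M + 1) = δ / 2 := by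
        rw [hε]; field_simp
      nlinarith
    have h1 := hy _ hmem
    rw [inner_smul_left] at h1
    simp at h1
    have h2 : inner ℝ x y ≤ 1 / (1 + ε) := by
      rw [le_div_iff₀ (by linarith)]; linarith
    unfold fAff
    rw [real_inner_comm]
    linarith

theorem Admissible.pos {y x : EuclideanSpace ℝ (Fin d)} (hy : y ∈ polarSet K) (hx : x ∈ G) :
    0 < fAff y x := by
  obtain ⟨m, hm, h⟩ := hA.exists_lower
  exact lt_of_lt_of_le hm (h y hy x hx)

/-- The polar is bounded. -/
theorem Admissible.exists_norm_le : ∃ L : ℝ, 0 < L ∧ ∀ y ∈ polarSet K, ‖y‖ ≤ L := by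
  have h0 : (0 : EuclideanSpace ℝ (Fin d)) ∈ interior K := hA.sub hA.zero_memG
  obtain ⟨ε, hε, hb⟩ := Metric.isOpen_iff.1 isOpen_interior 0 h0
  refine ⟨2 / ε, by positivity, fun y hy => ?_⟩
  by_cases hy0 : y = 0
  · rw [hy0, norm_zero]; positivity
  have hyn : 0 < ‖y‖ := norm_pos_iff.2 hy0
  have hmem : (ε / (2 * ‖y‖)) • y ∈ K := by
    apply interior_subset
    apply hb
    rw [mem_ball_zero_iff, norm_smul, Real.norm_of_nonneg (by positivity)]
    have : ε / (2 * ‖y‖) * ‖y‖ = ε / 2 := by field_simp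
    rw [this]; linarith
  have h1 := hy _ hmem
  rw [inner_smul_left, real_inner_self_eq_norm_sq] at h1
  simp only [conj_trivial] at h1
  have h2 : ε / (2 * ‖y‖) * ‖y‖ ^ 2 = ε * ‖y‖ / 2 := by field_simp
  rw [h2] at h1
  rw [le_div_iff₀ hε]
  linarith

theorem Admissible.isCompact_polar : IsCompact (polarSet K) := by
  obtain ⟨L, _, hL⟩ := hA.exists_norm_le
  refine Metric.isCompact_of_isClosed_isBounded (isClosed_polarSet K) ?_
  exact (Metric.isBounded_closedBall (x := (0 : EuclideanSpace ℝ (Fin d))) (r := L)).subset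
    (fun y hy => by rw [mem_closedBall_zero_iff]; exact hL y hy)

theorem Admissible.funk_attained {x x' : EuclideanSpace ℝ (Fin d)} (hx : x ∈ G) (hx' : x' ∈ G) :
    ∃ y ∈ polarSet K, funk K x x' = Real.log (fAff y x / fAff y x') ∧
      ∀ y' ∈ polarSet K, Real.log (fAff y' x / fAff y' x') ≤ funk K x x' := by
  have hc : ContinuousOn (fun y => Real.log (fAff y x / fAff y x')) (polarSet K) := by
    apply ContinuousOn.log
    · exact ((continuous_fAff_left x).continuousOn).div (continuous_fAff_left x').continuousOn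
        (fun y hy => (hA.pos hy hx').ne')
    · intro y hy
      exact (div_pos (hA.pos hy hx) (hA.pos hy hx')).ne'
  obtain ⟨y, hy, hmax⟩ := hA.isCompact_polar.exists_isMaxOn ⟨0, zero_mem_polarSet K⟩ hc
  have hg : IsGreatest ((fun y => Real.log (fAff y x / fAff y x')) '' polarSet K)
      (Real.log (fAff y x / fAff y x')) := by
    refine ⟨⟨y, hy, rfl⟩, ?_⟩
    rintro _ ⟨z, hz, rfl⟩
    exact hmax hz
  refine ⟨y, hy, hg.csSup_eq, ?_⟩
  intro y' hy'
  unfold funk
  rw [hg.csSup_eq]
  exact hmax hy'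

theorem Admissible.le_funk {x x' y : EuclideanSpace ℝ (Fin d)} (hx : x ∈ G) (hx' : x' ∈ G)
    (hy : y ∈ polarSet K) : Real.log (fAff y x / fAff y x') ≤ funk K x x' := by
  obtain ⟨_, _, _, h⟩ := hA.funk_attained hx hx'
  exact h y hy

theorem Admissible.funk_nonneg {x x' : EuclideanSpace ℝ (Fin d)} (hx : x ∈ G) (hx' : x' ∈ G) :
    0 ≤ funk K x x' := by
  have := hA.le_funk hx hx' (zero_mem_polarSet K)
  simpa using this

omit hA in
theorem hilb_comm (K : Set (EuclideanSpace ℝ (Fin d))) (x x' : EuclideanSpace ℝ (Fin d)) :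
    hilb K x x' = hilb K x' x := by
  unfold hilb; ring

theorem Admissible.hilb_nonneg {x x' : EuclideanSpace ℝ (Fin d)} (hx : x ∈ G) (hx' : x' ∈ G) :
    0 ≤ hilb K x x' := by
  have h1 := hA.funk_nonneg hx hx'
  have h2 := hA.funk_nonneg hx' hx
  unfold hilb; linarith

theorem Admissible.funk_triangle {x x' x'' : EuclideanSpace ℝ (Fin d)} (hx : x ∈ G)
    (hx' : x' ∈ G) (hx'' : x'' ∈ G) : funk K x x'' ≤ funk K x x' + funk K x' x'' := by
  obtain ⟨y, hy, h, _⟩ := hA.funk_attained hx hx''
  rw [h]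
  have h1 := hA.le_funk hx hx' hy
  have h2 := hA.le_funk hx' hx'' hy
  have p1 := hA.pos hy hx
  have p2 := hA.pos hy hx'
  have p3 := hA.pos hy hx''
  rw [Real.log_div p1.ne' p2.ne'] at h1
  rw [Real.log_div p2.ne' p3.ne'] at h2
  rw [Real.log_div p1.ne' p3.ne']
  linarith

theorem Admissible.hilb_triangle {x x' x'' : EuclideanSpace ℝ (Fin d)} (hx : x ∈ G)
    (hx' : x' ∈ G) (hx'' : x'' ∈ G) : hilb K x x'' ≤ hilb K x x' + hilb K x' x'' := by
  have h1 := hA.funk_triangle hx hx' hx''
  have h2 := hA.funk_triangle hx'' hx' hx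
  unfold hilb; linarith

theorem Admissible.hilb_self {x : EuclideanSpace ℝ (Fin d)} (hx : x ∈ G) : hilb K x x = 0 := by
  obtain ⟨y, hy, h, _⟩ := hA.funk_attained hx hx
  have p1 := hA.pos hy hx
  rw [div_self p1.ne', Real.log_one] at h
  unfold hilb; rw [h]; simp

/-- If the Hilbert distance is at least `s`, then some `y` in the polar has
`|log f_y(x) - log f_y(x')| ≥ s`. -/
theorem Admissible.exists_of_le_hilb {x x' : EuclideanSpace ℝ (Fin d)} (hx : x ∈ G)
    (hx' : x' ∈ G) {s : ℝ} (h : s ≤ hilb K x x') :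
    ∃ y ∈ polarSet K, s ≤ |Real.log (fAff y x) - Real.log (fAff y x')| := by
  obtain ⟨y, hy, h1, _⟩ := hA.funk_attained hx hx'
  obtain ⟨z, hz, h2, _⟩ := hA.funk_attained hx' hx
  rw [Real.log_div (hA.pos hy hx).ne' (hA.pos hy hx').ne'] at h1
  rw [Real.log_div (hA.pos hz hx').ne' (hA.pos hz hx).ne'] at h2
  unfold hilb at h
  by_cases hc : s ≤ funk K x x'
  · exact ⟨y, hy, by rw [← h1]; exact hc.trans (le_abs_self _)⟩
  · refine ⟨z, hz, ?_⟩
    rw [abs_sub_comm, ← h2]
    refine le_trans ?_ (le_abs_self _)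
    push Not at hc
    linarith

/-- The two-sided bound for the functions `f_y` at points at distance at most `s`. -/
theorem Admissible.fAff_le_of_hilb_le {x x' y : EuclideanSpace ℝ (Fin d)} (hx : x ∈ G)
    (hx' : x' ∈ G) (hy : y ∈ polarSet K) {s : ℝ} (h : hilb K x x' ≤ s) :
    fAff y x ≤ Real.exp (2 * s) * fAff y x' := by
  have h1 := hA.le_funk hx hx' hy
  have h2 := hA.funk_nonneg hx' hx
  have p1 := hA.pos hy hx
  have p2 := hA.pos hy hx'
  unfold hilb at h
  have h3 : Real.log (fAff y x / fAff y x') ≤ 2 * s := by linarith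
  have h4 := (Real.log_le_iff_le_exp (div_pos p1 p2)).1 h3
  rwa [div_le_iff₀ p2] at h4

theorem Admissible.fAff_le_of_funk_le {x x' y : EuclideanSpace ℝ (Fin d)} (hx : x ∈ G)
    (hx' : x' ∈ G) (hy : y ∈ polarSet K) {s : ℝ} (h : funk K x x' ≤ s) :
    fAff y x ≤ Real.exp s * fAff y x' := by
  have h1 := hA.le_funk hx hx' hy
  have p1 := hA.pos hy hx
  have p2 := hA.pos hy hx'
  have h4 := (Real.log_le_iff_le_exp (div_pos p1 p2)).1 (h1.trans h)
  rwa [div_le_iff₀ p2] at h4

theorem Admissible.le_hilb_of_fAff {x c y : EuclideanSpace ℝ (Fin d)} (hx : x ∈ G)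
    (hc : c ∈ G) (hy : y ∈ polarSet K) {s : ℝ}
    (h : Real.exp (2 * s) * fAff y x ≤ fAff y c ∨ Real.exp (2 * s) * fAff y c ≤ fAff y x) :
    s ≤ hilb K x c := by
  have p1 := hA.pos hy hx
  have p2 := hA.pos hy hc
  have h2 := hA.funk_nonneg hc hx
  have h3 := hA.funk_nonneg hx hc
  unfold hilb
  rcases h with h | h
  · have h1 := hA.le_funk hc hx hy
    have : 2 * s ≤ Real.log (fAff y c / fAff y x) := by
      rw [Real.le_log_iff_exp_le (div_pos p2 p1), le_div_iff₀ p1]; exact h
    linarith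
  · have h1 := hA.le_funk hx hc hy
    have : 2 * s ≤ Real.log (fAff y x / fAff y c) := by
      rw [Real.le_log_iff_exp_le (div_pos p1 p2), le_div_iff₀ p2]; exact h
    linarith

/-- Lemma 1: a single functional separating `x` from all points of `S` by the factor
`e^{2s}` bounds the Hilbert distance from `x` to the convex hull of `S` below by `s`. -/
theorem Admissible.le_hilbSet {x y : EuclideanSpace ℝ (Fin d)} {S : Set (EuclideanSpace ℝ (Fin d))}
    (hx : x ∈ G) (hS : S ⊆ G) (hne : S.Nonempty) (hy : y ∈ polarSet K) {s : ℝ}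
    (h : (∀ c ∈ S, Real.exp (2 * s) * fAff y x ≤ fAff y c) ∨
      (∀ c ∈ S, Real.exp (2 * s) * fAff y c ≤ fAff y x)) :
    s ≤ hilbSet K x (convexHull ℝ S) := by
  have hsub : convexHull ℝ S ⊆ G := convexHull_min hS hA.convG
  unfold hilbSet
  apply le_csInf
  · exact (hne.convexHull).image _
  · rintro _ ⟨c, hc, rfl⟩
    rcases h with h | h
    · have : convexHull ℝ S ⊆ {z | Real.exp (2 * s) * fAff y x ≤ fAff y z} :=
        convexHull_min (fun c hc => h c hc) (convex_le_fAff y _)
      exact hA.le_hilb_of_fAff hx (hsub hc) hy (Or.inl (this hc))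
    · have : convexHull ℝ S ⊆ {z | fAff y z ≤ Real.exp (-(2 * s)) * fAff y x} := by
        refine convexHull_min (fun c hc => ?_) (convex_fAff_le y _)
        have h1 := h c hc
        have h2 : Real.exp (-(2 * s)) * Real.exp (2 * s) = 1 := by
          rw [← Real.exp_add]; simp
        have h3 := mul_le_mul_of_nonneg_left h1 (Real.exp_pos (-(2 * s))).le
        rw [← mul_assoc, h2, one_mul] at h3
        exact h3
      have h1 : fAff y c ≤ Real.exp (-(2 * s)) * fAff y x := this hc
      refine hA.le_hilb_of_fAff hx (hsub hc) hy (Or.inr ?_)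
      have h2 : Real.exp (2 * s) * Real.exp (-(2 * s)) = 1 := by
        rw [← Real.exp_add]; simp
      have h3 := mul_le_mul_of_nonneg_left h1 (Real.exp_pos (2 * s)).le
      rw [← mul_assoc, h2, one_mul] at h3
      exact h3

theorem Admissible.bddBelow_hilb {x : EuclideanSpace ℝ (Fin d)}
    {S : Set (EuclideanSpace ℝ (Fin d))} (hx : x ∈ G) (hS : S ⊆ G) :
    BddBelow ((fun c => hilb K x c) '' S) := by
  refine ⟨0, ?_⟩
  rintro _ ⟨c, hc, rfl⟩
  exact hA.hilb_nonneg hx (hS hc)

theorem Admissible.hilbSet_le {x c : EuclideanSpace ℝ (Fin d)}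
    {S : Set (EuclideanSpace ℝ (Fin d))} (hx : x ∈ G) (hS : S ⊆ G) (hc : c ∈ S) :
    hilbSet K x S ≤ hilb K x c :=
  csInf_le (hA.bddBelow_hilb hx hS) ⟨c, hc, rfl⟩

/-- The Hilbert distance is bounded by a multiple of the Euclidean one on `G`. -/
theorem Admissible.hilb_le_norm :
    ∃ C : ℝ, 0 < C ∧ ∀ x ∈ G, ∀ x' ∈ G, hilb K x x' ≤ C * ‖x - x'‖ := by
  obtain ⟨m, hm, hlow⟩ := hA.exists_lower
  obtain ⟨L, hL, hnorm⟩ := hA.exists_norm_le
  have key : ∀ x ∈ G, ∀ x' ∈ G, funk K x x' ≤ L / m * ‖x - x'‖ := by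
    intro x hx x' hx'
    obtain ⟨y, hy, h, _⟩ := hA.funk_attained hx hx'
    rw [h]
    have p1 := hA.pos hy hx
    have p2 := hA.pos hy hx'
    have h1 := Real.log_le_sub_one_of_pos (div_pos p1 p2)
    have h2 : fAff y x / fAff y x' - 1 = inner ℝ y (x' - x) / fAff y x' := by
      rw [div_sub_one p2.ne']
      congr 1
      unfold fAff
      rw [inner_sub_right]; ring
    have h3 : inner ℝ y (x' - x) ≤ L * ‖x - x'‖ := by
      refine (real_inner_le_norm _ _).trans ?_
      rw [norm_sub_rev]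
      exact mul_le_mul_of_nonneg_right (hnorm y hy) (norm_nonneg _)
    have h4 : inner ℝ y (x' - x) / fAff y x' ≤ (L * ‖x - x'‖) / fAff y x' :=
      div_le_div_of_nonneg_right h3 p2.le
    have h5 : (L * ‖x - x'‖) / fAff y x' ≤ (L * ‖x - x'‖) / m :=
      div_le_div_of_nonneg_left (by positivity) hm (hlow y hy x' hx')
    have h6 : (L * ‖x - x'‖) / m = L / m * ‖x - x'‖ := by ring
    linarith
  refine ⟨L / m, by positivity, fun x hx x' hx' => ?_⟩
  have h1 := key x hx x' hx'
  have h2 := key x' hx' x hx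
  rw [norm_sub_rev] at h2
  unfold hilb
  linarith

/-- Both packing numbers are finite. -/
theorem Admissible.bddAbove_packSizes {α : ℝ} (hα : 0 < α) : BddAbove (packSizes G K α) := by
  obtain ⟨C, hC, hle⟩ := hA.hilb_le_norm
  set ε : ℝ := α / (2 * C) with hε
  have hε0 : 0 < ε := by positivity
  obtain ⟨t, htf, htc⟩ := (Metric.totallyBounded_iff.1 hA.compG.totallyBounded) (ε / 2) (by positivity)
  refine ⟨htf.toFinset.card, ?_⟩
  rintro N ⟨x, hxG, hsep⟩
  have hch : ∀ i : Fin N, ∃ c ∈ t, x i ∈ Metric.ball c (ε / 2) := by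
    intro i
    have := htc (hxG i)
    simpa using this
  choose c hct hcb using hch
  have hinj : Function.Injective fun i => (⟨c i, by simpa using hct i⟩ : htf.toFinset) := by
    intro i j hij
    by_contra hne
    have hij' : c i = c j := by simpa using hij
    have hlt : ∀ a b : Fin N, a < b → c a = c b → False := by
      intro a b hab hcab
      have h1 := hsep a b hab
      have h2 := hle _ (hxG a) _ (hxG b)
      have h3 : dist (x a) (x b) < ε := by
        have ha := hcb a
        have hb := hcb b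
        rw [Metric.mem_ball] at ha hb
        rw [← hcab] at hb
        calc dist (x a) (x b) ≤ dist (x a) (c a) + dist (c a) (x b) := dist_triangle _ _ _
          _ = dist (x a) (c a) + dist (x b) (c a) := by rw [dist_comm (c a)]
          _ < ε := by linarith
      rw [dist_eq_norm] at h3
      have h4 : C * ‖x a - x b‖ < C * ε := mul_lt_mul_of_pos_left h3 hC
      have h5 : C * ε = α / 2 := by rw [hε]; field_simp
      linarith
    rcases lt_or_gt_of_ne hne with h | h
    · exact hlt i j h hij'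
    · exact hlt j i h hij'.symm
  have := Fintype.card_le_of_injective _ hinj
  simpa using this

theorem Admissible.convSizes_subset {α : ℝ} : convSizes G K α ⊆ packSizes G K α := by
  rintro N ⟨x, hxG, hsep⟩
  refine ⟨x, hxG, fun i j hij => ?_⟩
  have h1 := hsep j (lt_of_le_of_lt (Nat.zero_le _) hij)
  refine h1.trans ?_
  rw [hilb_comm K (x i) (x j)]
  have hsub : convexHull ℝ (x '' {i | i < j}) ⊆ G :=
    convexHull_min (by rintro _ ⟨k, _, rfl⟩; exact hxG k) hA.convG
  exact hA.hilbSet_le (hxG j) hsub (subset_convexHull ℝ _ ⟨i, hij, rfl⟩)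

theorem Admissible.bddAbove_convSizes {α : ℝ} (hα : 0 < α) : BddAbove (convSizes G K α) :=
  (hA.bddAbove_packSizes hα).mono hA.convSizes_subset

end Adm

end Run7.h730
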