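import Mathlib

/-!
Three lemmas for the box example: a Hahn-Banach lemma, the atom lemma and the budget recursion.
-/

namespace Run7.h730

open Set

/-- Separation of an open box from a cone. -/
theorem hb_box {ι : Type*} [Fintype ι] [Nonempty ι] {x : ι → ℝ} (hx : ∀ l, 0 < x l) {b : ℝ}
    (hb : 1 < b) {S : Set (ι → ℝ)} (hS : Convex ℝ S) (hne : S.Nonempty)
    (hdis : ∀ c ∈ S, ∀ τ : ℝ, 0 < τ → ¬ (∀ l, x l < τ * c l ∧ τ * c l < b * x l)) :
    ∃ u w : ι → ℝ, (∀ l, 0 ≤ u l) ∧ (∀ l, 0 ≤ w l) ∧ b * ∑ l, w l * x l ≤ ∑ l, u l * x l ∧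
      0 < ∑ l, u l * x l ∧ ∀ c ∈ S, ∑ l, u l * c l ≤ ∑ l, w l * c l := by
  classical
  set U : Set (ι → ℝ) := Set.pi Set.univ (fun l => Set.Ioo (x l) (b * x l)) with hU
  have hUo : IsOpen U := isOpen_set_pi Set.finite_univ (fun l _ => isOpen_Ioo)
  have hUc : Convex ℝ U := convex_pi (fun l _ => convex_Ioo _ _)
  set C : Set (ι → ℝ) := {v | ∃ τ : ℝ, 0 < τ ∧ ∃ c ∈ S, v = τ • c} with hC
  have hCc : Convex ℝ C := by
    rintro _ ⟨τ, hτ, c, hc, rfl⟩ _ ⟨σ, hσ, e, he, rfl⟩ p q hp hq hpq
    have hpos : 0 < p * τ + q * σ := by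
      rcases hp.lt_or_eq with h | h
      · have := mul_pos h hτ
        have := mul_nonneg hq hσ.le
        linarith
      · have hq1 : q = 1 := by linarith
        rw [← h, hq1]; linarith
    refine ⟨p * τ + q * σ, hpos,
      (p * τ / (p * τ + q * σ)) • c + (q * σ / (p * τ + q * σ)) • e,
      hS hc he (by positivity) (by positivity) (by field_simp), ?_⟩
    rw [smul_add, smul_smul, smul_smul, smul_smul, smul_smul]
    congr 2
    · field_simp
    · field_simp
  have hdisj : Disjoint U C := by
    rw [Set.disjoint_left]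
    rintro v hv ⟨τ, hτ, c, hc, rfl⟩
    refine hdis c hc τ hτ (fun l => ?_)
    have := hv l (Set.mem_univ l)
    simpa using this
  obtain ⟨f, a, hfU, hfC⟩ := geometric_hahn_banach_open hUc hUo hCc hdisj
  obtain ⟨c₀, hc₀⟩ := hne
  have ha : a ≤ 0 := by
    by_contra hcon
    push Not at hcon
    have h1 : ∀ τ : ℝ, 0 < τ → a ≤ τ * f c₀ := by
      intro τ hτ
      have := hfC (τ • c₀) ⟨τ, hτ, c₀, hc₀, rfl⟩
      simpa using this
    by_cases h0 : f c₀ ≤ 0
    · have := h1 1 one_pos
      linarith
    · push Not at h0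
      have := h1 (a / (2 * f c₀)) (by positivity)
      have h2 : a / (2 * f c₀) * f c₀ = a / 2 := by field_simp
      linarith
  have hfS : ∀ c ∈ S, 0 ≤ f c := by
    intro c hc
    by_contra hcon
    push Not at hcon
    have := hfC (((a - 1) / f c) • c) ⟨(a - 1) / f c,
      div_pos_of_neg_of_neg (by linarith) hcon, c, hc, rfl⟩
    rw [map_smul, smul_eq_mul, div_mul_cancel₀ _ hcon.ne] at this
    linarith
  -- coordinates of f
  set e : ι → ℝ := fun l => f (Pi.single l 1) with he
  have hfe : ∀ v : ι → ℝ, f v = ∑ l, e l * v l := by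
    intro v
    have h1 : v = ∑ l, v l • (Pi.single l (1 : ℝ) : ι → ℝ) := by
      ext j
      simp [Finset.sum_apply, Pi.single_apply]
    conv_lhs => rw [h1]
    rw [map_sum]
    refine Finset.sum_congr rfl (fun l _ => ?_)
    rw [map_smul, smul_eq_mul, mul_comm]
  set u : ι → ℝ := fun l => max (-e l) 0 with hu
  set w : ι → ℝ := fun l => max (e l) 0 with hw
  have huw : ∀ l, u l - w l = - e l := by
    intro l
    simp only [hu, hw]
    rcases le_total 0 (e l) with h | h
    · rw [max_eq_right (by linarith), max_eq_left h]; ring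
    · rw [max_eq_left (by linarith), max_eq_right h]; ring
  -- the value at the corner
  have hcorner : b * ∑ l, w l * x l ≤ ∑ l, u l * x l := by
    by_contra hcon
    push Not at hcon
    -- a point of U near the corner
    have hlim : ∃ t : ℝ, 0 < t ∧ t < 1 ∧
        0 < ∑ l, e l * (if 0 ≤ e l then (b * x l) - t * ((b - 1) * x l)
          else x l + t * ((b - 1) * x l)) := by
      set D : ℝ := b * ∑ l, w l * x l - ∑ l, u l * x l with hD
      have hD0 : 0 < D := by linarith
      set E : ℝ := ∑ l, |e l| * ((b - 1) * x l) with hE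
      have hE0 : 0 ≤ E := Finset.sum_nonneg (fun l _ => by
        have := hx l
        have := abs_nonneg (e l)
        have : 0 ≤ (b - 1) * x l := mul_nonneg (by linarith) (hx l).le
        positivity)
      have hid : ∀ t : ℝ, ∑ l, e l * (if 0 ≤ e l then (b * x l) - t * ((b - 1) * x l)
          else x l + t * ((b - 1) * x l)) = D - t * E := by
        intro t
        rw [hD, hE, Finset.mul_sum, Finset.mul_sum, ← Finset.sum_sub_distrib,
          ← Finset.sum_sub_distrib]
        refine Finset.sum_congr rfl (fun l _ => ?_)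
        simp only [hu, hw]
        split_ifs with h
        · rw [max_eq_left h, max_eq_right (by linarith), abs_of_nonneg h]; ring
        · push Not at h
          rw [max_eq_right h.le, max_eq_left (by linarith), abs_of_neg h]; ring
      refine ⟨min (1 / 2) (D / (2 * (E + 1))), by positivity, ?_, ?_⟩
      · exact lt_of_le_of_lt (min_le_left _ _) (by norm_num)
      · rw [hid]
        have h1 : min (1 / 2) (D / (2 * (E + 1))) * E ≤ D / (2 * (E + 1)) * E :=
          mul_le_mul_of_nonneg_right (min_le_right _ _) hE0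
        have h2 : D / (2 * (E + 1)) * E ≤ D / 2 := by
          rw [div_mul_eq_mul_div, div_le_div_iff₀ (by positivity) (by norm_num)]
          nlinarith
        linarith
    obtain ⟨t, ht0, ht1, htpos⟩ := hlim
    have hmem : (fun l => if 0 ≤ e l then (b * x l) - t * ((b - 1) * x l)
          else x l + t * ((b - 1) * x l)) ∈ U := by
      rw [hU, Set.mem_univ_pi]
      intro l
      have hxl := hx l
      have h1 : 0 < (b - 1) * x l := mul_pos (by linarith) hxl
      have h2 : 0 < t * ((b - 1) * x l) := mul_pos ht0 h1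
      have h3 : t * ((b - 1) * x l) < (b - 1) * x l := by nlinarith
      split_ifs
      · constructor <;> nlinarith
      · constructor <;> nlinarith
    have h1 := hfU _ hmem
    rw [hfe] at h1
    linarith
  have hupos : 0 < ∑ l, u l * x l := by
    by_contra hcon
    push Not at hcon
    have hw0 : ∑ l, w l * x l ≤ 0 := by
      have h1 : 0 ≤ ∑ l, w l * x l :=
        Finset.sum_nonneg (fun l _ => mul_nonneg (le_max_right _ _) (hx l).le)
      nlinarith
    -- all e l = 0
    have he0 : ∀ l, e l = 0 := by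
      intro l
      have h1 : w l * x l = 0 := by
        have h2 : ∀ l ∈ Finset.univ, 0 ≤ w l * x l :=
          fun l _ => mul_nonneg (le_max_right _ _) (hx l).le
        have h3 : ∑ l, w l * x l = 0 := le_antisymm hw0 (Finset.sum_nonneg h2)
        exact (Finset.sum_eq_zero_iff_of_nonneg h2).1 h3 l (Finset.mem_univ l)
      have h4 : u l * x l = 0 := by
        have h2 : ∀ l ∈ Finset.univ, 0 ≤ u l * x l :=
          fun l _ => mul_nonneg (le_max_right _ _) (hx l).le
        have h3 : ∑ l, u l * x l = 0 := le_antisymm hcon (Finset.sum_nonneg h2)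
        exact (Finset.sum_eq_zero_iff_of_nonneg h2).1 h3 l (Finset.mem_univ l)
      have h5 : w l = 0 := by
        rcases mul_eq_zero.1 h1 with h | h
        · exact h
        · exact absurd h (hx l).ne'
      have h6 : u l = 0 := by
        rcases mul_eq_zero.1 h4 with h | h
        · exact h
        · exact absurd h (hx l).ne'
      have := huw l
      linarith
    have hmem : (fun l => (1 + b) / 2 * x l) ∈ U := by
      rw [hU, Set.mem_univ_pi]
      intro l
      have hxl := hx l
      constructor <;> nlinarith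
    have h1 := hfU _ hmem
    rw [hfe] at h1
    simp only [he0, zero_mul, Finset.sum_const_zero] at h1
    linarith
  refine ⟨u, w, fun l => le_max_right _ _, fun l => le_max_right _ _, hcorner, hupos, ?_⟩
  intro c hc
  have h1 := hfS c hc
  rw [hfe] at h1
  have h2 : ∑ l, u l * c l - ∑ l, w l * c l = - ∑ l, e l * c l := by
    rw [← Finset.sum_sub_distrib, ← Finset.sum_neg_distrib]
    refine Finset.sum_congr rfl (fun l _ => ?_)
    have := huw l
    rw [← sub_mul, this]; ring
  linarith

/-- The atom lemma. -/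
theorem exists_atom {ι : Type*} [Fintype ι] [Nonempty ι] {u g : ι → ℝ} {P Y L' b κ : ℝ}
    (hu : ∀ l, 0 ≤ u l) (hg : ∀ l, 0 ≤ g l) (hY : 0 < Y)
    (hCS : (∑ l, u l) * (∑ l, g l) ≤ P * L') (hL' : 0 ≤ L')
    (hlow : b * Y ≤ P + ∑ l, u l * g l) (hκb : κ < b)
    (hdisc : (2 * b + κ * L') ^ 2 < 4 * (1 + L') * b ^ 2) :
    ∃ l, κ * Y ≤ P + u l * g l := by
  by_contra hcon
  push Not at hcon
  have hPκ : P < κ * Y := by
    obtain ⟨l⟩ := (inferInstance : Nonempty ι)
    have := hcon l
    have := mul_nonneg (hu l) (hg l)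
    linarith
  set M : ℝ := κ * Y - P with hM
  have hM0 : 0 < M := by linarith
  set X : ℝ := ∑ l, u l * g l with hX
  have hsum : (∑ l, Real.sqrt (u l) * Real.sqrt (g l)) ^ 2 ≤ P * L' := by
    refine (Finset.sum_mul_sq_le_sq_mul_sq _ _ _).trans ?_
    simp only [Real.sq_sqrt (hu _), Real.sq_sqrt (hg _)]
    exact hCS
  have hXle : X ≤ Real.sqrt M * ∑ l, Real.sqrt (u l) * Real.sqrt (g l) := by
    rw [hX, Finset.mul_sum]
    refine Finset.sum_le_sum (fun l _ => ?_)
    have h1 : u l * g l ≤ M := by have := hcon l; linarith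
    have h2 : Real.sqrt (u l) * Real.sqrt (g l) = Real.sqrt (u l * g l) :=
      (Real.sqrt_mul (hu l) _).symm
    rw [h2]
    have h3 : Real.sqrt (u l * g l) ≤ Real.sqrt M := Real.sqrt_le_sqrt h1
    have h4 := Real.mul_self_sqrt (mul_nonneg (hu l) (hg l))
    have h5 := Real.sqrt_nonneg (u l * g l)
    nlinarith
  have hX0 : 0 ≤ X := Finset.sum_nonneg (fun l _ => mul_nonneg (hu l) (hg l))
  have hXsq : X ^ 2 ≤ M * (P * L') := by
    have h1 : X ^ 2 ≤ (Real.sqrt M * ∑ l, Real.sqrt (u l) * Real.sqrt (g l)) ^ 2 :=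
      pow_le_pow_left₀ hX0 hXle 2
    rw [mul_pow, Real.sq_sqrt hM0.le] at h1
    exact h1.trans (mul_le_mul_of_nonneg_left hsum hM0.le)
  have hlow' : b * Y - P ≤ X := by linarith
  have hlow0 : 0 ≤ b * Y - P := by nlinarith
  have h2 : (b * Y - P) ^ 2 ≤ M * (P * L') :=
    (pow_le_pow_left₀ hlow0 hlow' 2).trans hXsq
  have hY2 : 0 < Y ^ 2 := by positivity
  have h3 : 0 < (4 * (1 + L') * b ^ 2 - (2 * b + κ * L') ^ 2) * Y ^ 2 :=
    mul_pos (by linarith) hY2
  have h4 : 0 ≤ (2 * (1 + L') * P - (2 * b + κ * L') * Y) ^ 2 := sq_nonneg _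
  have h5 : 4 * (1 + L') * ((b * Y - P) ^ 2 - M * (P * L')) =
      (2 * (1 + L') * P - (2 * b + κ * L') * Y) ^ 2 +
        (4 * (1 + L') * b ^ 2 - (2 * b + κ * L') ^ 2) * Y ^ 2 := by
    rw [hM]; ring
  have h6 : 4 * (1 + L') * ((b * Y - P) ^ 2 - M * (P * L')) ≤ 0 :=
    mul_nonpos_of_nonneg_of_nonpos (by linarith) (by linarith)
  linarith

/-- The budget recursion: a sequence of nonnegative vectors of total mass at most `L`, such
that for every term some sub-probability vector separates the term from all previous ones by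
the margin `μ`, has length bounded independently of the dimension. -/
theorem budget {μ₀ δ L₀ : ℝ} (hμ₀ : 0 < μ₀) (hδ : 0 < δ) (hL₀ : 0 < L₀) (j : ℕ) :
    ∀ (n : ℕ) (L μ : ℝ), L ≤ j * (μ₀ / 4) → L ≤ L₀ → μ₀ / 2 + j * δ ≤ μ →
      ∀ (S : Finset ℕ) (g ω : ℕ → Fin n → ℝ), (∀ k ∈ S, ∀ l, 0 ≤ g k l) →
        (∀ k ∈ S, ∑ l, g k l ≤ L) → (∀ k ∈ S, ∀ l, 0 ≤ ω k l) → (∀ k ∈ S, ∑ l, ω k l ≤ 1) →
        (∀ i ∈ S, ∀ k ∈ S, i < k → μ ≤ ∑ l, ω k l * (g i l - g k l)) →
        S.card ≤ (1 + ⌊1 / (μ₀ / (4 * L₀))⌋₊ * (⌊L₀ / δ⌋₊ + 1)) ^ j := by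
  classical
  induction j with
  | zero =>
    intro n L μ hL _ hμ S g ω hg hgL hω hω1 hsep
    rw [pow_zero, Finset.card_le_one]
    have hno : ∀ i ∈ S, ∀ k ∈ S, i < k → False := by
      intro i hi k hk hik
      have h1 := hsep i hi k hk hik
      have h0 : ∀ m ∈ S, ∀ l, g m l = 0 := by
        intro m hm l
        have h2 : ∑ l, g m l ≤ 0 := by
          have := hgL m hm
          simp at hL
          linarith
        have h3 : ∑ l, g m l = 0 := le_antisymm h2 (Finset.sum_nonneg (fun l _ => hg m hm l))
        exact (Finset.sum_eq_zero_iff_of_nonneg (fun l _ => hg m hm l)).1 h3 l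
          (Finset.mem_univ l)
      simp only [h0 i hi, h0 k hk, sub_zero, mul_zero, Finset.sum_const_zero] at h1
      simp at hμ
      linarith
    intro a ha c hc
    rcases lt_trichotomy a c with h | h | h
    · exact (hno a ha c hc h).elim
    · exact h
    · exact (hno c hc a ha h).elim
  | succ j ih =>
    set θ : ℝ := μ₀ / (4 * L₀) with hθ
    have hθ0 : 0 < θ := by positivity
    set T : ℕ := (1 + ⌊1 / θ⌋₊ * (⌊L₀ / δ⌋₊ + 1)) ^ j with hTdef
    have hT := ih
    intro n L μ hL hLL₀ hμ S g ω hg hgL hω hω1 hsep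
    rcases S.eq_empty_or_nonempty with rfl | hSne
    · rw [Finset.card_empty]; exact Nat.zero_le _
    set k := S.max' hSne with hk
    have hkS : k ∈ S := S.max'_mem hSne
    have hlt : ∀ i ∈ S.erase k, i < k := by
      intro i hi
      rw [Finset.mem_erase] at hi
      exact lt_of_le_of_ne (S.le_max' i hi.2) hi.1
    have hgle : ∀ i ∈ S, ∀ l, g i l ≤ L₀ := by
      intro i hi l
      have h1 : g i l ≤ ∑ l, g i l :=
        Finset.single_le_sum (f := g i) (fun l _ => hg i hi l) (Finset.mem_univ l)
      linarith [hgL i hi]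
    have hjδ : 0 ≤ (j : ℝ) * δ := by positivity
    -- a heavy common coordinate
    have hex : ∀ i : ℕ, ∃ l : Option (Fin n), i ∈ S.erase k →
        ∃ l' : Fin n, l = some l' ∧ μ₀ / 4 ≤ g i l' ∧ θ ≤ ω k l' := by
      intro i
      by_cases hi : i ∈ S.erase k
      · have hiS : i ∈ S := Finset.mem_of_mem_erase hi
        have h1 := hsep i hiS k hkS (hlt i hi)
        by_contra hcon
        push Not at hcon
        have hno : ∀ l', μ₀ / 4 ≤ g i l' → ω k l' < θ := by
          intro l' h2
          by_contra h3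
          push Not at h3
          exact (hcon (some l')).2 l' rfl h2 |>.not_ge h3
        have h4 : ∀ l, ω k l * (g i l - g k l) ≤ (μ₀ / 4) * ω k l + θ * g i l := by
          intro l
          have hgk := hg k hkS l
          have hgi := hg i hiS l
          have hωk := hω k hkS l
          by_cases h5 : μ₀ / 4 ≤ g i l
          · have h6 := hno l h5
            have h7 : ω k l * (g i l - g k l) ≤ ω k l * g i l := by nlinarith
            have h8 : ω k l * g i l ≤ θ * g i l := mul_le_mul_of_nonneg_right h6.le hgi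
            have h9 : 0 ≤ (μ₀ / 4) * ω k l := by positivity
            linarith
          · push Not at h5
            have h7 : ω k l * (g i l - g k l) ≤ ω k l * g i l := by nlinarith
            have h8 : ω k l * g i l ≤ ω k l * (μ₀ / 4) := mul_le_mul_of_nonneg_left h5.le hωk
            have h9 : 0 ≤ θ * g i l := by positivity
            linarith
        have h10 : ∑ l, ω k l * (g i l - g k l) ≤ (μ₀ / 4) * ∑ l, ω k l + θ * ∑ l, g i l := by
          rw [Finset.mul_sum, Finset.mul_sum, ← Finset.sum_add_distrib]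
          exact Finset.sum_le_sum (fun l _ => h4 l)
        have h11 : θ * ∑ l, g i l ≤ θ * L₀ :=
          mul_le_mul_of_nonneg_left (by linarith [hgL i hiS]) hθ0.le
        have h12 : θ * L₀ = μ₀ / 4 := by rw [hθ]; field_simp
        have h13 : (μ₀ / 4) * ∑ l, ω k l ≤ (μ₀ / 4) * 1 :=
          mul_le_mul_of_nonneg_left (hω1 k hkS) (by positivity)
        have h14 : μ₀ / 2 < μ := by
          have : (0 : ℝ) < ((j + 1 : ℕ) : ℝ) * δ := by positivity
          linarith
        linarith
      · exact ⟨none, fun h => absurd h hi⟩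
    choose lc hlc using hex
    -- the classifying map
    set Φ : ℕ → Option (Fin n) × ℕ := fun i =>
      (lc i, match lc i with
        | none => 0
        | some l' => ⌊g i l' / δ⌋₊) with hΦ
    set W : Finset (Option (Fin n)) :=
      ((Finset.univ : Finset (Fin n)).filter (fun l => θ ≤ ω k l)).image some with hW
    have hWcard : W.card ≤ ⌊1 / θ⌋₊ := by
      rw [hW]
      refine Finset.card_image_le.trans ?_
      rw [Nat.le_floor_iff (by positivity)]
      rw [le_div_iff₀ hθ0]
      calc ((((Finset.univ : Finset (Fin n)).filter (fun l => θ ≤ ω k l)).card : ℕ) : ℝ) * θ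
          = ∑ _l ∈ (Finset.univ : Finset (Fin n)).filter (fun l => θ ≤ ω k l), θ := by
            rw [Finset.sum_const, nsmul_eq_mul]
        _ ≤ ∑ l ∈ (Finset.univ : Finset (Fin n)).filter (fun l => θ ≤ ω k l), ω k l :=
            Finset.sum_le_sum (fun l hl => (Finset.mem_filter.1 hl).2)
        _ ≤ ∑ l, ω k l :=
            Finset.sum_le_sum_of_subset_of_nonneg (Finset.filter_subset _ _)
              (fun l _ _ => hω k hkS l)
        _ ≤ 1 := hω1 k hkS
    have himg : (S.erase k).image Φ ⊆ W ×ˢ Finset.range (⌊L₀ / δ⌋₊ + 1) := by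
      intro v hv
      rw [Finset.mem_image] at hv
      obtain ⟨i, hi, rfl⟩ := hv
      obtain ⟨l', hl', h1, h2⟩ := hlc i hi
      rw [Finset.mem_product]
      simp only [hΦ, hl']
      constructor
      · rw [hW, Finset.mem_image]
        exact ⟨l', Finset.mem_filter.2 ⟨Finset.mem_univ _, h2⟩, rfl⟩
      · rw [Finset.mem_range]
        have h3 : g i l' / δ ≤ L₀ / δ :=
          div_le_div_of_nonneg_right (hgle i (Finset.mem_of_mem_erase hi) l') hδ.le
        have := Nat.floor_le_floor h3
        omega
    have hfib : ∀ a ∈ (S.erase k).image Φ,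
        ((S.erase k).filter (fun i => Φ i = a)).card ≤ T := by
      intro a ha
      rw [Finset.mem_image] at ha
      obtain ⟨i₀, hi₀, rfl⟩ := ha
      obtain ⟨l', hl', h1, h2⟩ := hlc i₀ hi₀
      set S' := (S.erase k).filter (fun i => Φ i = Φ i₀) with hS'
      have hS'S : ∀ i ∈ S', i ∈ S := fun i hi =>
        Finset.mem_of_mem_erase (Finset.filter_subset _ _ hi)
      have hS'l : ∀ i ∈ S', lc i = some l' ∧ ⌊g i l' / δ⌋₊ = ⌊g i₀ l' / δ⌋₊ ∧
          μ₀ / 4 ≤ g i l' := by
        intro i hi
        have hi1 := (Finset.mem_filter.1 hi).1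
        have hi2 := (Finset.mem_filter.1 hi).2
        simp only [hΦ, Prod.mk.injEq] at hi2
        obtain ⟨h3, h4⟩ := hi2
        rw [hl'] at h3
        simp only [h3, hl'] at h4
        obtain ⟨l'', hl'', h5, h6⟩ := hlc i hi1
        rw [h3] at hl''
        have : l' = l'' := Option.some_injective _ hl''
        subst this
        exact ⟨h3, h4, h5⟩
      refine hT n (L - μ₀ / 4) (μ - δ) ?_ (by linarith) ?_ S'
        (fun i l => if l = l' then 0 else g i l) (fun i l => if l = l' then 0 else ω i l)
        ?_ ?_ ?_ ?_ ?_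
      · push_cast at hL ⊢; linarith
      · push_cast at hμ ⊢; linarith
      · intro i hi l
        split_ifs
        · exact le_refl _
        · exact hg i (hS'S i hi) l
      · intro i hi
        have h3 : ∑ l, (if l = l' then 0 else g i l) = ∑ l, g i l - g i l' := by
          rw [eq_sub_iff_add_eq]
          rw [← Finset.add_sum_erase _ _ (Finset.mem_univ l')]
          rw [← Finset.add_sum_erase _ (fun l => g i l) (Finset.mem_univ l')]
          have h4 : ∑ x ∈ Finset.univ.erase l', (if x = l' then 0 else g i x) =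
              ∑ x ∈ Finset.univ.erase l', g i x := by
            refine Finset.sum_congr rfl (fun x hx => ?_)
            rw [if_neg (Finset.ne_of_mem_erase hx)]
          rw [h4]
          simp
        rw [h3]
        have := (hS'l i hi).2.2
        have := hgL i (hS'S i hi)
        linarith
      · intro i hi l
        split_ifs
        · exact le_refl _
        · exact hω i (hS'S i hi) l
      · intro i hi
        refine le_trans (Finset.sum_le_sum (fun l _ => ?_)) (hω1 i (hS'S i hi))
        split_ifs
        · exact hω i (hS'S i hi) l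
        · exact le_refl _
      · intro i hi m hm him
        have h3 := hsep i (hS'S i hi) m (hS'S m hm) him
        have h4 : ∑ l, (if l = l' then 0 else ω m l) *
            ((if l = l' then 0 else g i l) - (if l = l' then 0 else g m l)) =
            ∑ l, ω m l * (g i l - g m l) - ω m l' * (g i l' - g m l') := by
          rw [eq_sub_iff_add_eq]
          rw [← Finset.add_sum_erase _ _ (Finset.mem_univ l')]
          rw [← Finset.add_sum_erase _ (fun l => ω m l * (g i l - g m l)) (Finset.mem_univ l')]
          have h5 : ∑ x ∈ Finset.univ.erase l', (if x = l' then 0 else ω m x) *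
              ((if x = l' then 0 else g i x) - (if x = l' then 0 else g m x)) =
              ∑ x ∈ Finset.univ.erase l', ω m x * (g i x - g m x) := by
            refine Finset.sum_congr rfl (fun x hx => ?_)
            rw [if_neg (Finset.ne_of_mem_erase hx), if_neg (Finset.ne_of_mem_erase hx),
              if_neg (Finset.ne_of_mem_erase hx)]
          rw [h5]
          simp
        rw [h4]
        have h6 : ω m l' * (g i l' - g m l') ≤ δ := by
          have e1 := (hS'l i hi).2.1
          have e2 := (hS'l m hm).2.1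
          have e3 : ⌊g i l' / δ⌋₊ = ⌊g m l' / δ⌋₊ := by rw [e1, e2]
          have e4 : g i l' / δ < ⌊g i l' / δ⌋₊ + 1 := Nat.lt_floor_add_one _
          have e5 : (⌊g m l' / δ⌋₊ : ℝ) ≤ g m l' / δ :=
            Nat.floor_le (div_nonneg (hg m (hS'S m hm) l') hδ.le)
          rw [e3] at e4
          have e6 : g i l' / δ < g m l' / δ + 1 := by linarith
          have e7 : g i l' < g m l' + δ := by
            have := mul_lt_mul_of_pos_right e6 hδ
            rw [add_mul, div_mul_cancel₀ _ hδ.ne', div_mul_cancel₀ _ hδ.ne', one_mul] at this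
            exact this
          have e8 : ω m l' ≤ 1 := by
            refine le_trans ?_ (hω1 m (hS'S m hm))
            exact Finset.single_le_sum (f := ω m) (fun l _ => hω m (hS'S m hm) l)
              (Finset.mem_univ l')
          have e9 := hω m (hS'S m hm) l'
          nlinarith
        linarith
    have hcard : (S.erase k).card ≤ T * ((S.erase k).image Φ).card :=
      Finset.card_le_mul_card_image _ _ hfib
    have hcard2 : ((S.erase k).image Φ).card ≤ ⌊1 / θ⌋₊ * (⌊L₀ / δ⌋₊ + 1) := by
      refine (Finset.card_le_card himg).trans ?_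
      rw [Finset.card_product, Finset.card_range]
      exact Nat.mul_le_mul_right _ hWcard
    have hcard3 : S.card = (S.erase k).card + 1 := by
      rw [Finset.card_erase_of_mem hkS]
      have := Finset.card_pos.2 hSne
      omega
    rw [hcard3]
    have h1 := Nat.mul_le_mul_left T hcard2
    have h2 : 1 ≤ T := Nat.one_le_pow _ _ (by omega)
    calc (S.erase k).card + 1 ≤ T * (⌊1 / θ⌋₊ * (⌊L₀ / δ⌋₊ + 1)) + T := by omega
      _ = (1 + ⌊1 / θ⌋₊ * (⌊L₀ / δ⌋₊ + 1)) ^ (j + 1) := by rw [pow_succ, ← hTdef]; ring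

end Run7.h730
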