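import Pool.Agent.Run7.h730.QuasiPoly
import Pool.Agent.Run7.h730.Budget

/-!
The box example: `K` is a box, `G` is a simplex near a vertex of the box.
-/

namespace Run7.h730

open Set

/-- The box `-1 ≤ x_l ≤ R`. -/
def boxK (n : ℕ) (R : ℝ) : Set (EuclideanSpace ℝ (Fin n)) :=
  {x | ∀ l, -1 ≤ x l ∧ x l ≤ R}

/-- The simplex `x_l ≥ -η`, `∑ (x_l + η) ≤ L`. -/
def simG (n : ℕ) (η L : ℝ) : Set (EuclideanSpace ℝ (Fin n)) :=
  {x | (∀ l, -η ≤ x l) ∧ ∑ l, (x l + η) ≤ L}

variable {n : ℕ} {R η L : ℝ}

theorem simG_le {x : EuclideanSpace ℝ (Fin n)} (hx : x ∈ simG n η L) (l : Fin n) :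
    x l + η ≤ L := by
  refine le_trans ?_ hx.2
  exact Finset.single_le_sum (f := fun l => x l + η) (fun l _ => by linarith [hx.1 l])
    (Finset.mem_univ l)

theorem convex_boxK : Convex ℝ (boxK n R) := by
  intro x hx y hy a b ha hb hab l
  have h1 := hx l
  have h2 := hy l
  simp only [PiLp.add_apply, PiLp.smul_apply, smul_eq_mul]
  constructor <;> nlinarith

theorem convex_simG : Convex ℝ (simG n η L) := by
  intro x hx y hy a b ha hb hab
  refine ⟨fun l => ?_, ?_⟩
  · have h1 := hx.1 l
    have h2 := hy.1 l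
    simp only [PiLp.add_apply, PiLp.smul_apply, smul_eq_mul]
    have h3 := mul_le_mul_of_nonneg_left h1 ha
    have h4 := mul_le_mul_of_nonneg_left h2 hb
    have h5 : -η = a * (-η) + b * (-η) := by rw [← add_mul, hab, one_mul]
    linarith
  · have h1 : ∑ l, ((a • x + b • y) l + η) = a * ∑ l, (x l + η) + b * ∑ l, (y l + η) := by
      rw [Finset.mul_sum, Finset.mul_sum, ← Finset.sum_add_distrib]
      refine Finset.sum_congr rfl (fun l _ => ?_)
      simp only [PiLp.add_apply, PiLp.smul_apply, smul_eq_mul]
      linear_combination -η * hab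
    rw [h1]
    have h2 := mul_le_mul_of_nonneg_left hx.2 ha
    have h3 := mul_le_mul_of_nonneg_left hy.2 hb
    have h4 : L = a * L + b * L := by rw [← add_mul, hab, one_mul]
    linarith

theorem isCompact_of_coord {S : Set (EuclideanSpace ℝ (Fin n))} (hS : IsClosed S) {M : ℝ}
    (hM : ∀ x ∈ S, ∀ l, |x l| ≤ M) : IsCompact S := by
  refine Metric.isCompact_of_isClosed_isBounded hS ?_
  refine (Metric.isBounded_closedBall (x := (0 : EuclideanSpace ℝ (Fin n)))
    (r := Real.sqrt (n * M ^ 2))).subset ?_
  intro x hx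
  rw [mem_closedBall_zero_iff, EuclideanSpace.norm_eq]
  apply Real.sqrt_le_sqrt
  calc ∑ i, ‖x i‖ ^ 2 ≤ ∑ _i : Fin n, M ^ 2 := by
        refine Finset.sum_le_sum (fun l _ => ?_)
        rw [Real.norm_eq_abs]
        exact pow_le_pow_left₀ (abs_nonneg _) (hM x hx l) 2
    _ = n * M ^ 2 := by simp

theorem continuous_coord (l : Fin n) :
    Continuous fun x : EuclideanSpace ℝ (Fin n) => x l := by fun_prop

theorem isClosed_boxK : IsClosed (boxK n R) := by
  have : boxK n R = ⋂ l, ({x : EuclideanSpace ℝ (Fin n) | -1 ≤ x l} ∩ {x | x l ≤ R}) := by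
    ext x; simp [boxK]
  rw [this]
  exact isClosed_iInter fun l => (isClosed_le continuous_const (continuous_coord l)).inter
    (isClosed_le (continuous_coord l) continuous_const)

theorem isClosed_simG : IsClosed (simG n η L) := by
  have : simG n η L = (⋂ l, {x : EuclideanSpace ℝ (Fin n) | -η ≤ x l}) ∩
      {x | ∑ l, (x l + η) ≤ L} := by
    ext x; simp [simG]
  rw [this]
  refine IsClosed.inter (isClosed_iInter fun l =>
    isClosed_le continuous_const (continuous_coord l)) (isClosed_le ?_ continuous_const)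
  exact continuous_finsetSum _ (fun l _ => (continuous_coord l).add continuous_const)

theorem admissible_box (hη : 0 < η) (hη1 : η < 1) (hnη : n * η < L) (hLR : L < R) :
    Admissible (simG n η L) (boxK n R) where
  convG := convex_simG
  compG := by
    refine isCompact_of_coord isClosed_simG (M := L + 1) (fun x hx l => ?_)
    have h1 := simG_le hx l
    have h2 := hx.1 l
    rw [abs_le]
    constructor <;> linarith [mul_nonneg (Nat.cast_nonneg (α := ℝ) n) hη.le]
  convK := convex_boxK
  compK := by
    refine isCompact_of_coord isClosed_boxK (M := R + 1) (fun x hx l => ?_)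
    have h1 := hx l
    have h3 := mul_nonneg (Nat.cast_nonneg (α := ℝ) n) hη.le
    rw [abs_le]
    constructor <;> linarith
  zeroMem := by
    have hopen : IsOpen ((⋂ l, {x : EuclideanSpace ℝ (Fin n) | -η < x l}) ∩
      {x | ∑ l, (x l + η) < L}) := by
      refine IsOpen.inter (isOpen_iInter_of_finite fun l =>
        isOpen_lt continuous_const (continuous_coord l)) (isOpen_lt ?_ continuous_const)
      exact continuous_finsetSum _ (fun l _ => (continuous_coord l).add continuous_const)
    refine interior_maximal ?_ hopen ?_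
    · rintro x ⟨h1, h2⟩
      refine ⟨fun l => ?_, le_of_lt h2⟩
      have := Set.mem_iInter.1 h1 l
      exact le_of_lt this
    · constructor
      · rw [Set.mem_iInter]
        intro l
        change -η < (0 : EuclideanSpace ℝ (Fin n)) l
        simp [hη]
      · change ∑ l, ((0 : EuclideanSpace ℝ (Fin n)) l + η) < L
        simpa using hnη
  sub := by
    intro x hx
    have hopen : IsOpen (⋂ l, ({x : EuclideanSpace ℝ (Fin n) | -1 < x l} ∩ {x | x l < R})) :=
      isOpen_iInter_of_finite fun l => (isOpen_lt continuous_const (continuous_coord l)).inter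
        (isOpen_lt (continuous_coord l) continuous_const)
    refine interior_maximal ?_ hopen ?_
    · intro z hz l
      have := Set.mem_iInter.1 hz l
      exact ⟨le_of_lt this.1, le_of_lt this.2⟩
    · rw [Set.mem_iInter]
      intro l
      have h1 := simG_le hx l
      have h2 := hx.1 l
      exact ⟨by change -1 < x l; linarith, by change x l < R; linarith⟩

theorem inner_eq (x y : EuclideanSpace ℝ (Fin n)) : inner ℝ x y = ∑ l, x l * y l := by
  rw [PiLp.inner_apply]
  refine Finset.sum_congr rfl (fun l _ => ?_)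
  simp [mul_comm]

/-- The ratio bound: the extreme functionals of the box are `1`, `1 + x_l`, `1 - x_l / R`. -/
theorem box_ratio {y x c : EuclideanSpace ℝ (Fin n)} (hy : y ∈ polarSet (boxK n R))
    (hR : -1 ≤ R) {Λ : ℝ} (hΛ : 1 ≤ Λ) (h1 : ∀ l, 1 + x l ≤ Λ * (1 + c l))
    (h2 : ∀ l, R - x l ≤ Λ * (R - c l)) : fAff y x ≤ Λ * fAff y c := by
  classical
  have hw : ∑ l, (R * max (y l) 0 + max (-y l) 0) ≤ 1 := by
    have h := hy (WithLp.toLp 2 (fun l => if 0 ≤ y l then R else -1)) (by
      intro l
      simp only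
      split_ifs
      · exact ⟨hR, le_refl _⟩
      · exact ⟨le_refl _, hR⟩)
    rw [inner_eq] at h
    refine le_trans (le_of_eq ?_) h
    refine Finset.sum_congr rfl (fun l _ => ?_)
    simp only
    split_ifs with h0
    · rw [max_eq_left h0, max_eq_right (by linarith)]; ring
    · push Not at h0
      rw [max_eq_right h0.le, max_eq_left (by linarith)]; ring
  have hid : Λ * fAff y c - fAff y x =
      (Λ - 1) * (1 - ∑ l, (R * max (y l) 0 + max (-y l) 0)) +
      ∑ l, (max (y l) 0 * (Λ * (R - c l) - (R - x l)) +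
        max (-y l) 0 * (Λ * (1 + c l) - (1 + x l))) := by
    unfold fAff
    rw [inner_eq, inner_eq]
    have h3 : ∀ l, max (y l) 0 - max (-y l) 0 = y l := by
      intro l
      rcases le_total 0 (y l) with h | h
      · rw [max_eq_left h, max_eq_right (by linarith)]; ring
      · rw [max_eq_right h, max_eq_left (by linarith)]; ring
    have h4 : Λ * (1 - ∑ l, y l * c l) - (1 - ∑ l, y l * x l) =
        (Λ - 1) + ∑ l, (- (y l * (Λ * c l - x l))) := by
      rw [Finset.sum_neg_distrib]
      have : ∑ l, y l * (Λ * c l - x l) = Λ * ∑ l, y l * c l - ∑ l, y l * x l := by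
        rw [Finset.mul_sum, ← Finset.sum_sub_distrib]
        exact Finset.sum_congr rfl (fun l _ => by ring)
      rw [this]; ring
    have h5 : ∑ l, (- (y l * (Λ * c l - x l))) =
        (-(Λ - 1)) * ∑ l, (R * max (y l) 0 + max (-y l) 0) +
        ∑ l, (max (y l) 0 * (Λ * (R - c l) - (R - x l)) +
        max (-y l) 0 * (Λ * (1 + c l) - (1 + x l))) := by
      rw [Finset.mul_sum, ← Finset.sum_add_distrib]
      refine Finset.sum_congr rfl (fun l _ => ?_)
      linear_combination (Λ * c l - x l) * h3 l
    rw [h4, h5]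
    ring
  have hpos : 0 ≤ Λ * fAff y c - fAff y x := by
    rw [hid]
    apply add_nonneg
    · exact mul_nonneg (by linarith) (by linarith)
    · refine Finset.sum_nonneg (fun l _ => add_nonneg ?_ ?_)
      · exact mul_nonneg (le_max_right _ _) (by linarith [h2 l])
      · exact mul_nonneg (le_max_right _ _) (by linarith [h1 l])
  linarith

/-- The coordinates of the positive functionals: the constant `1` and the `1 + x_l`. -/
def zvec (x : EuclideanSpace ℝ (Fin n)) : Option (Fin n) → ℝ
  | none => 1
  | some l => 1 + x l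

theorem sum_zvec (u : Option (Fin n) → ℝ) (x : EuclideanSpace ℝ (Fin n)) (η : ℝ) :
    ∑ o, u o * zvec x o = (u none + (1 - η) * ∑ l, u (some l)) +
      ∑ l, u (some l) * (x l + η) := by
  rw [Fintype.sum_option]
  simp only [zvec]
  rw [Finset.mul_sum, add_assoc, ← Finset.sum_add_distrib, mul_one]
  congr 1
  exact Finset.sum_congr rfl (fun l _ => by ring)

theorem convex_image_zvec {S : Set (EuclideanSpace ℝ (Fin n))} (hS : Convex ℝ S) :
    Convex ℝ (zvec '' S) := by
  rintro _ ⟨x, hx, rfl⟩ _ ⟨y, hy, rfl⟩ a b ha hb hab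
  refine ⟨a • x + b • y, hS hx hy ha hb hab, ?_⟩
  ext o
  cases o with
  | none => simp [zvec, hab]
  | some l =>
    simp only [zvec, PiLp.add_apply, PiLp.smul_apply, smul_eq_mul, Pi.add_apply, Pi.smul_apply]
    linear_combination -hab

theorem zvec_pos {x : EuclideanSpace ℝ (Fin n)} (hx : x ∈ simG n η L) (hη1 : η < 1)
    (o : Option (Fin n)) : 0 < zvec x o := by
  cases o with
  | none => simp [zvec]
  | some l =>
    have := hx.1 l
    simp only [zvec]
    linarith

/-- The dual pair of weights attached to a term of a convexly separated sequence. -/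
theorem exists_weights (hη : 0 < η) (hη1 : η < 1) (hnη : n * η < L) (hLR : L < R)
    (hR : R + 1 ≤ 21 / 20 * (R - L)) {β b : ℝ} (hb : 1 < b)
    (hbβ : (21 / 20) ^ 2 * b < Real.exp (2 * β)) {N k : ℕ}
    {x : ℕ → EuclideanSpace ℝ (Fin n)} (hx : CSeq (simG n η L) (boxK n R) β N x)
    (hk0 : 0 < k) (hkN : k < N) :
    ∃ u w : Option (Fin n) → ℝ, (∀ o, 0 ≤ u o) ∧ (∀ o, 0 ≤ w o) ∧
      b * ∑ o, w o * zvec (x k) o ≤ ∑ o, u o * zvec (x k) o ∧
      0 < ∑ o, u o * zvec (x k) o ∧
      ∀ i < k, ∑ o, u o * zvec (x i) o ≤ ∑ o, w o * zvec (x i) o := by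
  have hA := admissible_box (n := n) hη hη1 hnη hLR
  have hxk := hx.1 k hkN
  have hsub : convexHull ℝ (x '' {i | i < k}) ⊆ simG n η L :=
    convexHull_min (by rintro _ ⟨i, hi, rfl⟩; exact hx.1 i (lt_trans hi hkN)) hA.convG
  have hne : (x '' {i | i < k}).Nonempty := Set.Nonempty.image x ⟨0, hk0⟩
  have hL0 : 0 < L := lt_of_le_of_lt (by positivity) hnη
  obtain ⟨u, w, hu, hw, h1, h2, h3⟩ := hb_box (x := zvec (x k)) (zvec_pos hxk hη1) hb
    (S := zvec '' convexHull ℝ (x '' {i | i < k}))
    (convex_image_zvec (convex_convexHull ℝ _)) ((hne.convexHull).image _) (by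
      rintro _ ⟨c, hc, rfl⟩ τ hτ hcon
      have hcG := hsub hc
      have hd : β ≤ hilb (boxK n R) (x k) c :=
        (hx.2 k hk0 hkN).trans (hA.hilbSet_le hxk hsub hc)
      have hnone := hcon none
      simp only [zvec, mul_one] at hnone
      have hR' : ∀ v ∈ simG n η L, ∀ v' ∈ simG n η L, ∀ l : Fin n,
          R - v l ≤ 21 / 20 * (R - v' l) := by
        intro v hv v' hv' l
        have e1 := hv.1 l
        have e2 := simG_le hv' l
        linarith
      have hRc : ∀ v ∈ simG n η L, ∀ l : Fin n, 0 ≤ R - v l := by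
        intro v hv l
        have e2 := simG_le hv l
        linarith
      -- first Funk distance
      obtain ⟨y, hy, hF1, _⟩ := hA.funk_attained hxk hcG
      obtain ⟨y', hy', hF2, _⟩ := hA.funk_attained hcG hxk
      have hτ1 : 1 < τ := hnone.1
      have hτb : 1 < b / τ := by
        rw [lt_div_iff₀ hτ]; linarith [hnone.2]
      have r1 : fAff y (x k) ≤ (21 / 20 * τ) * fAff y c := by
        refine box_ratio hy (by linarith) (by linarith) (fun l => ?_) (fun l => ?_)
        · have := (hcon (some l)).1
          simp only [zvec] at this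
          have hz := zvec_pos hcG hη1 (some l)
          simp only [zvec] at hz
          nlinarith [mul_pos hτ hz]
        · have e1 := hR' (x k) hxk c hcG l
          have e2 := hRc c hcG l
          nlinarith [mul_nonneg (by linarith : (0 : ℝ) ≤ τ - 1) e2]
      have r2 : fAff y' c ≤ (21 / 20 * (b / τ)) * fAff y' (x k) := by
        refine box_ratio hy' (by linarith) (by linarith) (fun l => ?_) (fun l => ?_)
        · have := (hcon (some l)).2
          simp only [zvec] at this
          have hz := zvec_pos hxk hη1 (some l)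
          simp only [zvec] at hz
          have e1 : 1 + c l ≤ b / τ * (1 + x k l) := by
            rw [div_mul_eq_mul_div, le_div_iff₀ hτ]; linarith
          have e2 : 0 < b / τ * (1 + x k l) := by positivity
          nlinarith
        · have e1 := hR' c hcG (x k) hxk l
          have e2 := hRc (x k) hxk l
          nlinarith [mul_nonneg (by linarith : (0 : ℝ) ≤ b / τ - 1) e2]
      have p1 := hA.pos hy hxk
      have p2 := hA.pos hy hcG
      have p3 := hA.pos hy' hcG
      have p4 := hA.pos hy' hxk
      have l1 : funk (boxK n R) (x k) c ≤ Real.log (21 / 20 * τ) := by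
        rw [hF1]
        apply Real.log_le_log (div_pos p1 p2)
        rw [div_le_iff₀ p2]; exact r1
      have l2 : funk (boxK n R) c (x k) ≤ Real.log (21 / 20 * (b / τ)) := by
        rw [hF2]
        apply Real.log_le_log (div_pos p3 p4)
        rw [div_le_iff₀ p4]; exact r2
      have l3 : Real.log (21 / 20 * τ) + Real.log (21 / 20 * (b / τ)) < 2 * β := by
        rw [← Real.log_mul (by positivity) (by positivity),
          Real.log_lt_iff_lt_exp (by positivity)]
        have : 21 / 20 * τ * (21 / 20 * (b / τ)) = (21 / 20) ^ 2 * b := by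
          field_simp
        rw [this]; exact hbβ
      unfold hilb at hd
      linarith)
  refine ⟨u, w, hu, hw, h1, h2, fun i hi => ?_⟩
  exact h3 _ ⟨x i, subset_convexHull ℝ _ ⟨i, hi, rfl⟩, rfl⟩

end Run7.h730
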