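import Pool.Agent.Run7.h730.BoxUpper

/-!
No inequality with a scale factor larger than `1 / 4`.
-/

namespace Run7.h730

open Set

/-- The point of the simplex attached to a set of coordinates. -/
noncomputable def vert {n : ℕ} (η h : ℝ) (S : Finset (Fin n)) : EuclideanSpace ℝ (Fin n) :=
  WithLp.toLp 2 (fun l => (if l ∈ S then h else 0) - η)

theorem vert_apply {n : ℕ} (η h : ℝ) (S : Finset (Fin n)) (l : Fin n) :
    vert η h S l = (if l ∈ S then h else 0) - η := rfl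

theorem vert_mem {n s : ℕ} {η h L : ℝ} (hh : 0 ≤ h) (hL : s * h = L) {S : Finset (Fin n)}
    (hS : S.card = s) : vert η h S ∈ simG n η L := by
  refine ⟨fun l => ?_, ?_⟩
  · rw [vert_apply]
    split_ifs <;> linarith
  · have : ∑ l, (vert η h S l + η) = ∑ l, (if l ∈ S then h else 0) := by
      refine Finset.sum_congr rfl (fun l _ => ?_)
      rw [vert_apply]; ring
    rw [this, Finset.sum_ite_mem, Finset.univ_inter, Finset.sum_const, nsmul_eq_mul, hS, hL]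

theorem le_funk_vert {n : ℕ} {η R L α : ℝ} (hη : 0 < η) (hη1 : η < 1)
    (hA : Admissible (simG n η L) (boxK n R)) {x x' : EuclideanSpace ℝ (Fin n)}
    (hx : x ∈ simG n η L) (hx' : x' ∈ simG n η L) {l : Fin n}
    (h1 : x l = (Real.exp α - 1) - η) (h2 : x' l = 0 - η) (hα : 0 < α) :
    α ≤ funk (boxK n R) x x' := by
  have hy : EuclideanSpace.single l (-1 : ℝ) ∈ polarSet (boxK n R) := by
    intro z hz
    rw [inner_eq]
    simp only [PiLp.single_apply, mul_ite, mul_neg, mul_one, mul_zero, Finset.sum_ite_eq',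
      Finset.mem_univ, if_true]
    linarith [(hz l).1]
  have hf : ∀ z : EuclideanSpace ℝ (Fin n), fAff (EuclideanSpace.single l (-1 : ℝ)) z = 1 + z l := by
    intro z
    unfold fAff
    rw [inner_eq]
    simp only [PiLp.single_apply, ite_mul, neg_mul, one_mul, zero_mul, Finset.sum_ite_eq',
      Finset.mem_univ, if_true]
    ring
  refine le_trans ?_ (hA.le_funk hx hx' hy)
  have hE : 1 < Real.exp α := Real.one_lt_exp_iff.2 hα
  rw [hf, hf, h1, h2, Real.le_log_iff_exp_le (by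
    apply div_pos <;> linarith), le_div_iff₀ (by linarith)]
  nlinarith

theorem choose_mem_packSizes {n s : ℕ} {η R L α : ℝ} (hη : 0 < η) (hη1 : η < 1)
    (hA : Admissible (simG n η L) (boxK n R)) (hα : 0 < α)
    (hL : s * (Real.exp α - 1) = L) :
    n.choose s ∈ packSizes (simG n η L) (boxK n R) α := by
  classical
  have hE : 1 < Real.exp α := Real.one_lt_exp_iff.2 hα
  have hcard : (Finset.powersetCard s (Finset.univ : Finset (Fin n))).card = n.choose s := by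
    rw [Finset.card_powersetCard, Finset.card_univ, Fintype.card_fin]
  set e := Finset.equivFinOfCardEq hcard with he
  have hS : ∀ i : Fin (n.choose s), ((e.symm i : Finset (Fin n))).card = s := fun i =>
    (Finset.mem_powersetCard.1 (e.symm i).2).2
  have hmem : ∀ i : Fin (n.choose s),
      vert η (Real.exp α - 1) (e.symm i : Finset (Fin n)) ∈ simG n η L :=
    fun i => vert_mem (by linarith) hL (hS i)
  refine ⟨fun i => vert η (Real.exp α - 1) (e.symm i : Finset (Fin n)), hmem, ?_⟩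
  have hfunk : ∀ i j : Fin (n.choose s), i ≠ j →
      α ≤ funk (boxK n R) (vert η (Real.exp α - 1) (e.symm i : Finset (Fin n)))
        (vert η (Real.exp α - 1) (e.symm j : Finset (Fin n))) := by
    intro i j hij
    have hne : (e.symm i : Finset (Fin n)) ≠ (e.symm j : Finset (Fin n)) := by
      intro h
      exact hij (e.symm.injective (Subtype.ext h))
    have hex : ∃ l, l ∈ (e.symm i : Finset (Fin n)) ∧ l ∉ (e.symm j : Finset (Fin n)) := by
      by_contra hcon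
      push Not at hcon
      exact hne (Finset.eq_of_subset_of_card_le hcon (by rw [hS, hS]))
    obtain ⟨l, hl1, hl2⟩ := hex
    refine le_funk_vert hη hη1 hA (hmem i) (hmem j) (l := l) ?_ ?_ hα
    · rw [vert_apply, if_pos hl1]
    · rw [vert_apply, if_neg hl2]
  intro i j hij
  have h1 := hfunk i j hij.ne
  have h2 := hfunk j i hij.ne'
  unfold hilb
  linarith

theorem log_choose_ge {n s : ℕ} (hs : 1 ≤ s) (hn : 2 * s ≤ n) :
    s * (Real.log n - Real.log (2 * s)) ≤ Real.log (n.choose s) := by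
  have hnpos : (0 : ℝ) < n := by
    have : 0 < n := by omega
    exact_mod_cast this
  have hspos : (0 : ℝ) < s := by exact_mod_cast hs
  have hfac : (0 : ℝ) < s.factorial := by exact_mod_cast Nat.factorial_pos _
  have h4 := Nat.pow_le_choose (α := ℝ) s n
  rw [div_le_iff₀ hfac] at h4
  have h5 : n ≤ 2 * (n + 1 - s) := by omega
  have h6 : (n : ℝ) ≤ 2 * ((n + 1 - s : ℕ) : ℝ) := by exact_mod_cast h5
  have h7 : ((n : ℝ) / 2) ^ s ≤ ((n + 1 - s : ℕ) : ℝ) ^ s :=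
    pow_le_pow_left₀ (by positivity) (by linarith) s
  have h8 : (s.factorial : ℝ) ≤ (s : ℝ) ^ s := by exact_mod_cast Nat.factorial_le_pow s
  have hch : (0 : ℝ) < n.choose s := by
    have : 0 < n.choose s := Nat.choose_pos (by omega)
    exact_mod_cast this
  have h9 : ((n : ℝ) / 2) ^ s ≤ (n.choose s : ℝ) * (s : ℝ) ^ s :=
    (h7.trans h4).trans (mul_le_mul_of_nonneg_left h8 hch.le)
  have h10 := Real.log_le_log (by positivity) h9
  rw [Real.log_pow, Real.log_mul hch.ne' (by positivity), Real.log_pow,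
    Real.log_div hnpos.ne' (by norm_num)] at h10
  rw [Real.log_mul (by norm_num) hspos.ne']
  linarith

theorem one_le_boxT (L : ℝ) : 1 ≤ boxT L := Nat.one_le_pow _ _ (by omega)

theorem log_boxT {ε : ℝ} (hε : 0 < ε) :
    ∃ C₁ : ℝ, 0 < C₁ ∧ ∀ L : ℝ, 1 ≤ L → Real.log (boxT L) ≤ C₁ * L ^ (1 + ε) := by
  refine ⟨49 * (57649 ^ (ε / 3) / (ε / 3)), by positivity, fun L hL => ?_⟩
  have hL0 : 0 < L := by linarith
  have hj : ((⌈48 * L⌉₊ : ℕ) : ℝ) ≤ 49 * L := by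
    have := Nat.ceil_lt_add_one (a := 48 * L) (by positivity)
    linarith
  have hj0 : (0 : ℝ) ≤ ((⌈48 * L⌉₊ : ℕ) : ℝ) := Nat.cast_nonneg _
  have h1 : ((⌊1 / ((1 / 12) / (4 * L))⌋₊ : ℕ) : ℝ) ≤ 48 * L := by
    refine (Nat.floor_le (by positivity)).trans (le_of_eq ?_)
    field_simp
    norm_num
  have h2 : ((⌊L / ((1 / 12) / (2 * (((⌈48 * L⌉₊ : ℕ) : ℝ) + 1)))⌋₊ : ℕ) : ℝ) + 1 ≤
      1201 * L ^ 2 := by
    have e1 : ((⌊L / ((1 / 12) / (2 * (((⌈48 * L⌉₊ : ℕ) : ℝ) + 1)))⌋₊ : ℕ) : ℝ) ≤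
        24 * L * (((⌈48 * L⌉₊ : ℕ) : ℝ) + 1) := by
      refine (Nat.floor_le (by positivity)).trans (le_of_eq ?_)
      field_simp
      norm_num
    have e2 : 24 * L * (((⌈48 * L⌉₊ : ℕ) : ℝ) + 1) ≤ 24 * L * (50 * L) := by
      apply mul_le_mul_of_nonneg_left _ (by positivity)
      linarith
    nlinarith
  have h3 : (1 : ℝ) + ((⌊1 / ((1 / 12) / (4 * L))⌋₊ : ℕ) : ℝ) *
      (((⌊L / ((1 / 12) / (2 * (((⌈48 * L⌉₊ : ℕ) : ℝ) + 1)))⌋₊ : ℕ) : ℝ) + 1) ≤
      57649 * L ^ 3 := by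
    have e1 := mul_le_mul h1 h2 (by positivity) (by positivity)
    have e2 : (1 : ℝ) ≤ L ^ 3 := one_le_pow₀ hL
    nlinarith
  have h4 : Real.log (57649 * L ^ 3) ≤ 57649 ^ (ε / 3) / (ε / 3) * L ^ ε := by
    have e1 := Real.log_le_rpow_div (x := 57649 * L ^ 3) (by positivity)
      (by positivity : 0 < ε / 3)
    refine e1.trans (le_of_eq ?_)
    rw [Real.mul_rpow (by norm_num) (by positivity)]
    have e2 : (L ^ 3) ^ (ε / 3) = L ^ ε := by
      rw [← Real.rpow_natCast, ← Real.rpow_mul hL0.le]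
      congr 1
      push_cast
      ring
    rw [e2]; ring
  unfold boxT
  push_cast
  rw [Real.log_pow]
  have h5 : Real.log (1 + ((⌊1 / ((1 / 12) / (4 * L))⌋₊ : ℕ) : ℝ) *
      (((⌊L / ((1 / 12) / (2 * (((⌈48 * L⌉₊ : ℕ) : ℝ) + 1)))⌋₊ : ℕ) : ℝ) + 1)) ≤
      57649 ^ (ε / 3) / (ε / 3) * L ^ ε :=
    (Real.log_le_log (by positivity) h3).trans h4
  have h6 : 0 ≤ 57649 ^ (ε / 3) / (ε / 3) * L ^ ε := by positivity
  calc _ ≤ ((⌈48 * L⌉₊ : ℕ) : ℝ) * (57649 ^ (ε / 3) / (ε / 3) * L ^ ε) :=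
        mul_le_mul_of_nonneg_left h5 hj0
    _ ≤ (49 * L) * (57649 ^ (ε / 3) / (ε / 3) * L ^ ε) := mul_le_mul_of_nonneg_right hj h6
    _ = _ := by
        rw [Real.rpow_add hL0, Real.rpow_one]; ring

/-- The example with parameters `s` and `n`. -/
theorem box_pair {c₀ : ℝ} (hc₀ : 1 / 4 < c₀) {s n : ℕ} (hs : 1 ≤ s) (hn : 1 ≤ n) {α L : ℝ}
    (hα : α = 2 + Real.log (4 * s) / (4 * c₀ - 1)) (hL : L = s * (Real.exp α - 1)) :
    ∃ (G K : Set (EuclideanSpace ℝ (Fin n))), Admissible G K ∧ 0 < α ∧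
      n.choose s ≤ packNum G K α ∧
      convPackNum G K (c₀ * α) ≤ 1 + boxT L * (⌊15 * L⌋₊ + 1) * n := by
  have hs1 : (1 : ℝ) ≤ s := by exact_mod_cast hs
  have hγ : 0 < 4 * c₀ - 1 := by linarith
  have hlog4s : 0 ≤ Real.log (4 * s) := Real.log_nonneg (by linarith)
  have hα2 : 2 ≤ α := by
    have := div_nonneg hlog4s hγ.le
    linarith
  have hα0 : 0 < α := by linarith
  obtain ⟨β, hβ⟩ : ∃ β : ℝ, β = c₀ * α := ⟨_, rfl⟩
  have hβ0 : 0 < β := by rw [hβ]; positivity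
  obtain ⟨b, hb⟩ : ∃ b : ℝ, b = 9 / 10 * Real.exp (2 * β) := ⟨_, rfl⟩
  have hE1 : (2.7182818283 : ℝ) < Real.exp 1 := Real.exp_one_gt_d9
  have hexp2β : Real.exp 1 ≤ Real.exp (2 * β) := Real.exp_le_exp.2 (by rw [hβ]; nlinarith)
  have hb2 : 2 ≤ b := by rw [hb]; linarith
  have hEα : 1 < Real.exp α := Real.one_lt_exp_iff.2 hα0
  have hL0 : 0 < L := by rw [hL]; apply mul_pos <;> linarith
  have hLb : 3 / 2 * L ≤ b * (b - 1) := by
    have h1 : 4 * (s : ℝ) ≤ Real.exp ((4 * c₀ - 1) * α) := by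
      rw [← Real.log_le_iff_le_exp (by linarith)]
      rw [hα, mul_add, mul_div_cancel₀ _ hγ.ne']
      linarith
    have h2 : Real.exp (2 * β) * Real.exp (2 * β) = Real.exp α * Real.exp ((4 * c₀ - 1) * α) := by
      rw [← Real.exp_add, ← Real.exp_add]; congr 1; rw [hβ]; ring
    have h3 : b * (b / 2) ≤ b * (b - 1) := by
      apply mul_le_mul_of_nonneg_left _ (by linarith)
      linarith
    have h4 : b * (b / 2) = 81 / 200 * (Real.exp α * Real.exp ((4 * c₀ - 1) * α)) := by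
      rw [← h2, hb]; ring
    have h5 : Real.exp α * (4 * s) ≤ Real.exp α * Real.exp ((4 * c₀ - 1) * α) :=
      mul_le_mul_of_nonneg_left h1 (by linarith)
    have h6 : L ≤ s * Real.exp α := by
      rw [hL]; linarith
    have h7 : 81 / 200 * (Real.exp α * (4 * s)) ≤
        81 / 200 * (Real.exp α * Real.exp ((4 * c₀ - 1) * α)) :=
      mul_le_mul_of_nonneg_left h5 (by norm_num)
    have h8 : 81 / 200 * (Real.exp α * (4 * s)) = 324 / 200 * (s * Real.exp α) := by ring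
    have h9 : 0 ≤ (s : ℝ) * Real.exp α := by positivity
    linarith
  have hn1' : (1 : ℝ) ≤ n := by exact_mod_cast hn
  have hbβ : (21 / 20) ^ 2 * b < Real.exp (2 * β) := by
    rw [hb]
    have := Real.exp_pos (2 * β)
    linarith
  have hup := box_upper hL0 hb2 hLb
  obtain ⟨R, hR⟩ : ∃ R : ℝ, R = 40 * (L + 1) := ⟨_, rfl⟩
  obtain ⟨η, hη⟩ : ∃ η : ℝ, η = L / (3 * (n + L)) := ⟨_, rfl⟩
  have hη0 : 0 < η := by rw [hη]; positivity
  have hη3 : η ≤ 1 / 3 := by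
    rw [hη, div_le_div_iff₀ (by positivity) (by norm_num)]
    linarith
  have hnη : n * η < L := by
    rw [hη, mul_div_assoc', div_lt_iff₀ (by positivity)]
    nlinarith [mul_pos hL0 (by linarith : (0 : ℝ) < n), mul_pos hL0 hL0]
  have hLR : L < R := by rw [hR]; linarith
  have hRR : R + 1 ≤ 21 / 20 * (R - L) := by rw [hR]; linarith
  have hAdm : Admissible (simG n η L) (boxK n R) := admissible_box hη0 (by linarith) hnη hLR
  refine ⟨simG n η L, boxK n R, hAdm, hα0, ?_, ?_⟩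
  · exact le_csSup (hAdm.bddAbove_packSizes hα0)
      (choose_mem_packSizes hη0 (by linarith) hAdm hα0 hL.symm)
  · rw [← hβ]
    obtain ⟨x, hx⟩ := exists_cSeq_of_mem (hAdm.convPackNum_mem hβ0)
    exact hup n η R β hn hη0 hη3 hnη hLR hRR hbβ _ x hx

/-- For scale factors above `1 / 4` not even a quasi-polynomial comparison of exponent less
than `2 - 1 / (4 c₀)` holds. -/
theorem box_final {c₀ : ℝ} (hc₀ : 1 / 4 < c₀) {p : ℝ} (hp : p < 2 - 1 / (4 * c₀)) (C : ℝ) :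
    ∃ (d : ℕ) (G K : Set (EuclideanSpace ℝ (Fin d))) (α : ℝ), 1 ≤ d ∧ Admissible G K ∧
      0 < α ∧ BddAbove (packSizes G K α) ∧ BddAbove (convSizes G K (c₀ * α)) ∧
      C * (1 + Real.log (convPackNum G K (c₀ * α))) ^ p < Real.log (packNum G K α) := by
  have hγ : 0 < 4 * c₀ - 1 := by linarith
  have hc₀' : 0 < c₀ := by linarith
  -- exponents
  obtain ⟨g, hg⟩ : ∃ g : ℝ, g = 1 / (4 * c₀ - 1) := ⟨_, rfl⟩
  have hg0 : 0 < g := by rw [hg]; positivity
  obtain ⟨κ, hκ⟩ : ∃ κ : ℝ, κ = 1 + g := ⟨_, rfl⟩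
  have hκ0 : 0 < κ := by linarith
  have hκinv : 1 / κ = 1 - 1 / (4 * c₀) := by
    rw [hκ, hg]
    field_simp
    ring
  obtain ⟨p', hp'⟩ : ∃ p' : ℝ, p' = max p 1 := ⟨_, rfl⟩
  have hp'1 : 1 ≤ p' := by rw [hp']; exact le_max_right _ _
  have hpp' : p ≤ p' := by rw [hp']; exact le_max_left _ _
  have hκinv0 : 0 < 1 / κ := by positivity
  have hκinv1 : 1 / κ < 1 := by
    rw [hκinv]
    have : 0 < 1 / (4 * c₀) := by positivity
    linarith
  have hp'2 : p' - 1 < 1 / κ := by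
    rw [hp']
    rcases max_cases p 1 with h | h
    · rw [h.1, hκinv]; linarith
    · rw [h.1]; linarith
  obtain ⟨ε, hε⟩ : ∃ ε : ℝ, ε = (1 / κ - (p' - 1)) / 2 := ⟨_, rfl⟩
  have hε0 : 0 < ε := by rw [hε]; linarith
  obtain ⟨ζ, hζ⟩ : ∃ ζ : ℝ, ζ = 1 / κ + (1 + ε) - (1 + ε) * p' := ⟨_, rfl⟩
  have hζ0 : 0 < ζ := by
    have h1 : (p' - 1) * ε ≤ 1 * ε := mul_le_mul_of_nonneg_right (by linarith) hε0.le
    have h2 : ζ = 1 / κ - (p' - 1) - (p' - 1) * ε := by rw [hζ]; ring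
    have h3 : 1 / κ - (p' - 1) = 2 * ε := by rw [hε]; ring
    linarith
  obtain ⟨C₁, hC₁, hlogT⟩ := log_boxT hε0
  obtain ⟨C₂, hC₂⟩ : ∃ C₂ : ℝ, C₂ = C₁ + 20 := ⟨_, rfl⟩
  have hC₂0 : 0 < C₂ := by linarith
  obtain ⟨C₃, hC₃⟩ : ∃ C₃ : ℝ, C₃ = Real.exp 2 * 4 ^ g := ⟨_, rfl⟩
  have hC₃0 : 0 < C₃ := by rw [hC₃]; positivity
  obtain ⟨Z, hZ⟩ : ∃ Z : ℝ, Z = 2 * C₃ ^ (1 / κ) * (|C| * C₂ ^ p') := ⟨_, rfl⟩
  have hZ0 : 0 ≤ Z := by rw [hZ]; positivity
  obtain ⟨s, hsdef⟩ : ∃ s : ℕ, s = ⌊Z ^ (1 / ζ)⌋₊ + 1 := ⟨_, rfl⟩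
  have hs : 1 ≤ s := by omega
  have hs1 : (1 : ℝ) ≤ s := by exact_mod_cast hs
  have hsZ : Z < (s : ℝ) ^ ζ := by
    have h1 : Z ^ (1 / ζ) < s := by
      rw [hsdef]; push_cast; exact Nat.lt_floor_add_one _
    have h2 := Real.rpow_lt_rpow (Real.rpow_nonneg hZ0 _) h1 hζ0
    rwa [← Real.rpow_mul hZ0, one_div_mul_cancel hζ0.ne', Real.rpow_one] at h2
  obtain ⟨α, hα⟩ : ∃ α : ℝ, α = 2 + Real.log (4 * s) / (4 * c₀ - 1) := ⟨_, rfl⟩
  obtain ⟨L, hL⟩ : ∃ L : ℝ, L = s * (Real.exp α - 1) := ⟨_, rfl⟩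
  have hlog4s : 0 ≤ Real.log (4 * s) := Real.log_nonneg (by linarith)
  have hα2 : 2 ≤ α := by
    have := div_nonneg hlog4s hγ.le
    linarith
  have hE2 : (7 : ℝ) ≤ Real.exp 2 := by
    have h1 := Real.exp_one_gt_d9
    have h2 : Real.exp 2 = Real.exp 1 * Real.exp 1 := by rw [← Real.exp_add]; norm_num
    rw [h2]; nlinarith
  have hE2α : Real.exp 2 ≤ Real.exp α := Real.exp_le_exp.2 hα2
  have hL6 : 6 * (s : ℝ) ≤ L := by
    rw [hL]
    have h1 : (6 : ℝ) ≤ Real.exp α - 1 := by linarith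
    have h2 := mul_le_mul_of_nonneg_left h1 (by linarith : (0 : ℝ) ≤ s)
    linarith
  have hL1 : 1 ≤ L := by linarith
  have hL0 : 0 < L := by linarith
  have hLC₃ : L ≤ C₃ * (s : ℝ) ^ κ := by
    have h1 : Real.exp α = Real.exp 2 * (4 * (s : ℝ)) ^ g := by
      rw [hα, Real.exp_add]
      congr 1
      rw [Real.rpow_def_of_pos (by positivity), hg]
      congr 1
      ring
    have h2 : L ≤ s * Real.exp α := by rw [hL]; linarith
    have h3 : (s : ℝ) * Real.exp α = C₃ * (s : ℝ) ^ κ := by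
      rw [h1, hC₃, hκ, Real.mul_rpow (by norm_num) (by linarith),
        Real.rpow_add (by linarith), Real.rpow_one]
      ring
    linarith
  have hsL : (L / C₃) ^ (1 / κ) ≤ s := by
    have h1 : L / C₃ ≤ (s : ℝ) ^ κ := by rw [div_le_iff₀ hC₃0]; linarith
    have h2 := Real.rpow_le_rpow (by positivity) h1 hκinv0.le
    rwa [← Real.rpow_mul (by linarith), mul_one_div_cancel hκ0.ne', Real.rpow_one] at h2
  obtain ⟨W, hW⟩ : ∃ W : ℝ, W = L ^ (1 + ε) := ⟨_, rfl⟩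
  have hLW : L ≤ W := by
    rw [hW]
    calc L = L ^ (1 : ℝ) := (Real.rpow_one _).symm
      _ ≤ L ^ (1 + ε) := Real.rpow_le_rpow_of_exponent_le hL1 (by linarith)
  have hW1 : 1 ≤ W := by linarith
  -- the dimension
  obtain ⟨n, hndef⟩ : ∃ n : ℕ, n = ⌈Real.exp W⌉₊ := ⟨_, rfl⟩
  have hnW : Real.exp W ≤ n := by rw [hndef]; exact Nat.le_ceil _
  have hEW : 1 + W ≤ Real.exp W := by
    have := Real.add_one_le_exp W
    linarith
  have hn1' : (1 : ℝ) ≤ n := by linarith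
  have hn1 : 1 ≤ n := by exact_mod_cast hn1'
  have hnpos : (0 : ℝ) < n := by linarith
  have hn2s : 2 * s ≤ n := by
    have : (2 * s : ℝ) ≤ n := by linarith
    exact_mod_cast this
  have hlogn : W ≤ Real.log n := by
    rw [Real.le_log_iff_exp_le hnpos]; exact hnW
  have hlogn' : Real.log n ≤ W + 1 := by
    have h1 : (n : ℝ) < Real.exp W + 1 := by
      rw [hndef]; exact Nat.ceil_lt_add_one (Real.exp_pos _).le
    have h2 : (n : ℝ) ≤ Real.exp (W + 1) := by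
      rw [Real.exp_add]
      have h3 := Real.exp_one_gt_d9
      have h4 : Real.exp W * 2 ≤ Real.exp W * Real.exp 1 :=
        mul_le_mul_of_nonneg_left (by linarith) (Real.exp_pos W).le
      linarith
    rw [Real.log_le_iff_le_exp hnpos]; exact h2
  obtain ⟨G, K, hAdm, hα0, hlow, hup⟩ := box_pair hc₀ hs hn1 hα hL
  have hβ0 : 0 < c₀ * α := by positivity
  refine ⟨n, G, K, α, hn1, hAdm, hα0, hAdm.bddAbove_packSizes hα0,
    hAdm.bddAbove_convSizes hβ0, ?_⟩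
  -- the upper bound
  have hone := hAdm.one_le_convPackNum hβ0
  generalize convPackNum G K (c₀ * α) = M at *
  have hone' : (1 : ℝ) ≤ M := by exact_mod_cast hone
  have hT1 := one_le_boxT L
  have hT1' : (1 : ℝ) ≤ boxT L := by exact_mod_cast hT1
  have hfl : ((⌊15 * L⌋₊ : ℕ) : ℝ) ≤ 15 * L := Nat.floor_le (by positivity)
  have hfl0 : (0 : ℝ) ≤ ((⌊15 * L⌋₊ : ℕ) : ℝ) := Nat.cast_nonneg _
  have hupR : (M : ℝ) ≤ 2 * (boxT L * (((⌊15 * L⌋₊ : ℕ) : ℝ) + 1) * n) := by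
    have h1 : (M : ℝ) ≤ 1 + boxT L * (((⌊15 * L⌋₊ : ℕ) : ℝ) + 1) * n := by exact_mod_cast hup
    have h2 : (1 : ℝ) ≤ boxT L * (((⌊15 * L⌋₊ : ℕ) : ℝ) + 1) * n := by
      have e1 : (1 : ℝ) ≤ boxT L * (((⌊15 * L⌋₊ : ℕ) : ℝ) + 1) :=
        one_le_mul_of_one_le_of_one_le hT1' (by linarith)
      exact one_le_mul_of_one_le_of_one_le e1 hn1'
    linarith
  have hlogM : Real.log M ≤ 1 + C₁ * W + 15 * W + (W + 1) := by
    have h1 := Real.log_le_log (by linarith) hupR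
    rw [Real.log_mul (by norm_num) (by positivity), Real.log_mul (by positivity) (by positivity),
      Real.log_mul (by positivity) (by positivity)] at h1
    have h2 := hlogT L hL1
    rw [← hW] at h2
    have h3 : Real.log (((⌊15 * L⌋₊ : ℕ) : ℝ) + 1) ≤ 15 * L := by
      have := Real.log_le_sub_one_of_pos (show (0 : ℝ) < ((⌊15 * L⌋₊ : ℕ) : ℝ) + 1 by linarith)
      linarith
    have h4 := Real.log_two_lt_d9
    linarith
  have hlogM0 : 0 ≤ Real.log M := Real.log_nonneg hone'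
  have h1M : 1 + Real.log M ≤ C₂ * W := by
    rw [hC₂, add_mul]; linarith
  have hpow : (1 + Real.log M) ^ p ≤ (C₂ * W) ^ p' := by
    calc (1 + Real.log M) ^ p ≤ (1 + Real.log M) ^ p' :=
          Real.rpow_le_rpow_of_exponent_le (by linarith) hpp'
      _ ≤ (C₂ * W) ^ p' := Real.rpow_le_rpow (by linarith) h1M (by linarith)
  have hpow0 : 0 ≤ (1 + Real.log M) ^ p := Real.rpow_nonneg (by linarith) _
  have hleft : C * (1 + Real.log M) ^ p ≤ |C| * C₂ ^ p' * W ^ p' := by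
    calc C * (1 + Real.log M) ^ p ≤ |C| * (1 + Real.log M) ^ p :=
          mul_le_mul_of_nonneg_right (le_abs_self _) hpow0
      _ ≤ |C| * (C₂ * W) ^ p' := mul_le_mul_of_nonneg_left hpow (abs_nonneg _)
      _ = |C| * C₂ ^ p' * W ^ p' := by
          rw [Real.mul_rpow hC₂0.le (by linarith)]; ring
  -- the lower bound
  have hchpos : (0 : ℝ) < n.choose s := by
    have : 0 < n.choose s := Nat.choose_pos (by omega)
    exact_mod_cast this
  have hlowR : (n.choose s : ℝ) ≤ packNum G K α := by exact_mod_cast hlow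
  have hlogchoose := log_choose_ge hs hn2s
  have hlog2s : Real.log (2 * s) ≤ W / 2 := by
    have := Real.log_le_sub_one_of_pos (show (0 : ℝ) < 2 * s by linarith)
    linarith
  have hright : s * (W / 2) ≤ Real.log (packNum G K α) := by
    have h1 : s * (W / 2) ≤ s * (Real.log n - Real.log (2 * s)) :=
      mul_le_mul_of_nonneg_left (by linarith) (by linarith)
    have h2 := Real.log_le_log hchpos hlowR
    linarith
  -- comparison
  have hkey : |C| * C₂ ^ p' * W ^ p' < s * (W / 2) := by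
    have hC₃κ : 0 < C₃ ^ (1 / κ) := by positivity
    have h1 : Z < L ^ ζ := hsZ.trans_le (Real.rpow_le_rpow (by linarith) (by linarith) hζ0.le)
    have h2 : L ^ ζ = L ^ (1 / κ) * L ^ (1 + ε) / L ^ ((1 + ε) * p') := by
      rw [hζ, Real.rpow_sub hL0, Real.rpow_add hL0]
    have h3 : W ^ p' = L ^ ((1 + ε) * p') := by rw [hW, ← Real.rpow_mul hL0.le]
    have h4 : (L / C₃) ^ (1 / κ) = L ^ (1 / κ) / C₃ ^ (1 / κ) :=
      Real.div_rpow hL0.le hC₃0.le _
    rw [h4] at hsL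
    have hWp : 0 < W ^ p' := by positivity
    rw [h2, ← h3, ← hW, lt_div_iff₀ hWp, hZ] at h1
    have h5 : L ^ (1 / κ) ≤ s * C₃ ^ (1 / κ) := by
      rwa [div_le_iff₀ hC₃κ] at hsL
    have h6 : 2 * C₃ ^ (1 / κ) * (|C| * C₂ ^ p') * W ^ p' < s * C₃ ^ (1 / κ) * W :=
      h1.trans_le (mul_le_mul_of_nonneg_right h5 (by linarith))
    have h7 : C₃ ^ (1 / κ) * (2 * (|C| * C₂ ^ p' * W ^ p')) < C₃ ^ (1 / κ) * (s * W) := by
      calc C₃ ^ (1 / κ) * (2 * (|C| * C₂ ^ p' * W ^ p'))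
          = 2 * C₃ ^ (1 / κ) * (|C| * C₂ ^ p') * W ^ p' := by ring
        _ < s * C₃ ^ (1 / κ) * W := h6
        _ = C₃ ^ (1 / κ) * (s * W) := by ring
    have h8 := lt_of_mul_lt_mul_left h7 hC₃κ.le
    linarith
  linarith

end Run7.h730
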