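import Pool.Agent.Run7.h730.BoxEx

/-!
The upper bound for the convexified packing number in the box example: linear in the dimension.
-/

namespace Run7.h730

open Set

/-- The pairwise estimate inside a class. -/
theorem class_estimate {n : ℕ} {η L : ℝ} (hη1 : η ≤ 1 / 3)
    {xi xk : EuclideanSpace ℝ (Fin n)} (hxi : xi ∈ simG n η L) (hxk : xk ∈ simG n η L)
    {u w : Option (Fin n) → ℝ} (hu : ∀ o, 0 ≤ u o) (hw : ∀ o, 0 ≤ w o)
    {l : Fin n}
    (hatom : 5 / 4 * ((w none + (1 - η) * ∑ l, w (some l)) + ∑ l, w (some l) * (xk l + η)) ≤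
      (u none + (1 - η) * ∑ l, u (some l)) + u (some l) * (xk l + η))
    (hY : 0 < (w none + (1 - η) * ∑ l, w (some l)) + ∑ l, w (some l) * (xk l + η))
    (hik : (u none + (1 - η) * ∑ l, u (some l)) + ∑ l, u (some l) * (xi l + η) ≤
      (w none + (1 - η) * ∑ l, w (some l)) + ∑ l, w (some l) * (xi l + η))
    (hlev : xk l + η ≤ (xi l + η) + 1 / 15) :
    1 / 12 ≤ ∑ l, (w (some l) / ∑ l, w (some l)) * ((xi l + η) - (xk l + η)) := by
  have hgi : ∀ l, 0 ≤ xi l + η := fun l => by linarith [hxi.1 l]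
  have hgk : ∀ l, 0 ≤ xk l + η := fun l => by linarith [hxk.1 l]
  set Su := ∑ l, u (some l) with hSu
  set Sw := ∑ l, w (some l) with hSw
  have hSu0 : 0 ≤ Su := Finset.sum_nonneg (fun l _ => hu _)
  have hSw0 : 0 ≤ Sw := Finset.sum_nonneg (fun l _ => hw _)
  have hule : u (some l) ≤ Su :=
    Finset.single_le_sum (f := fun l => u (some l)) (fun l _ => hu _) (Finset.mem_univ l)
  set P := u none + (1 - η) * Su with hP
  set Q := w none + (1 - η) * Sw with hQ
  have hun := hu none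
  have hwn := hw none
  have hP1 : 2 / 3 * Su ≤ P := by rw [hP]; nlinarith
  have hQ1 : 2 / 3 * Sw ≤ Q := by rw [hQ]; nlinarith
  set gi := ∑ l, w (some l) * (xi l + η) with hgi'
  set gk := ∑ l, w (some l) * (xk l + η) with hgk'
  have hgk0 : 0 ≤ gk := Finset.sum_nonneg (fun l _ => mul_nonneg (hw _) (hgk l))
  have hQ0 : 0 ≤ Q := by linarith
  have h1 : u (some l) * (xi l + η) ≤ ∑ l, u (some l) * (xi l + η) :=
    Finset.single_le_sum (f := fun l => u (some l) * (xi l + η))
      (fun l _ => mul_nonneg (hu _) (hgi l)) (Finset.mem_univ l)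
  have h2 : u (some l) * (xk l + η) - u (some l) * (1 / 15) ≤ u (some l) * (xi l + η) := by
    have := mul_le_mul_of_nonneg_left hlev (hu (some l))
    linarith
  have h3 : u (some l) * (1 / 15) ≤ 1 / 10 * P := by linarith
  have h4 : 0 ≤ u (some l) * (xk l + η) := mul_nonneg (hu _) (hgk l)
  have h5 : 9 / 10 * (P + u (some l) * (xk l + η)) ≤ P + u (some l) * (xi l + η) := by
    linarith
  have h6 : 9 / 8 * (Q + gk) ≤ Q + gi := by linarith
  have h7 : 1 / 8 * (Q + gk) ≤ gi - gk := by linarith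
  have hSwpos : 0 < Sw := by
    by_contra hcon
    push Not at hcon
    have hz : Sw = 0 := le_antisymm hcon hSw0
    have hz2 : ∀ l, w (some l) = 0 := by
      intro l
      exact (Finset.sum_eq_zero_iff_of_nonneg (fun l _ => hw (some l))).1 hz l
        (Finset.mem_univ l)
    have : gi - gk = 0 := by
      rw [hgi', hgk']; simp [hz2]
    linarith
  have h8 : ∑ l, (w (some l) / Sw) * ((xi l + η) - (xk l + η)) = (gi - gk) / Sw := by
    rw [hgi', hgk', ← Finset.sum_sub_distrib, Finset.sum_div]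
    exact Finset.sum_congr rfl (fun l _ => by ring)
  rw [h8, le_div_iff₀ hSwpos]
  linarith

theorem sum_zvec_nonneg {n : ℕ} {η L : ℝ} (hη1 : η < 1) {u : Option (Fin n) → ℝ}
    (hu : ∀ o, 0 ≤ u o) {x : EuclideanSpace ℝ (Fin n)} (hx : x ∈ simG n η L) :
    0 ≤ ∑ o, u o * zvec x o :=
  Finset.sum_nonneg (fun o _ => mul_nonneg (hu o) (zvec_pos hx hη1 o).le)

theorem eq_zero_of_sum_zvec {n : ℕ} {η L : ℝ} (hη1 : η < 1) {u : Option (Fin n) → ℝ}
    (hu : ∀ o, 0 ≤ u o) {x : EuclideanSpace ℝ (Fin n)} (hx : x ∈ simG n η L)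
    (h : ∑ o, u o * zvec x o ≤ 0) : ∀ o, u o = 0 := by
  intro o
  have h1 : ∀ o ∈ Finset.univ, 0 ≤ u o * zvec x o :=
    fun o _ => mul_nonneg (hu o) (zvec_pos hx hη1 o).le
  have h2 : ∑ o, u o * zvec x o = 0 := le_antisymm h (Finset.sum_nonneg h1)
  have h3 := (Finset.sum_eq_zero_iff_of_nonneg h1).1 h2 o (Finset.mem_univ o)
  rcases mul_eq_zero.1 h3 with h | h
  · exact h
  · exact absurd h (zvec_pos hx hη1 o).ne'

/-- The constant of the upper bound, as a function of the size of the simplex. -/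
noncomputable def boxT (L : ℝ) : ℕ :=
  (1 + ⌊1 / ((1 / 12) / (4 * L))⌋₊ *
    (⌊L / ((1 / 12) / (2 * (((⌈48 * L⌉₊ : ℕ) : ℝ) + 1)))⌋₊ + 1)) ^ ⌈48 * L⌉₊

theorem box_upper {L b : ℝ} (hL : 0 < L) (hb : 2 ≤ b) (hLb : 3 / 2 * L ≤ b * (b - 1)) :
    ∀ (n : ℕ) (η R β : ℝ), 1 ≤ n → 0 < η → η ≤ 1 / 3 → n * η < L → L < R →
      R + 1 ≤ 21 / 20 * (R - L) → (21 / 20) ^ 2 * b < Real.exp (2 * β) →
      ∀ (N : ℕ) (x : ℕ → EuclideanSpace ℝ (Fin n)),
        CSeq (simG n η L) (boxK n R) β N x → N ≤ 1 + boxT L * (⌊15 * L⌋₊ + 1) * n := by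
  classical
  set j : ℕ := ⌈48 * L⌉₊ with hj
  set δ : ℝ := (1 / 12) / (2 * (j + 1)) with hδ
  have hδ0 : 0 < δ := by positivity
  have hT := budget (μ₀ := 1 / 12) (δ := δ) (L₀ := L) (by norm_num) hδ0 hL j
  have hTeq : (1 + ⌊1 / ((1 / 12) / (4 * L))⌋₊ * (⌊L / δ⌋₊ + 1)) ^ j = boxT L := rfl
  rw [hTeq] at hT
  generalize boxT L = T at *
  intro n η R β hn hη hη3 hnη hLR hR hbβ N x hx
  have hη1 : η < 1 := by linarith
  have : Nonempty (Fin n) := ⟨⟨0, by omega⟩⟩
  -- data attached to k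
  have hdata : ∀ k : ℕ, ∃ (u w : Option (Fin n) → ℝ) (l : Fin n), 0 < k ∧ k < N →
      (∀ o, 0 ≤ u o) ∧ (∀ o, 0 ≤ w o) ∧
      5 / 4 * ((w none + (1 - η) * ∑ l, w (some l)) + ∑ l, w (some l) * (x k l + η)) ≤
      (u none + (1 - η) * ∑ l, u (some l)) + u (some l) * (x k l + η) ∧
      0 < (w none + (1 - η) * ∑ l, w (some l)) + ∑ l, w (some l) * (x k l + η) ∧
      ∀ i < k, (u none + (1 - η) * ∑ l, u (some l)) + ∑ l, u (some l) * (x i l + η) ≤
      (w none + (1 - η) * ∑ l, w (some l)) + ∑ l, w (some l) * (x i l + η) := by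
    intro k
    by_cases hk : 0 < k ∧ k < N
    · obtain ⟨u, w, hu, hw, h1, h2, h3⟩ :=
        exists_weights hη hη1 hnη hLR hR (by linarith) hbβ hx hk.1 hk.2
      have hxk := hx.1 k hk.2
      have hx0 := hx.1 0 (by omega)
      have hYpos : 0 < ∑ o, w o * zvec (x k) o := by
        by_contra hcon
        push Not at hcon
        have hw0 := eq_zero_of_sum_zvec hη1 hw hxk hcon
        have h4 := h3 0 hk.1
        have h5 : ∑ o, w o * zvec (x 0) o = 0 := by simp [hw0]
        rw [h5] at h4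
        have hu0 := eq_zero_of_sum_zvec hη1 hu hx0 h4
        have h6 : ∑ o, u o * zvec (x k) o = 0 := by simp [hu0]
        rw [h6] at h2
        exact lt_irrefl _ h2
      rw [sum_zvec _ _ η] at hYpos
      rw [sum_zvec _ _ η, sum_zvec _ _ η] at h1
      have hgk : ∀ l, 0 ≤ x k l + η := fun l => by linarith [hxk.1 l]
      have hSu : 0 ≤ ∑ l, u (some l) := Finset.sum_nonneg (fun l _ => hu _)
      set L' : ℝ := L / (1 - η) with hL'
      have h1η : 0 < 1 - η := by linarith
      have hL'0 : 0 < L' := div_pos hL h1η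
      have hL'b : L' ≤ b * (b - 1) := by
        refine le_trans ?_ hLb
        rw [hL', div_le_iff₀ h1η]
        nlinarith
      obtain ⟨l, hl⟩ := exists_atom (u := fun l => u (some l)) (g := fun l => x k l + η)
        (P := u none + (1 - η) * ∑ l, u (some l))
        (Y := (w none + (1 - η) * ∑ l, w (some l)) + ∑ l, w (some l) * (x k l + η))
        (L' := L') (b := b) (κ := 5 / 4) (fun l => hu _) hgk hYpos
        (by
          have e1 : (1 - η) * ∑ l, u (some l) ≤ u none + (1 - η) * ∑ l, u (some l) := by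
            linarith [hu none]
          have e2 : (1 - η) * L' = L := by rw [hL']; field_simp
          calc (∑ l, u (some l)) * ∑ l, (x k l + η) ≤ (∑ l, u (some l)) * L :=
                mul_le_mul_of_nonneg_left hxk.2 hSu
            _ = ((1 - η) * ∑ l, u (some l)) * L' := by rw [← e2]; ring
            _ ≤ _ := mul_le_mul_of_nonneg_right e1 hL'0.le)
        hL'0.le h1 (by linarith)
        (by
          have e1 : L' * (5 * b + 25 / 16 * L' - 4 * b ^ 2) < 0 := by
            apply mul_neg_of_pos_of_neg hL'0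
            nlinarith
          nlinarith)
      refine ⟨u, w, l, fun _ => ⟨hu, hw, hl, hYpos, fun i hi => ?_⟩⟩
      have := h3 i hi
      rw [sum_zvec _ _ η, sum_zvec _ _ η] at this
      exact this
    · exact ⟨fun _ => 0, fun _ => 0, ⟨0, by omega⟩, fun h => absurd h hk⟩
  choose u w l hdat using hdata
  set I : Finset ℕ := Finset.Ico 1 N with hI
  have hImem : ∀ k ∈ I, 0 < k ∧ k < N := by
    intro k hk
    rw [hI, Finset.mem_Ico] at hk
    omega
  set Φ : ℕ → Fin n × ℕ := fun k => (l k, ⌊15 * (x k (l k) + η)⌋₊) with hΦ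
  have hg0 : ∀ k ∈ I, ∀ l, 0 ≤ x k l + η := by
    intro k hk l
    have := (hx.1 k (hImem k hk).2).1 l
    linarith
  have hfib : ∀ a ∈ I.image Φ, (I.filter (fun k => Φ k = a)).card ≤ T := by
    intro a ha
    rw [Finset.mem_image] at ha
    obtain ⟨k₀, hk₀, rfl⟩ := ha
    refine hT n L (1 / 12) ?_ (le_refl _) ?_ (I.filter (fun k => Φ k = Φ k₀))
      (fun k l => x k l + η) (fun k l' => w k (some l') / ∑ l', w k (some l')) ?_ ?_ ?_ ?_ ?_
    · have := Nat.le_ceil (48 * L)
      rw [← hj] at this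
      linarith
    · rw [hδ]
      have : (j : ℝ) * (1 / 12 / (2 * (j + 1))) ≤ 1 / 24 := by
        rw [mul_div_assoc', div_le_iff₀ (by positivity)]
        linarith
      linarith
    · intro k hk l'
      exact hg0 k (Finset.filter_subset _ _ hk) l'
    · intro k hk
      exact (hx.1 k (hImem k (Finset.filter_subset _ _ hk)).2).2
    · intro k hk l'
      have hd := hdat k (hImem k (Finset.filter_subset _ _ hk))
      exact div_nonneg (hd.2.1 _) (Finset.sum_nonneg (fun l' _ => hd.2.1 _))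
    · intro k hk
      rw [← Finset.sum_div]
      exact div_self_le_one _
    · intro i hi k hk hik
      have hi' := Finset.mem_filter.1 hi
      have hk' := Finset.mem_filter.1 hk
      have hdk := hdat k (hImem k hk'.1)
      have hΦik : Φ i = Φ k := by rw [hi'.2, hk'.2]
      simp only [hΦ, Prod.mk.injEq] at hΦik
      obtain ⟨e1, e2⟩ := hΦik
      refine class_estimate hη3 (hx.1 i (hImem i hi'.1).2)
        (hx.1 k (hImem k hk'.1).2) hdk.1 hdk.2.1 (l := l k) hdk.2.2.1 hdk.2.2.2.1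
        (hdk.2.2.2.2 i hik) ?_
      rw [e1] at e2
      have f1 : 15 * (x k (l k) + η) < ⌊15 * (x k (l k) + η)⌋₊ + 1 := Nat.lt_floor_add_one _
      have f2 : (⌊15 * (x i (l k) + η)⌋₊ : ℝ) ≤ 15 * (x i (l k) + η) :=
        Nat.floor_le (mul_nonneg (by norm_num) (hg0 i hi'.1 _))
      rw [← e2] at f1
      linarith
  have himg : I.image Φ ⊆ (Finset.univ : Finset (Fin n)) ×ˢ Finset.range (⌊15 * L⌋₊ + 1) := by
    intro v hv
    rw [Finset.mem_image] at hv
    obtain ⟨k, hk, rfl⟩ := hv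
    rw [Finset.mem_product]
    refine ⟨Finset.mem_univ _, ?_⟩
    rw [Finset.mem_range]
    have h1 := simG_le (hx.1 k (hImem k hk).2) (l k)
    have := Nat.floor_le_floor (show 15 * (x k (l k) + η) ≤ 15 * L by linarith)
    simp only [hΦ]
    omega
  have hcard : I.card ≤ T * (I.image Φ).card := Finset.card_le_mul_card_image _ _ hfib
  have hcard2 : (I.image Φ).card ≤ n * (⌊15 * L⌋₊ + 1) := by
    refine (Finset.card_le_card himg).trans ?_
    rw [Finset.card_product, Finset.card_range, Finset.card_univ, Fintype.card_fin]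
  have hIc : I.card = N - 1 := by rw [hI, Nat.card_Ico]
  have h7 : I.card ≤ T * (⌊15 * L⌋₊ + 1) * n := by
    calc I.card ≤ T * (I.image Φ).card := hcard
      _ ≤ T * (n * (⌊15 * L⌋₊ + 1)) := Nat.mul_le_mul_left _ hcard2
      _ = T * (⌊15 * L⌋₊ + 1) * n := by ring
  omega

end Run7.h730
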