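import Mathlib

/-!
Definitions for the comparison of ordinary and convexified packing numbers in
Hilbert geometry.
-/

namespace Run7.h730

open Set

/-- The polar of a set `K`: all `y` with `⟨x, y⟩ ≤ 1` for every `x ∈ K`. -/
def polarSet {d : ℕ} (K : Set (EuclideanSpace ℝ (Fin d))) :
    Set (EuclideanSpace ℝ (Fin d)) :=
  {y | ∀ x ∈ K, inner ℝ x y ≤ 1}

/-- The affine function `f_y(x) = 1 - ⟨y, x⟩`. -/
noncomputable def fAff {d : ℕ} (y x : EuclideanSpace ℝ (Fin d)) : ℝ :=
  1 - inner ℝ y x

/-- The Funk distance: the supremum over `y` in the polar of `log (f_y(x₁) / f_y(x₂))`. -/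
noncomputable def funk {d : ℕ} (K : Set (EuclideanSpace ℝ (Fin d)))
    (x₁ x₂ : EuclideanSpace ℝ (Fin d)) : ℝ :=
  sSup ((fun y => Real.log (fAff y x₁ / fAff y x₂)) '' polarSet K)

/-- The Hilbert distance: half the sum of the two Funk distances. -/
noncomputable def hilb {d : ℕ} (K : Set (EuclideanSpace ℝ (Fin d)))
    (x₁ x₂ : EuclideanSpace ℝ (Fin d)) : ℝ :=
  (funk K x₁ x₂ + funk K x₂ x₁) / 2

/-- The Hilbert distance from a point to a set. -/
noncomputable def hilbSet {d : ℕ} (K : Set (EuclideanSpace ℝ (Fin d)))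
    (x : EuclideanSpace ℝ (Fin d)) (C : Set (EuclideanSpace ℝ (Fin d))) : ℝ :=
  sInf ((fun c => hilb K x c) '' C)

/-- Admissible pairs: `G` and `K` are compact and convex, the origin is interior to `G`, and
`G` lies in the interior of `K` (so both are convex bodies). -/
structure Admissible {d : ℕ} (G K : Set (EuclideanSpace ℝ (Fin d))) : Prop where
  convG : Convex ℝ G
  compG : IsCompact G
  convK : Convex ℝ K
  compK : IsCompact K
  zeroMem : (0 : EuclideanSpace ℝ (Fin d)) ∈ interior G
  sub : G ⊆ interior K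

/-- The possible sizes of families in `G` that are pairwise at Hilbert distance at
least `α`. -/
def packSizes {d : ℕ} (G K : Set (EuclideanSpace ℝ (Fin d))) (α : ℝ) : Set ℕ :=
  {N | ∃ x : Fin N → EuclideanSpace ℝ (Fin d), (∀ i, x i ∈ G) ∧
    ∀ i j, i < j → α ≤ hilb K (x i) (x j)}

/-- The possible lengths of sequences in `G` each of whose terms, from the second on, is at
Hilbert distance at least `α` from the convex hull of the previous terms. -/
def convSizes {d : ℕ} (G K : Set (EuclideanSpace ℝ (Fin d))) (α : ℝ) : Set ℕ :=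
  {N | ∃ x : Fin N → EuclideanSpace ℝ (Fin d), (∀ i, x i ∈ G) ∧
    ∀ j : Fin N, 0 < (j : ℕ) → α ≤ hilbSet K (x j) (convexHull ℝ (x '' {i | i < j}))}

/-- The ordinary Hilbert packing number. -/
noncomputable def packNum {d : ℕ} (G K : Set (EuclideanSpace ℝ (Fin d))) (α : ℝ) : ℕ :=
  sSup (packSizes G K α)

/-- The convexified Hilbert packing number. -/
noncomputable def convPackNum {d : ℕ} (G K : Set (EuclideanSpace ℝ (Fin d))) (α : ℝ) : ℕ :=
  sSup (convSizes G K α)

end Run7.h730
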