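import Pool.Agent.Run7.h730.Seq

/-!
Large scales: the splitting lemma and the tree lemma.
-/

namespace Run7.h730

open Set

variable {d : ℕ}

theorem exp_mul_le_iff {a b t : ℝ} (ha : 0 < a) (hb : 0 < b) :
    Real.exp t * a ≤ b ↔ t + Real.log a ≤ Real.log b := by
  rw [Real.le_log_iff_exp_le hb, Real.exp_add, Real.exp_log ha]

/-- A finite set that is pairwise separated in the Hilbert distance. -/
def Sep (K : Set (EuclideanSpace ℝ (Fin d))) (s : ℝ)
    (I : Finset (EuclideanSpace ℝ (Fin d))) : Prop :=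
  ∀ x ∈ I, ∀ x' ∈ I, x ≠ x' → s ≤ hilb K x x'

theorem Sep.mono {K : Set (EuclideanSpace ℝ (Fin d))} {s : ℝ}
    {I J : Finset (EuclideanSpace ℝ (Fin d))} (h : Sep K s I) (hJ : J ⊆ I) : Sep K s J :=
  fun x hx x' hx' hne => h x (hJ hx) x' (hJ hx') hne

theorem exists_threshold {ι : Type*} (I : Finset ι) (g : ι → ℝ) (Q : ℕ) (hQ : 1 ≤ Q)
    (hI : I.Nonempty) :
    ∃ τ : ℝ, I.card ≤ Q * (I.filter (fun x => g x ≤ τ)).card ∧
      Q * (I.filter (fun x => g x < τ)).card < I.card := by
  classical
  set S := (I.image g).filter (fun a => I.card ≤ Q * (I.filter (fun x => g x ≤ a)).card) with hS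
  have hSne : S.Nonempty := by
    obtain ⟨x₀, hx₀, hmax⟩ := Finset.exists_max_image I g hI
    refine ⟨g x₀, ?_⟩
    rw [hS, Finset.mem_filter]
    refine ⟨Finset.mem_image_of_mem g hx₀, ?_⟩
    have : I.filter (fun x => g x ≤ g x₀) = I := Finset.filter_true_of_mem hmax
    rw [this]
    exact Nat.le_mul_of_pos_left _ hQ
  refine ⟨S.min' hSne, ?_, ?_⟩
  · exact (Finset.mem_filter.1 (S.min'_mem hSne)).2
  · by_contra hcon
    push Not at hcon
    set J := I.filter (fun x => g x < S.min' hSne) with hJ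
    have hJne : J.Nonempty := by
      rw [Finset.nonempty_iff_ne_empty]
      intro h0
      rw [h0] at hcon
      simp at hcon
      rw [hcon] at hI
      exact Finset.not_nonempty_empty hI
    obtain ⟨x₀, hx₀, hmax⟩ := Finset.exists_max_image J g hJne
    have hx₀' := hx₀
    rw [hJ, Finset.mem_filter] at hx₀'
    have hmem : g x₀ ∈ S := by
      rw [hS, Finset.mem_filter]
      refine ⟨Finset.mem_image_of_mem g hx₀'.1, hcon.trans ?_⟩
      refine Nat.mul_le_mul_left _ (Finset.card_le_card ?_)
      intro x hx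
      have hx' := hx
      rw [hJ, Finset.mem_filter] at hx'
      rw [Finset.mem_filter]
      exact ⟨hx'.1, hmax x hx⟩
    have := S.min'_le _ hmem
    linarith [hx₀'.2]

theorem Admissible.splitting {G K : Set (EuclideanSpace ℝ (Fin d))} (hA : Admissible G K)
    {κ s : ℝ} {r : ℕ}
    (hr : ∀ x, ¬ CSeq G K ((1 - κ) * s / 4) (r + 1) x)
    (I : Finset (EuclideanSpace ℝ (Fin d))) (hI : (I : Set (EuclideanSpace ℝ (Fin d))) ⊆ G)
    (hsep : Sep K s I) (hN : 2 ≤ I.card) :
    ∃ y ∈ polarSet K, ∃ a : ℝ,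
      I.card ≤ (4 * (r + 1)) * (I.filter (fun x => Real.log (fAff y x) ≤ a)).card ∧
      I.card ≤ (4 * (r + 1)) * (I.filter (fun x => a + κ * s ≤ Real.log (fAff y x))).card := by
  classical
  by_contra hcon
  push Not at hcon
  have hIne : I.Nonempty := Finset.card_pos.1 (by omega)
  have hτ : ∀ y : EuclideanSpace ℝ (Fin d), ∃ τ : ℝ,
      I.card ≤ (4 * (r + 1)) * (I.filter (fun x => Real.log (fAff y x) ≤ τ)).card ∧
      (4 * (r + 1)) * (I.filter (fun x => Real.log (fAff y x) < τ)).card < I.card :=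
    fun y => exists_threshold I (fun x => Real.log (fAff y x)) _ (by omega) hIne
  choose τ hτ1 hτ2 using hτ
  have hτ3 : ∀ y ∈ polarSet K,
      (4 * (r + 1)) * (I.filter (fun x => τ y + κ * s ≤ Real.log (fAff y x))).card < I.card :=
    fun y hy => hcon y hy (τ y) (hτ1 y)
  -- the bad sets
  set NT : EuclideanSpace ℝ (Fin d) → Finset (EuclideanSpace ℝ (Fin d)) := fun y =>
    I.filter (fun x => Real.log (fAff y x) < τ y) ∪
      I.filter (fun x => τ y + κ * s ≤ Real.log (fAff y x)) with hNT
  have hNTc : ∀ y ∈ polarSet K, (4 * (r + 1)) * (NT y).card < 2 * I.card := by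
    intro y hy
    have h1 := hτ2 y
    have h2 := hτ3 y hy
    have h3 : (NT y).card ≤ (I.filter (fun x => Real.log (fAff y x) < τ y)).card +
      (I.filter (fun x => τ y + κ * s ≤ Real.log (fAff y x))).card := Finset.card_union_le _ _
    calc (4 * (r + 1)) * (NT y).card
        ≤ (4 * (r + 1)) * ((I.filter (fun x => Real.log (fAff y x) < τ y)).card +
          (I.filter (fun x => τ y + κ * s ≤ Real.log (fAff y x))).card) :=
          Nat.mul_le_mul_left _ h3
      _ = (4 * (r + 1)) * (I.filter (fun x => Real.log (fAff y x) < τ y)).card +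
          (4 * (r + 1)) * (I.filter (fun x => τ y + κ * s ≤ Real.log (fAff y x))).card :=
          Nat.mul_add _ _ _
      _ < 2 * I.card := by omega
  set δ : ℝ := (1 - κ) * s / 2 with hδ
  set out : EuclideanSpace ℝ (Fin d) → EuclideanSpace ℝ (Fin d) → Prop := fun y x =>
    Real.log (fAff y x) ≤ τ y - δ ∨ τ y + κ * s + δ ≤ Real.log (fAff y x) with hout
  set A := I.filter (fun x => ∃ y ∈ polarSet K, out y x) with hAdef
  have hcompl : (I.filter (fun x => ¬ ∃ y ∈ polarSet K, out y x)).card ≤ 1 := by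
    rw [Finset.card_le_one]
    intro x hx x' hx'
    rw [Finset.mem_filter] at hx hx'
    by_contra hne
    obtain ⟨y, hy, hyd⟩ := hA.exists_of_le_hilb (hI hx.1) (hI hx'.1)
      (hsep x hx.1 x' hx'.1 hne)
    have h1 : ¬ out y x := fun h => hx.2 ⟨y, hy, h⟩
    have h2 : ¬ out y x' := fun h => hx'.2 ⟨y, hy, h⟩
    simp only [hout, not_or, not_le] at h1 h2
    rcases abs_cases (Real.log (fAff y x) - Real.log (fAff y x')) with h | h <;>
      rw [h.1] at hyd <;> nlinarith [h1.1, h1.2, h2.1, h2.2]
  have hAcard : I.card ≤ A.card + 1 := by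
    have h1 : A.card + (I.filter (fun x => ¬ ∃ y ∈ polarSet K, out y x)).card = I.card :=
      Finset.card_filter_add_card_filter_not _
    omega
  have hy : ∀ x : EuclideanSpace ℝ (Fin d), ∃ y, x ∈ A → y ∈ polarSet K ∧ out y x := by
    intro x
    by_cases hx : x ∈ A
    · have hx' := hx
      rw [hAdef, Finset.mem_filter] at hx'
      obtain ⟨y, hy, ho⟩ := hx'.2
      exact ⟨y, fun _ => ⟨hy, ho⟩⟩
    · exact ⟨0, fun h => absurd h hx⟩
  choose Y hY using hy
  obtain ⟨T, hT, hTB⟩ := selection (fun _ => (1 : ℝ)) (fun _ => zero_le_one) A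
    (fun x => NT (Y x)) ((I.card : ℝ) / (2 * (r + 1))) (by positivity)
    (by
      intro a ha
      have h1 := hNTc (Y a) (hY a ha).1
      simp only [Finset.sum_const, nsmul_eq_mul, mul_one]
      rw [le_div_iff₀ (by positivity)]
      have h2 : ((4 * (r + 1) * (NT (Y a)).card : ℕ) : ℝ) ≤ ((2 * I.card : ℕ) : ℝ) := by
        exact_mod_cast h1.le
      push_cast at h2
      linarith)
    r
    (by
      simp only [Finset.sum_const, nsmul_eq_mul, mul_one]
      have h1 : (I.card : ℝ) ≤ A.card + 1 := by exact_mod_cast hAcard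
      have h2 : (2 : ℝ) ≤ I.card := by exact_mod_cast hN
      have h3 : (r : ℝ) * (I.card / (2 * (r + 1))) < I.card / 2 := by
        rw [mul_div_assoc', div_lt_div_iff₀ (by positivity) (by positivity)]
        nlinarith
      linarith)
  apply hr T
  have hTG : ∀ j ≤ r, T j ∈ I := by
    intro j hj
    have := hT j hj
    rw [hAdef, Finset.mem_filter] at this
    exact this.1
  refine hA.cSeq_of (fun i hi => hI (hTG i (by omega))) ?_
  intro k hk0 hk
  have hkr : k ≤ r := by omega
  obtain ⟨hyp, ho⟩ := hY (T k) (hT k hkr)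
  refine ⟨Y (T k), hyp, ?_⟩
  have htyp : ∀ j < k, τ (Y (T k)) ≤ Real.log (fAff (Y (T k)) (T j)) ∧
      Real.log (fAff (Y (T k)) (T j)) < τ (Y (T k)) + κ * s := by
    intro j hj
    have h1 := hTB j k hj hkr
    have h2 := hTG j (by omega)
    simp only [hNT, Finset.mem_union, Finset.mem_filter, not_or, not_and, not_lt, not_le] at h1
    exact ⟨h1.1 h2, h1.2 h2⟩
  have hpos : ∀ j ≤ r, 0 < fAff (Y (T k)) (T j) := fun j hj => hA.pos hyp (hI (hTG j hj))
  rcases ho with ho | ho
  · left
    intro j hj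
    rw [exp_mul_le_iff (hpos k hkr) (hpos j (by omega))]
    have := htyp j hj
    have h2 : 2 * ((1 - κ) * s / 4) = δ := by rw [hδ]; ring
    linarith [this.1]
  · right
    intro j hj
    rw [exp_mul_le_iff (hpos j (by omega)) (hpos k hkr)]
    have := htyp j hj
    have h2 : 2 * ((1 - κ) * s / 4) = δ := by rw [hδ]; ring
    linarith [this.2]

/-- The tree lemma. -/
theorem Admissible.tree {G K : Set (EuclideanSpace ℝ (Fin d))} (hA : Admissible G K)
    {κ s : ℝ} {r : ℕ} (hr : ∀ x, ¬ CSeq G K ((1 - κ) * s / 4) (r + 1) x) (m : ℕ) :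
    ∀ I : Finset (EuclideanSpace ℝ (Fin d)), (I : Set (EuclideanSpace ℝ (Fin d))) ⊆ G →
      Sep K s I → (4 * (r + 1)) ^ m ≤ I.card →
      ∃ x : ℕ → EuclideanSpace ℝ (Fin d), (∀ k < 2 ^ m, x k ∈ I) ∧
        ∀ k < 2 ^ m, ∃ y ∈ polarSet K, ∃ c : ℝ, 0 ≤ c ∧ c * fAff y (x k) ≤ m ∧
          ∀ j < k, Real.exp (κ * s) ≤ c * fAff y (x j) := by
  induction m with
  | zero =>
    intro I hI hsep hcard
    have hne : I.Nonempty := Finset.card_pos.1 (by simpa using hcard)
    obtain ⟨x₀, hx₀⟩ := hne
    refine ⟨fun _ => x₀, fun _ _ => hx₀, fun k hk => ?_⟩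
    refine ⟨0, zero_mem_polarSet K, 0, le_refl _, by simp, fun j hj => ?_⟩
    simp at hk
    omega
  | succ m ih =>
    intro I hI hsep hcard
    have hQ : 0 < 4 * (r + 1) := by omega
    have hN : 2 ≤ I.card := by
      have : (4 * (r + 1)) ^ 1 ≤ (4 * (r + 1)) ^ (m + 1) :=
        Nat.pow_le_pow_right hQ (by omega)
      rw [pow_one] at this
      omega
    obtain ⟨y, hy, a, hlow, hhigh⟩ := hA.splitting hr I hI hsep hN
    set L := I.filter (fun x => Real.log (fAff y x) ≤ a) with hL
    set H := I.filter (fun x => a + κ * s ≤ Real.log (fAff y x)) with hH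
    have hLI : L ⊆ I := Finset.filter_subset _ _
    have hHI : H ⊆ I := Finset.filter_subset _ _
    have hLc : (4 * (r + 1)) ^ m ≤ L.card := by
      have h1 : (4 * (r + 1)) * (4 * (r + 1)) ^ m ≤ (4 * (r + 1)) * L.card := by
        rw [← pow_succ']
        exact hcard.trans hlow
      exact Nat.le_of_mul_le_mul_left h1 hQ
    have hHc : (4 * (r + 1)) ^ m ≤ H.card := by
      have h1 : (4 * (r + 1)) * (4 * (r + 1)) ^ m ≤ (4 * (r + 1)) * H.card := by
        rw [← pow_succ']
        exact hcard.trans hhigh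
      exact Nat.le_of_mul_le_mul_left h1 hQ
    obtain ⟨xl, hxl, hxl2⟩ := ih L (fun z hz => hI (hLI hz)) (hsep.mono hLI) hLc
    obtain ⟨xh, hxh, hxh2⟩ := ih H (fun z hz => hI (hHI hz)) (hsep.mono hHI) hHc
    have h2m : 2 ^ (m + 1) = 2 ^ m + 2 ^ m := by rw [pow_succ]; ring
    refine ⟨fun k => if k < 2 ^ m then xh k else xl (k - 2 ^ m), ?_, ?_⟩
    · intro k hk
      by_cases hk' : k < 2 ^ m
      · simp only [hk', if_true]
        exact hHI (hxh k hk')
      · simp only [hk', if_false]
        exact hLI (hxl _ (by omega))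
    · intro k hk
      by_cases hk' : k < 2 ^ m
      · simp only [hk', if_true]
        obtain ⟨z, hz, c, hc, h1, h2⟩ := hxh2 k hk'
        refine ⟨z, hz, c, hc, ?_, ?_⟩
        · push_cast
          linarith
        · intro j hj
          have : j < 2 ^ m := by omega
          simp only [this, if_true]
          exact h2 j hj
      · simp only [hk', if_false]
        have hk2 : k - 2 ^ m < 2 ^ m := by omega
        obtain ⟨z, hz, c, hc, h1, h2⟩ := hxl2 (k - 2 ^ m) hk2
        set e : ℝ := Real.exp (-a) with he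
        have he0 : 0 < e := Real.exp_pos _
        have hce : 0 < c + e := by linarith
        have hcomb : ∀ w, (c + e) * fAff ((c / (c + e)) • z + (e / (c + e)) • y) w =
            c * fAff z w + e * fAff y w := by
          intro w
          rw [fAff_combo_left _ _ _ (by field_simp)]
          field_simp
        refine ⟨(c / (c + e)) • z + (e / (c + e)) • y, ?_, c + e, hce.le, ?_, ?_⟩
        · exact convex_polarSet K hz hy (by positivity) (by positivity) (by field_simp)
        · rw [hcomb]
          have hmem := hxl _ hk2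
          have hmem2 := hmem
          rw [hL, Finset.mem_filter] at hmem2
          have hp := hA.pos hy (hI hmem2.1)
          have h3 : e * fAff y (xl (k - 2 ^ m)) ≤ 1 := by
            have h4 : fAff y (xl (k - 2 ^ m)) ≤ Real.exp a := by
              rw [← Real.log_le_iff_le_exp hp]; exact hmem2.2
            calc e * fAff y (xl (k - 2 ^ m)) ≤ e * Real.exp a :=
                  mul_le_mul_of_nonneg_left h4 he0.le
              _ = 1 := by rw [he, ← Real.exp_add]; simp
          push_cast
          linarith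
        · intro j hj
          rw [hcomb]
          by_cases hj' : j < 2 ^ m
          · simp only [hj', if_true]
            have hmem2 := hxh j hj'
            rw [hH, Finset.mem_filter] at hmem2
            have hp := hA.pos hy (hI hmem2.1)
            have hp2 := hA.pos hz (hI hmem2.1)
            have h4 : Real.exp (a + κ * s) ≤ fAff y (xh j) := by
              rw [← Real.le_log_iff_exp_le hp]; exact hmem2.2
            have h5 : e * Real.exp (a + κ * s) = Real.exp (κ * s) := by
              rw [he, ← Real.exp_add]; congr 1; ring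
            have h6 := mul_le_mul_of_nonneg_left h4 he0.le
            have h7 : 0 ≤ c * fAff z (xh j) := mul_nonneg hc hp2.le
            linarith
          · simp only [hj', if_false]
            have h3 := h2 (j - 2 ^ m) (by omega)
            have hmem := hLI (hxl (j - 2 ^ m) (by omega))
            have hp := hA.pos hy (hI hmem)
            have h7 : 0 ≤ e * fAff y (xl (j - 2 ^ m)) := mul_nonneg he0.le hp.le
            linarith

/-- The bound at large scales. -/
theorem Admissible.card_lt_of_large {G K : Set (EuclideanSpace ℝ (Fin d))}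
    (hA : Admissible G K) {κ s : ℝ} {r : ℕ}
    (hr : ∀ x, ¬ CSeq G K ((1 - κ) * s / 4) (r + 1) x) {m : ℕ} (hm : 1 ≤ m) (hrm : r < 2 ^ m)
    (hscale : Real.log m + 2 * ((1 - κ) * s / 4) ≤ κ * s)
    (I : Finset (EuclideanSpace ℝ (Fin d))) (hI : (I : Set (EuclideanSpace ℝ (Fin d))) ⊆ G)
    (hsep : Sep K s I) : I.card < (4 * (r + 1)) ^ m := by
  by_contra hcon
  push Not at hcon
  obtain ⟨x, hx, hx2⟩ := hA.tree hr m I hI hsep hcon
  apply hr x
  refine hA.cSeq_of (fun i hi => hI (hx i (by omega))) ?_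
  intro k hk0 hk
  obtain ⟨y, hy, c, hc, h1, h2⟩ := hx2 k (by omega)
  refine ⟨y, hy, Or.inl ?_⟩
  intro j hj
  have hpk := hA.pos hy (hI (hx k (by omega)))
  have hpj := hA.pos hy (hI (hx j (by omega)))
  have h3 := h2 j hj
  have hc0 : 0 < c := by
    rcases hc.lt_or_eq with h | h
    · exact h
    · rw [← h, zero_mul] at h3
      exact absurd h3 (not_le.2 (Real.exp_pos _))
  have hm0 : (0 : ℝ) < m := by exact_mod_cast hm
  have h4 : Real.exp (2 * ((1 - κ) * s / 4)) * m ≤ Real.exp (κ * s) := by
    calc Real.exp (2 * ((1 - κ) * s / 4)) * m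
        = Real.exp (2 * ((1 - κ) * s / 4) + Real.log m) := by
          rw [Real.exp_add, Real.exp_log hm0]
      _ ≤ Real.exp (κ * s) := Real.exp_le_exp.2 (by linarith)
  have h5 : c * (Real.exp (2 * ((1 - κ) * s / 4)) * fAff y (x k)) ≤ c * fAff y (x j) := by
    calc c * (Real.exp (2 * ((1 - κ) * s / 4)) * fAff y (x k))
        = Real.exp (2 * ((1 - κ) * s / 4)) * (c * fAff y (x k)) := by ring
      _ ≤ Real.exp (2 * ((1 - κ) * s / 4)) * m :=
          mul_le_mul_of_nonneg_left h1 (Real.exp_pos _).le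
      _ ≤ Real.exp (κ * s) := h4
      _ ≤ c * fAff y (x j) := h3
  exact le_of_mul_le_mul_left h5 hc0

end Run7.h730
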