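import Pool.Agent.Run7.h730.Assemble

/-!
The dimension-free quasi-polynomial bound.
-/

namespace Run7.h730

open Set

variable {d : ℕ}

theorem Admissible.one_mem_convSizes {G K : Set (EuclideanSpace ℝ (Fin d))}
    (hA : Admissible G K) (α : ℝ) : 1 ∈ convSizes G K α :=
  CSeq.mem_convSizes (x := fun _ => 0)
    ⟨fun _ _ => hA.zero_memG, fun j h0 hj => by omega⟩

theorem Admissible.one_mem_packSizes {G K : Set (EuclideanSpace ℝ (Fin d))}
    (hA : Admissible G K) (α : ℝ) : 1 ∈ packSizes G K α :=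
  hA.convSizes_subset (hA.one_mem_convSizes α)

theorem Admissible.one_le_convPackNum {G K : Set (EuclideanSpace ℝ (Fin d))}
    (hA : Admissible G K) {α : ℝ} (hα : 0 < α) : 1 ≤ convPackNum G K α :=
  le_csSup (hA.bddAbove_convSizes hα) (hA.one_mem_convSizes α)

theorem Admissible.one_le_packNum {G K : Set (EuclideanSpace ℝ (Fin d))}
    (hA : Admissible G K) {α : ℝ} (hα : 0 < α) : 1 ≤ packNum G K α :=
  le_csSup (hA.bddAbove_packSizes hα) (hA.one_mem_packSizes α)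

theorem Admissible.convPackNum_mem {G K : Set (EuclideanSpace ℝ (Fin d))}
    (hA : Admissible G K) {α : ℝ} (hα : 0 < α) : convPackNum G K α ∈ convSizes G K α :=
  Nat.sSup_mem ⟨1, hA.one_mem_convSizes α⟩ (hA.bddAbove_convSizes hα)

theorem Admissible.packNum_mem {G K : Set (EuclideanSpace ℝ (Fin d))}
    (hA : Admissible G K) {α : ℝ} (hα : 0 < α) : packNum G K α ∈ packSizes G K α :=
  Nat.sSup_mem ⟨1, hA.one_mem_packSizes α⟩ (hA.bddAbove_packSizes hα)

theorem Admissible.not_cSeq {G K : Set (EuclideanSpace ℝ (Fin d))}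
    (hA : Admissible G K) {α : ℝ} (hα : 0 < α) :
    ∀ x, ¬ CSeq G K α (convPackNum G K α + 1) x := by
  intro x hx
  have h1 : convPackNum G K α + 1 ≤ convPackNum G K α :=
    le_csSup (hA.bddAbove_convSizes hα) hx.mem_convSizes
  omega

theorem Admissible.exists_finset {G K : Set (EuclideanSpace ℝ (Fin d))}
    (hA : Admissible G K) {α : ℝ} (hα : 0 < α) {N : ℕ} (hN : N ∈ packSizes G K α) :
    ∃ I : Finset (EuclideanSpace ℝ (Fin d)), (I : Set (EuclideanSpace ℝ (Fin d))) ⊆ G ∧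
      Sep K α I ∧ I.card = N := by
  classical
  obtain ⟨x, hxG, hs⟩ := hN
  have hsep : ∀ i j, i ≠ j → α ≤ hilb K (x i) (x j) := by
    intro i j hij
    rcases lt_or_gt_of_ne hij with h | h
    · exact hs i j h
    · rw [hilb_comm]; exact hs j i h
  have hinj : Function.Injective x := by
    intro i j hij
    by_contra hne
    have h1 := hsep i j hne
    rw [hij, hA.hilb_self (hxG j)] at h1
    linarith
  refine ⟨Finset.univ.image x, ?_, ?_, ?_⟩
  · intro z hz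
    simp only [Finset.coe_image, Finset.coe_univ, Set.image_univ, Set.mem_range] at hz
    obtain ⟨i, rfl⟩ := hz
    exact hxG i
  · intro u hu v hv hne
    simp only [Finset.mem_image, Finset.mem_univ, true_and] at hu hv
    obtain ⟨i, rfl⟩ := hu
    obtain ⟨j, rfl⟩ := hv
    exact hsep i j (fun h => hne (by rw [h]))
  · rw [Finset.card_image_of_injective _ hinj]; simp

theorem quasi_poly : ∃ C : ℝ, 0 < C ∧ ∀ (d : ℕ) (G K : Set (EuclideanSpace ℝ (Fin d))),
    Admissible G K → ∀ α : ℝ, 0 < α →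
      BddAbove (packSizes G K α) ∧ BddAbove (convSizes G K (α / 32)) ∧
      Real.log (packNum G K α) ≤ C * (1 + Real.log (convPackNum G K (α / 32))) ^ 7 := by
  set A₁ : ℝ := 20736 * Real.exp 16 with hA₁
  set A₂ : ℝ := 648 * Real.exp 8 * (3 / 2) ^ 5 with hA₂
  have hA₁0 : 0 < A₁ := by positivity
  have hA₂0 : 0 < A₂ := by positivity
  refine ⟨9 / 2 + (A₂ + 1) + 3 / 2 * (A₁ + 1), by positivity, ?_⟩
  intro d G K hA α hα
  have hα32 : 0 < α / 32 := by linarith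
  refine ⟨hA.bddAbove_packSizes hα, hA.bddAbove_convSizes hα32, ?_⟩
  set r := convPackNum G K (α / 32) with hr
  have hr1 : 1 ≤ r := hA.one_le_convPackNum hα32
  have hrC : ∀ x, ¬ CSeq G K (α / 32) (r + 1) x := hA.not_cSeq hα32
  obtain ⟨I, hI, hsep, hcard⟩ := hA.exists_finset hα (hA.packNum_mem hα)
  set m := Nat.log 2 r + 1 with hm
  have hrm : r < 2 ^ m := Nat.lt_pow_succ_log_self (by norm_num) r
  have hr' : (1 : ℝ) ≤ r := by exact_mod_cast hr1
  have hlogr : 0 ≤ Real.log r := Real.log_nonneg hr'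
  set L : ℝ := 1 + Real.log r with hL
  have hL1 : 1 ≤ L := by linarith
  have hlog2 := Real.log_two_gt_d9
  have hlog2' := Real.log_two_lt_d9
  have hmL : (m : ℝ) ≤ 3 / 2 * L := by
    have h1 : 2 ^ Nat.log 2 r ≤ r := Nat.pow_log_le_self 2 (by omega)
    have h2 : ((2 : ℝ) ^ Nat.log 2 r) ≤ r := by exact_mod_cast h1
    have h3 := Real.log_le_log (by positivity) h2
    rw [Real.log_pow] at h3
    rw [hm]
    push_cast
    have h4 : (0 : ℝ) ≤ (Nat.log 2 r : ℝ) := Nat.cast_nonneg _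
    nlinarith
  have hm0 : (0 : ℝ) ≤ m := Nat.cast_nonneg _
  set t₁ := ⌊A₁ * L⌋₊ + 1 with ht₁
  set t₂ := ⌊(648 * Real.exp 8 * (m : ℝ) ^ 5) * L⌋₊ + 1 with ht₂
  have ht₁' : A₁ * L < t₁ := by rw [ht₁]; push_cast; exact Nat.lt_floor_add_one _
  have ht₂' : (648 * Real.exp 8 * (m : ℝ) ^ 5) * L < t₂ := by
    rw [ht₂]; push_cast; exact Nat.lt_floor_add_one _
  have ht₁le : (t₁ : ℝ) ≤ (A₁ + 1) * L := by
    rw [ht₁]; push_cast
    have := Nat.floor_le (a := A₁ * L) (by positivity)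
    nlinarith
  have ht₂le : (t₂ : ℝ) ≤ (A₂ + 1) * L ^ 6 := by
    rw [ht₂]; push_cast
    have h1 := Nat.floor_le (a := (648 * Real.exp 8 * (m : ℝ) ^ 5) * L) (by positivity)
    have h2 : (m : ℝ) ^ 5 ≤ (3 / 2 * L) ^ 5 := pow_le_pow_left₀ hm0 hmL 5
    have h3 : (648 * Real.exp 8 * (m : ℝ) ^ 5) * L ≤ A₂ * L ^ 6 := by
      calc (648 * Real.exp 8 * (m : ℝ) ^ 5) * L
          ≤ (648 * Real.exp 8 * (3 / 2 * L) ^ 5) * L := by gcongr
        _ = A₂ * L ^ 6 := by rw [hA₂]; ring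
    have h4 : (1 : ℝ) ≤ L ^ 6 := one_le_pow₀ hL1
    linarith
  have hmain := hA.card_le hα hr1 hrC (by omega) hrm ht₁' ht₂' I hI hsep
  rw [hcard] at hmain
  have hN1 : 1 ≤ packNum G K α := hA.one_le_packNum hα
  have hN1' : (0 : ℝ) < packNum G K α := by exact_mod_cast hN1
  have hmain' : (packNum G K α : ℝ) ≤ (4 * (r + 1)) ^ m * r ^ t₂ * (r ^ t₁) ^ m := by
    exact_mod_cast hmain
  have hlog := Real.log_le_log hN1' hmain'
  have hrpos : (0 : ℝ) < r := by linarith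
  rw [Real.log_mul (by positivity) (by positivity), Real.log_mul (by positivity) (by positivity),
    Real.log_pow, Real.log_pow, Real.log_pow, Real.log_pow] at hlog
  have hlog4 : Real.log (4 * (r + 1)) ≤ 3 * L := by
    have h1 : (4 * ((r : ℝ) + 1)) ≤ 2 ^ 3 * r := by linarith
    have h2 := Real.log_le_log (by positivity) h1
    have h3 : Real.log (2 ^ 3 * (r : ℝ)) = 3 * Real.log 2 + Real.log r := by
      rw [Real.log_mul (by positivity) (by positivity), Real.log_pow]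
      norm_num
    rw [h3] at h2
    linarith
  have hlogrL : Real.log r ≤ L := by linarith
  have hL2 : L ^ 2 ≤ L ^ 7 := pow_le_pow_right₀ hL1 (by norm_num)
  have hL3 : L ^ 3 ≤ L ^ 7 := pow_le_pow_right₀ hL1 (by norm_num)
  have e1 : (m : ℝ) * Real.log (4 * (r + 1)) ≤ 9 / 2 * L ^ 2 := by
    calc (m : ℝ) * Real.log (4 * (r + 1)) ≤ m * (3 * L) := mul_le_mul_of_nonneg_left hlog4 hm0
      _ ≤ (3 / 2 * L) * (3 * L) := mul_le_mul_of_nonneg_right hmL (by linarith)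
      _ = 9 / 2 * L ^ 2 := by ring
  have e2 : (t₂ : ℝ) * Real.log r ≤ (A₂ + 1) * L ^ 7 := by
    calc (t₂ : ℝ) * Real.log r ≤ (A₂ + 1) * L ^ 6 * L :=
          mul_le_mul ht₂le hlogrL hlogr (by positivity)
      _ = (A₂ + 1) * L ^ 7 := by ring
  have e3 : (m : ℝ) * (t₁ * Real.log r) ≤ 3 / 2 * (A₁ + 1) * L ^ 3 := by
    have h1 : (t₁ : ℝ) * Real.log r ≤ (A₁ + 1) * L * L :=
      mul_le_mul ht₁le hlogrL hlogr (by positivity)
    calc (m : ℝ) * (t₁ * Real.log r) ≤ (3 / 2 * L) * ((A₁ + 1) * L * L) :=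
          mul_le_mul hmL h1 (by positivity) (by positivity)
      _ = 3 / 2 * (A₁ + 1) * L ^ 3 := by ring
  have e4 : 9 / 2 * L ^ 2 ≤ 9 / 2 * L ^ 7 := by linarith
  have e5 : 3 / 2 * (A₁ + 1) * L ^ 3 ≤ 3 / 2 * (A₁ + 1) * L ^ 7 :=
    mul_le_mul_of_nonneg_left hL3 (by positivity)
  calc Real.log (packNum G K α) ≤ m * Real.log (4 * (r + 1)) + t₂ * Real.log r +
        m * (t₁ * Real.log r) := hlog
    _ ≤ 9 / 2 * L ^ 7 + (A₂ + 1) * L ^ 7 + 3 / 2 * (A₁ + 1) * L ^ 7 := by linarith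
    _ = (9 / 2 + (A₂ + 1) + 3 / 2 * (A₁ + 1)) * L ^ 7 := by ring

end Run7.h730
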