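import Pool.Agent.Run7.h730.Large

/-!
The sampling lemma: empirical averages approximate a point of a convex hull in the Hilbert
metric.
-/

namespace Run7.h730

open Set

variable {d : ℕ}

/-- One-sided Bernstein type bound for a finite distribution. -/
theorem tail_bound {k t : ℕ} (w X : Fin k → ℝ) (hw : ∀ i, 0 ≤ w i) (hw1 : ∑ i, w i = 1)
    (hX : ∑ i, w i * X i = 0) {b V δ : ℝ} (hb : ∀ i, |X i| ≤ b)
    (hV : ∑ i, w i * X i ^ 2 ≤ V) (hV0 : 0 < V) (hδ : 0 ≤ δ) (hδb : δ * b ≤ 2 * V) :
    ∑ T ∈ (Finset.univ : Finset (Fin t → Fin k)).filter (fun T => t * δ ≤ ∑ i, X (T i)),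
      ∏ i, w (T i) ≤ Real.exp (-(t * δ ^ 2 / (4 * V))) := by
  set l : ℝ := δ / (2 * V) with hl
  have hl0 : 0 ≤ l := by positivity
  have hlX : ∀ i, |l * X i| ≤ 1 := by
    intro i
    rw [abs_mul, abs_of_nonneg hl0]
    have h1 : l * |X i| ≤ l * b := mul_le_mul_of_nonneg_left (hb i) hl0
    have h2 : l * b ≤ 1 := by
      rw [hl, div_mul_eq_mul_div, div_le_one (by positivity)]; exact hδb
    linarith
  have hmgf : ∑ i, w i * Real.exp (l * X i) ≤ Real.exp (l ^ 2 * V) := by
    calc ∑ i, w i * Real.exp (l * X i)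
        ≤ ∑ i, w i * (1 + l * X i + (l * X i) ^ 2) := by
          refine Finset.sum_le_sum (fun i _ => mul_le_mul_of_nonneg_left ?_ (hw i))
          have := Real.abs_exp_sub_one_sub_id_le (hlX i)
          have h2 := (abs_le.1 this).2
          linarith
      _ = 1 + l ^ 2 * ∑ i, w i * X i ^ 2 := by
          have : ∀ i, w i * (1 + l * X i + (l * X i) ^ 2) =
              w i + l * (w i * X i) + l ^ 2 * (w i * X i ^ 2) := fun i => by ring
          simp only [this, Finset.sum_add_distrib, ← Finset.mul_sum, hw1, hX]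
          ring
      _ ≤ 1 + l ^ 2 * V := by
          have := mul_le_mul_of_nonneg_left hV (sq_nonneg l)
          linarith
      _ ≤ Real.exp (l ^ 2 * V) := by
          have := Real.add_one_le_exp (l ^ 2 * V)
          linarith
  have hnn : 0 ≤ ∑ i, w i * Real.exp (l * X i) :=
    Finset.sum_nonneg (fun i _ => mul_nonneg (hw i) (Real.exp_pos _).le)
  calc ∑ T ∈ (Finset.univ : Finset (Fin t → Fin k)).filter (fun T => t * δ ≤ ∑ i, X (T i)),
      ∏ i, w (T i)
      ≤ ∑ T ∈ (Finset.univ : Finset (Fin t → Fin k)).filter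
          (fun T => t * δ ≤ ∑ i, X (T i)),
        Real.exp (-(l * (t * δ))) * ∏ i, (w (T i) * Real.exp (l * X (T i))) := by
        refine Finset.sum_le_sum (fun T hT => ?_)
        rw [Finset.mem_filter] at hT
        rw [Finset.prod_mul_distrib, ← Real.exp_sum, ← Finset.mul_sum]
        have h1 : 0 ≤ ∏ i, w (T i) := Finset.prod_nonneg (fun i _ => hw _)
        have h2 : 1 ≤ Real.exp (-(l * (t * δ))) * Real.exp (l * ∑ i, X (T i)) := by
          rw [← Real.exp_add]
          apply Real.one_le_exp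
          have := mul_le_mul_of_nonneg_left hT.2 hl0
          linarith
        calc ∏ i, w (T i) = 1 * ∏ i, w (T i) := (one_mul _).symm
          _ ≤ (Real.exp (-(l * (t * δ))) * Real.exp (l * ∑ i, X (T i))) * ∏ i, w (T i) :=
            mul_le_mul_of_nonneg_right h2 h1
          _ = _ := by ring
    _ ≤ ∑ T : Fin t → Fin k,
        Real.exp (-(l * (t * δ))) * ∏ i, (w (T i) * Real.exp (l * X (T i))) := by
        refine Finset.sum_le_sum_of_subset_of_nonneg (Finset.filter_subset _ _) (fun T _ _ => ?_)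
        exact mul_nonneg (Real.exp_pos _).le
          (Finset.prod_nonneg (fun i _ => mul_nonneg (hw _) (Real.exp_pos _).le))
    _ = Real.exp (-(l * (t * δ))) * (∑ i, w i * Real.exp (l * X i)) ^ t := by
        rw [← Finset.mul_sum]
        congr 1
        exact (Fintype.sum_pow (fun i => w i * Real.exp (l * X i)) t).symm
    _ ≤ Real.exp (-(l * (t * δ))) * (Real.exp (l ^ 2 * V)) ^ t :=
        mul_le_mul_of_nonneg_left (pow_le_pow_left₀ hnn hmgf t) (Real.exp_pos _).le
    _ = Real.exp (-(t * δ ^ 2 / (4 * V))) := by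
        rw [← Real.exp_nat_mul, ← Real.exp_add]
        congr 1
        rw [hl]
        field_simp
        ring

/-- The average of the points `z (T i)`. -/
noncomputable def avg {k t : ℕ} (z : Fin k → EuclideanSpace ℝ (Fin d)) (T : Fin t → Fin k) :
    EuclideanSpace ℝ (Fin d) := ∑ i, (1 / (t : ℝ)) • z (T i)

theorem avg_mem {k t : ℕ} (ht : 0 < t) {z : Fin k → EuclideanSpace ℝ (Fin d)}
    {G' : Set (EuclideanSpace ℝ (Fin d))} (hG' : Convex ℝ G') (hz : ∀ i, z i ∈ G')
    (T : Fin t → Fin k) : avg z T ∈ G' := by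
  have ht' : (0 : ℝ) < t := by exact_mod_cast ht
  refine hG'.sum_mem (fun _ _ => by positivity) ?_ (fun i _ => hz _)
  simp
  field_simp

theorem fAff_avg {k t : ℕ} (ht : 0 < t) (z : Fin k → EuclideanSpace ℝ (Fin d))
    (T : Fin t → Fin k) (y : EuclideanSpace ℝ (Fin d)) :
    fAff y (avg z T) = (1 / (t : ℝ)) * ∑ i, fAff y (z (T i)) := by
  have ht' : (0 : ℝ) < t := by exact_mod_cast ht
  unfold avg
  rw [fAff_sum_right _ _ _ _ (by simp; field_simp), Finset.mul_sum]

theorem Admissible.sampling {G K : Set (EuclideanSpace ℝ (Fin d))} (hA : Admissible G K)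
    {G' : Set (EuclideanSpace ℝ (Fin d))} (hG' : G' ⊆ G) (hconv : Convex ℝ G') {R : ℝ}
    (hR : 1 ≤ R)
    (hratio : ∀ y ∈ polarSet K, ∀ v ∈ G', ∀ v' ∈ G', fAff y v ≤ R * fAff y v')
    {β η : ℝ} {r : ℕ} (hr : ∀ x, ¬ CSeq G K β (r + 1) x) (hβη : 4 * β ≤ η) (hη : 0 < η)
    {t : ℕ} (ht0 : 0 < t) {V : ℝ} (hV0 : 0 < V) (hV : (R - 1) * min (R - 1) 2 ≤ V)
    (hδR : (1 - Real.exp (-(η / 2))) * (R - 1) ≤ 2 * V)
    (ht : r * (2 * Real.exp (-(t * (1 - Real.exp (-(η / 2))) ^ 2 / (4 * V)))) < 1)
    {k : ℕ} (z : Fin k → EuclideanSpace ℝ (Fin d)) (hz : ∀ i, z i ∈ G')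
    (w : Fin k → ℝ) (hw : ∀ i, 0 ≤ w i) (hw1 : ∑ i, w i = 1) :
    ∃ T : Fin t → Fin k, hilb K (∑ i, w i • z i) (avg z T) < η := by
  classical
  by_contra hcon
  push Not at hcon
  set c := ∑ i, w i • z i with hc
  set δ := 1 - Real.exp (-(η / 2)) with hδ
  have hδ0 : 0 ≤ δ := by
    have : Real.exp (-(η / 2)) ≤ 1 := Real.exp_le_one_iff.2 (by linarith)
    linarith
  have ht' : (0 : ℝ) < t := by exact_mod_cast ht0
  have hcG' : c ∈ G' := hconv.sum_mem (fun i _ => hw i) hw1 (fun i _ => hz i)
  have hcG : c ∈ G := hG' hcG'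
  have hTG' : ∀ T : Fin t → Fin k, avg z T ∈ G' := fun T => avg_mem ht0 hconv hz T
  have hTG : ∀ T : Fin t → Fin k, avg z T ∈ G := fun T => hG' (hTG' T)
  have hy : ∀ T : Fin t → Fin k, ∃ y ∈ polarSet K,
      η ≤ |Real.log (fAff y c) - Real.log (fAff y (avg z T))| :=
    fun T => hA.exists_of_le_hilb hcG (hTG T) (hcon T)
  choose Y hYp hYη using hy
  set Bad : (Fin t → Fin k) → Finset (Fin t → Fin k) := fun T =>
    Finset.univ.filter (fun T' => η / 2 <
      |Real.log (fAff (Y T) c) - Real.log (fAff (Y T) (avg z T'))|) with hBad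
  -- the measure of the bad sets
  have hmeas : ∀ y ∈ polarSet K, ∑ T' ∈ Finset.univ.filter (fun T' : Fin t → Fin k => η / 2 <
      |Real.log (fAff y c) - Real.log (fAff y (avg z T'))|), ∏ i, w (T' i) ≤
      2 * Real.exp (-(t * δ ^ 2 / (4 * V))) := by
    intro y hyp
    have hpc : 0 < fAff y c := hA.pos hyp hcG
    set X : Fin k → ℝ := fun i => fAff y (z i) / fAff y c - 1 with hX
    have hXsum : ∑ i, w i * X i = 0 := by
      have h1 : ∀ i, w i * X i = (w i * fAff y (z i)) / fAff y c - w i := by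
        intro i; simp only [hX]; ring
      simp only [h1, Finset.sum_sub_distrib, hw1, ← Finset.sum_div]
      rw [← fAff_sum_right _ w z y hw1, ← hc, div_self hpc.ne', sub_self]
    have hXb : ∀ i, |X i| ≤ R - 1 := by
      intro i
      have hp := hA.pos hyp (hG' (hz i))
      have h1 := hratio y hyp _ (hz i) _ hcG'
      have h2 := hratio y hyp _ hcG' _ (hz i)
      rw [abs_le]
      constructor
      · have h3 : 1 / R ≤ fAff y (z i) / fAff y c := by
          rw [div_le_div_iff₀ (by linarith) hpc]; linarith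
        have h4 : 1 - (R - 1) ≤ 1 / R := by
          rw [le_div_iff₀ (by linarith)]; nlinarith [sq_nonneg (R - 1)]
        simp only [hX]; linarith
      · have h3 : fAff y (z i) / fAff y c ≤ R := by
          rw [div_le_iff₀ hpc]; exact h1
        simp only [hX]; linarith
    have hXabs : ∑ i, w i * |X i| ≤ min (R - 1) 2 := by
      refine le_min ?_ ?_
      · calc ∑ i, w i * |X i| ≤ ∑ i, w i * (R - 1) :=
              Finset.sum_le_sum (fun i _ => mul_le_mul_of_nonneg_left (hXb i) (hw i))
          _ = R - 1 := by rw [← Finset.sum_mul, hw1, one_mul]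
      · calc ∑ i, w i * |X i| ≤ ∑ i, (w i * X i + 2 * w i) := by
              refine Finset.sum_le_sum (fun i _ => ?_)
              have hp := hA.pos hyp (hG' (hz i))
              have h3 : 0 ≤ fAff y (z i) / fAff y c := (div_pos hp hpc).le
              have h4 : |X i| ≤ X i + 2 := by
                rw [abs_le]; simp only [hX]; constructor <;> linarith
              have := mul_le_mul_of_nonneg_left h4 (hw i)
              linarith
          _ = 2 := by
              rw [Finset.sum_add_distrib, hXsum, ← Finset.mul_sum, hw1]; ring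
    have hXV : ∑ i, w i * X i ^ 2 ≤ V := by
      refine le_trans ?_ hV
      calc ∑ i, w i * X i ^ 2 ≤ ∑ i, (R - 1) * (w i * |X i|) := by
            refine Finset.sum_le_sum (fun i _ => ?_)
            have h1 : X i ^ 2 ≤ (R - 1) * |X i| := by
              rw [← sq_abs, sq]
              exact mul_le_mul_of_nonneg_right (hXb i) (abs_nonneg _)
            have := mul_le_mul_of_nonneg_left h1 (hw i)
            linarith
        _ = (R - 1) * ∑ i, w i * |X i| := by rw [← Finset.mul_sum]
        _ ≤ (R - 1) * min (R - 1) 2 := mul_le_mul_of_nonneg_left hXabs (by linarith)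
    have hup := tail_bound (t := t) w X hw hw1 hXsum hXb hXV hV0 hδ0 hδR
    have hdown := tail_bound (t := t) w (fun i => - X i) hw hw1
      (by simp only [mul_neg, Finset.sum_neg_distrib, hXsum, neg_zero])
      (by intro i; simpa using hXb i) (by simpa using hXV) hV0 hδ0 hδR
    set U := (Finset.univ : Finset (Fin t → Fin k)).filter
      (fun T => t * δ ≤ ∑ i, X (T i)) with hU
    set D := (Finset.univ : Finset (Fin t → Fin k)).filter
      (fun T => t * δ ≤ ∑ i, - X (T i)) with hD
    have hμ : ∀ T : Fin t → Fin k, 0 ≤ ∏ i, w (T i) :=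
      fun T => Finset.prod_nonneg (fun i _ => hw _)
    have hsub : Finset.univ.filter (fun T' : Fin t → Fin k => η / 2 <
      |Real.log (fAff y c) - Real.log (fAff y (avg z T'))|) ⊆ U ∪ D := by
      intro T' hT'
      rw [Finset.mem_filter] at hT'
      have hpT := hA.pos hyp (hTG T')
      have hXT : ∑ i, X (T' i) = t * (fAff y (avg z T') / fAff y c - 1) := by
        rw [fAff_avg ht0]
        simp only [hX, Finset.sum_sub_distrib, ← Finset.sum_div]
        simp
        field_simp
      have h5 : Real.exp (η / 2) * Real.exp (-(η / 2)) = 1 := by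
        rw [← Real.exp_add]; simp
      rw [Finset.mem_union]
      rcases lt_or_ge (Real.log (fAff y c)) (Real.log (fAff y (avg z T'))) with h | h
      · left
        rw [hU, Finset.mem_filter]
        refine ⟨Finset.mem_univ _, ?_⟩
        rw [hXT]
        refine mul_le_mul_of_nonneg_left ?_ ht'.le
        have h1 : η / 2 + Real.log (fAff y c) ≤ Real.log (fAff y (avg z T')) := by
          have := hT'.2
          rw [abs_of_neg (by linarith)] at this
          linarith
        rw [← exp_mul_le_iff hpc hpT, ← le_div_iff₀ hpc] at h1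
        have h3 : 1 - Real.exp (-(η / 2)) ≤ Real.exp (η / 2) - 1 := by
          nlinarith [Real.exp_pos (η / 2), Real.exp_pos (-(η / 2)),
            sq_nonneg (Real.exp (η / 2) - 1), Real.add_one_le_exp (η / 2),
            Real.add_one_le_exp (-(η / 2))]
        linarith
      · right
        rw [hD, Finset.mem_filter]
        refine ⟨Finset.mem_univ _, ?_⟩
        rw [Finset.sum_neg_distrib, hXT, ← mul_neg]
        refine mul_le_mul_of_nonneg_left ?_ ht'.le
        have h1 : η / 2 + Real.log (fAff y (avg z T')) ≤ Real.log (fAff y c) := by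
          have := hT'.2
          rw [abs_of_nonneg (by linarith)] at this
          linarith
        rw [← exp_mul_le_iff hpT hpc] at h1
        have h2 : fAff y (avg z T') ≤ Real.exp (-(η / 2)) * fAff y c := by
          have h6 := mul_le_mul_of_nonneg_left h1 (Real.exp_pos (-(η / 2))).le
          rw [← mul_assoc, mul_comm (Real.exp (-(η / 2))) (Real.exp (η / 2)), h5,
            one_mul] at h6
          exact h6
        rw [← div_le_iff₀ hpc] at h2
        linarith
    calc ∑ T' ∈ Finset.univ.filter (fun T' : Fin t → Fin k => η / 2 <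
      |Real.log (fAff y c) - Real.log (fAff y (avg z T'))|), ∏ i, w (T' i)
        ≤ ∑ T' ∈ U ∪ D, ∏ i, w (T' i) :=
          Finset.sum_le_sum_of_subset_of_nonneg hsub (fun T _ _ => hμ T)
      _ ≤ ∑ T' ∈ U, ∏ i, w (T' i) + ∑ T' ∈ D, ∏ i, w (T' i) :=
          sum_union_le_sum (fun T' : Fin t → Fin k => ∏ i, w (T' i)) hμ U D
      _ ≤ 2 * Real.exp (-(t * δ ^ 2 / (4 * V))) := by linarith
  obtain ⟨T, _, hTB⟩ := selection (fun T' : Fin t → Fin k => ∏ i, w (T' i))
    (fun T => Finset.prod_nonneg (fun i _ => hw _)) Finset.univ Bad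
    (2 * Real.exp (-(t * δ ^ 2 / (4 * V)))) (by positivity)
    (fun T _ => hmeas (Y T) (hYp T)) r
    (by
      rw [← Fintype.sum_pow, hw1, one_pow]
      exact ht)
  apply hr (fun j => avg z (T j))
  refine hA.cSeq_of (fun i _ => hTG _) ?_
  intro j hj0 hj
  refine ⟨Y (T j), hYp _, ?_⟩
  have hpc : 0 < fAff (Y (T j)) c := hA.pos (hYp _) hcG
  have hpos : ∀ i, 0 < fAff (Y (T j)) (avg z (T i)) := fun i => hA.pos (hYp _) (hTG _)
  have htyp : ∀ i < j, |Real.log (fAff (Y (T j)) c) -
      Real.log (fAff (Y (T j)) (avg z (T i)))| ≤ η / 2 := by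
    intro i hi
    have h1 := hTB i j hi (by omega)
    simp only [hBad, Finset.mem_filter, Finset.mem_univ, true_and, not_lt] at h1
    exact h1
  have hfar := hYη (T j)
  rcases le_abs.1 hfar with h | h
  · left
    intro i hi
    rw [exp_mul_le_iff (hpos j) (hpos i)]
    have := (abs_le.1 (htyp i hi)).2
    linarith
  · right
    intro i hi
    rw [exp_mul_le_iff (hpos i) (hpos j)]
    have := (abs_le.1 (htyp i hi)).1
    linarith

end Run7.h730
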