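import Pool.Agent.Run7.h730.Basic

/-!
Convexly separated sequences indexed by natural numbers, and the greedy selection lemma.
-/

namespace Run7.h730

open Set

variable {d : ℕ}

/-- A convexly `β`-separated sequence of length `n` in `G`. -/
def CSeq (G K : Set (EuclideanSpace ℝ (Fin d))) (β : ℝ) (n : ℕ)
    (x : ℕ → EuclideanSpace ℝ (Fin d)) : Prop :=
  (∀ i < n, x i ∈ G) ∧
    ∀ j, 0 < j → j < n → β ≤ hilbSet K (x j) (convexHull ℝ (x '' {i | i < j}))

theorem CSeq.mem_convSizes {G K : Set (EuclideanSpace ℝ (Fin d))} {β : ℝ} {n : ℕ}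
    {x : ℕ → EuclideanSpace ℝ (Fin d)} (h : CSeq G K β n x) : n ∈ convSizes G K β := by
  refine ⟨fun i => x i, fun i => h.1 i i.2, fun j hj => ?_⟩
  have h1 := h.2 j hj j.2
  have : (fun i : Fin n => x i) '' {i | i < j} = x '' {i | i < (j : ℕ)} := by
    ext z
    constructor
    · rintro ⟨i, hi, rfl⟩
      exact ⟨i, hi, rfl⟩
    · rintro ⟨i, hi, rfl⟩
      exact ⟨⟨i, lt_trans hi j.2⟩, hi, rfl⟩
  rw [this]
  exact h1

theorem exists_cSeq_of_mem {G K : Set (EuclideanSpace ℝ (Fin d))} {β : ℝ} {n : ℕ}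
    (h : n ∈ convSizes G K β) : ∃ x : ℕ → EuclideanSpace ℝ (Fin d), CSeq G K β n x := by
  obtain ⟨x, hx, hs⟩ := h
  refine ⟨fun i => if h : i < n then x ⟨i, h⟩ else 0, ?_, ?_⟩
  · intro i hi
    simp only [hi, dif_pos]
    exact hx _
  · intro j hj hjn
    have h1 := hs ⟨j, hjn⟩ hj
    have : (fun i : ℕ => if h : i < n then x ⟨i, h⟩ else 0) '' {i | i < j} =
        x '' {i | i < (⟨j, hjn⟩ : Fin n)} := by
      ext z
      constructor
      · rintro ⟨i, hi, rfl⟩
        have hi' : i < j := hi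
        refine ⟨⟨i, lt_trans hi' hjn⟩, hi, ?_⟩
        simp only [lt_trans hi' hjn, dif_pos]
      · rintro ⟨i, hi, rfl⟩
        refine ⟨i, hi, ?_⟩
        simp
    rw [this]
    simp only [hjn, dif_pos]
    exact h1

theorem CSeq.mono_n {G K : Set (EuclideanSpace ℝ (Fin d))} {β : ℝ} {n m : ℕ} (hmn : m ≤ n)
    {x : ℕ → EuclideanSpace ℝ (Fin d)} (h : CSeq G K β n x) : CSeq G K β m x :=
  ⟨fun i hi => h.1 i (lt_of_lt_of_le hi hmn), fun j h0 hj => h.2 j h0 (lt_of_lt_of_le hj hmn)⟩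

theorem CSeq.mono_scale {G K : Set (EuclideanSpace ℝ (Fin d))} {β β' : ℝ} {n : ℕ} (hb : β' ≤ β)
    {x : ℕ → EuclideanSpace ℝ (Fin d)} (h : CSeq G K β n x) : CSeq G K β' n x :=
  ⟨h.1, fun j h0 hj => hb.trans (h.2 j h0 hj)⟩

theorem CSeq.mono_set {G G' K : Set (EuclideanSpace ℝ (Fin d))} {β : ℝ} {n : ℕ} (hG : G ⊆ G')
    {x : ℕ → EuclideanSpace ℝ (Fin d)} (h : CSeq G K β n x) : CSeq G' K β n x :=
  ⟨fun i hi => hG (h.1 i hi), h.2⟩

/-- A sequence is convexly separated as soon as every term is separated from the previous ones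
by a single functional. -/
theorem Admissible.cSeq_of {G K : Set (EuclideanSpace ℝ (Fin d))} (hA : Admissible G K)
    {β : ℝ} {n : ℕ} {x : ℕ → EuclideanSpace ℝ (Fin d)} (hx : ∀ i < n, x i ∈ G)
    (h : ∀ k, 0 < k → k < n → ∃ y ∈ polarSet K,
      (∀ j < k, Real.exp (2 * β) * fAff y (x k) ≤ fAff y (x j)) ∨
      (∀ j < k, Real.exp (2 * β) * fAff y (x j) ≤ fAff y (x k))) :
    CSeq G K β n x := by
  refine ⟨hx, fun k h0 hk => ?_⟩
  obtain ⟨y, hy, h1⟩ := h k h0 hk
  refine hA.le_hilbSet (hx k hk) ?_ (Set.Nonempty.image x ⟨0, h0⟩) hy ?_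
  · rintro _ ⟨j, hj, rfl⟩
    exact hx j (lt_trans hj hk)
  · rcases h1 with h1 | h1
    · left
      rintro _ ⟨j, hj, rfl⟩
      exact h1 j hj
    · right
      rintro _ ⟨j, hj, rfl⟩
      exact h1 j hj

theorem sum_union_le_sum {ι : Type*} [DecidableEq ι] (μ : ι → ℝ) (hμ : ∀ i, 0 ≤ μ i)
    (s t : Finset ι) : ∑ i ∈ s ∪ t, μ i ≤ ∑ i ∈ s, μ i + ∑ i ∈ t, μ i := by
  rw [← Finset.sum_union_inter]
  have : 0 ≤ ∑ i ∈ s ∩ t, μ i := Finset.sum_nonneg (fun i _ => hμ i)
  linarith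

theorem sum_biUnion_le_sum {ι κ : Type*} [DecidableEq ι] [DecidableEq κ] (μ : ι → ℝ)
    (hμ : ∀ i, 0 ≤ μ i) (s : Finset κ) (B : κ → Finset ι) :
    ∑ i ∈ s.biUnion B, μ i ≤ ∑ k ∈ s, ∑ i ∈ B k, μ i := by
  induction s using Finset.induction with
  | empty => simp
  | insert a s ha ih =>
    rw [Finset.biUnion_insert, Finset.sum_insert ha]
    refine (sum_union_le_sum μ hμ _ _).trans ?_
    linarith

/-- The greedy selection lemma. -/
theorem selection {ι : Type*} [DecidableEq ι] (μ : ι → ℝ) (hμ : ∀ i, 0 ≤ μ i)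
    (A : Finset ι) (Bad : ι → Finset ι) (p : ℝ) (hp : 0 ≤ p)
    (hBad : ∀ a ∈ A, ∑ i ∈ Bad a, μ i ≤ p) (n : ℕ)
    (h : n * p < ∑ i ∈ A, μ i) :
    ∃ T : ℕ → ι, (∀ j ≤ n, T j ∈ A) ∧ ∀ j k, j < k → k ≤ n → T j ∉ Bad (T k) := by
  induction n with
  | zero =>
    have hne : A.Nonempty := by
      rw [Finset.nonempty_iff_ne_empty]
      rintro rfl
      simp at h
    obtain ⟨a, ha⟩ := hne
    exact ⟨fun _ => a, fun _ _ => ha, fun j k hjk hk => by omega⟩
  | succ n ih =>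
    obtain ⟨T, hT, hTB⟩ := ih (by push_cast at h; linarith)
    have hne : ∃ a, a ∈ A ∧ ∀ k ≤ n, a ∉ Bad (T k) := by
      by_contra hcon
      push Not at hcon
      have hsub : A ⊆ (Finset.range (n + 1)).biUnion (fun k => Bad (T k)) := by
        intro a ha
        obtain ⟨k, hk, hka⟩ := hcon a ha
        rw [Finset.mem_biUnion]
        exact ⟨k, Finset.mem_range.2 (by omega), hka⟩
      have h1 : ∑ i ∈ A, μ i ≤ ∑ i ∈ (Finset.range (n + 1)).biUnion (fun k => Bad (T k)), μ i :=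
        Finset.sum_le_sum_of_subset_of_nonneg hsub (fun i _ _ => hμ i)
      have h3 : ∑ i ∈ (Finset.range (n + 1)).biUnion (fun k => Bad (T k)), μ i ≤
          ∑ k ∈ Finset.range (n + 1), ∑ i ∈ Bad (T k), μ i :=
        sum_biUnion_le_sum μ hμ _ _
      have h4 : ∑ k ∈ Finset.range (n + 1), ∑ i ∈ Bad (T k), μ i ≤
          ∑ _k ∈ Finset.range (n + 1), p := by
        refine Finset.sum_le_sum (fun k hk => hBad _ (hT k ?_))
        have := Finset.mem_range.1 hk
        omega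
      rw [Finset.sum_const, Finset.card_range, nsmul_eq_mul] at h4
      linarith
    obtain ⟨a, ha, hab⟩ := hne
    refine ⟨fun k => Nat.casesOn k a T, ?_, ?_⟩
    · intro j hj
      cases j with
      | zero => exact ha
      | succ j => exact hT j (by omega)
    · intro j k hjk hk
      cases k with
      | zero => omega
      | succ k =>
        cases j with
        | zero => exact hab k (by omega)
        | succ j => exact hTB j k (by omega) (by omega)

end Run7.h730
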