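import Pool.Agent.Run7.h730.Sampling

/-!
From a larger to a smaller scale, and the top scale.
-/

namespace Run7.h730

open Set

variable {d : ℕ}

theorem exists_weights_of_mem_convexHull {n : ℕ} (z : ℕ → EuclideanSpace ℝ (Fin d))
    {c : EuclideanSpace ℝ (Fin d)} (hc : c ∈ convexHull ℝ (z '' {i | i < n})) :
    ∃ w : Fin n → ℝ, (∀ i, 0 ≤ w i) ∧ ∑ i, w i = 1 ∧ c = ∑ i, w i • z i := by
  have hsub : convexHull ℝ (z '' {i | i < n}) ⊆
      {c | ∃ w : Fin n → ℝ, (∀ i, 0 ≤ w i) ∧ ∑ i, w i = 1 ∧ c = ∑ i, w i • z i} := by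
    apply convexHull_min
    · rintro _ ⟨i, hi, rfl⟩
      refine ⟨Pi.single ⟨i, hi⟩ 1, ?_, ?_, ?_⟩
      · intro j
        by_cases h : j = ⟨i, hi⟩
        · rw [h, Pi.single_eq_same]; exact zero_le_one
        · rw [Pi.single_eq_of_ne h]
      · simp
      · simp [Pi.single_apply]
    · rintro _ ⟨w, hw, hw1, rfl⟩ _ ⟨w', hw', hw1', rfl⟩ a b ha hb hab
      refine ⟨fun i => a * w i + b * w' i, ?_, ?_, ?_⟩
      · intro i
        have := hw i
        have := hw' i
        positivity
      · rw [Finset.sum_add_distrib, ← Finset.mul_sum, ← Finset.mul_sum, hw1, hw1']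
        linarith
      · simp only [add_smul, mul_smul, Finset.sum_add_distrib, Finset.smul_sum]
  exact hsub hc

theorem exists_last {P : ℕ → Prop} (h0 : P 0) {r : ℕ} (hr : ¬ P (r + 1)) :
    ∃ n ≤ r, P n ∧ ¬ P (n + 1) := by
  induction r with
  | zero => exact ⟨0, le_refl _, h0, hr⟩
  | succ r ih =>
    by_cases h : P (r + 1)
    · exact ⟨r + 1, le_refl _, h, hr⟩
    · obtain ⟨n, hn, h1⟩ := ih h
      exact ⟨n, by omega, h1⟩

/-- A single piece: an `s`-separated set whose points are at distance less than `S` from a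
given point. -/
theorem Admissible.piece {G K : Set (EuclideanSpace ℝ (Fin d))} (hA : Admissible G K)
    {s S β : ℝ} {r t : ℕ} (hs : 0 < s) (hS : 0 < S) (hβ : 16 * β ≤ s)
    (hr : ∀ x, ¬ CSeq G K β (r + 1) x)
    (ht0 : 0 < t) {V : ℝ} (hV0 : 0 < V)
    (hV : (Real.exp (4 * S) - 1) * min (Real.exp (4 * S) - 1) 2 ≤ V)
    (hδR : (1 - Real.exp (-(s / 8))) * (Real.exp (4 * S) - 1) ≤ 2 * V)
    (ht : r * (2 * Real.exp (-(t * (1 - Real.exp (-(s / 8))) ^ 2 / (4 * V)))) < 1)
    (I : Finset (EuclideanSpace ℝ (Fin d))) (hI : (I : Set (EuclideanSpace ℝ (Fin d))) ⊆ G)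
    (hsep : Sep K s I) {p : EuclideanSpace ℝ (Fin d)} (hp : p ∈ G)
    (hIp : ∀ x ∈ I, hilb K x p < S) : I.card ≤ r ^ t := by
  classical
  set Gp : Set (EuclideanSpace ℝ (Fin d)) := {x | x ∈ G ∧ ∀ y ∈ polarSet K,
    fAff y x ≤ Real.exp (2 * S) * fAff y p ∧ fAff y p ≤ Real.exp (2 * S) * fAff y x} with hGp
  have hGpG : Gp ⊆ G := fun x hx => hx.1
  have hconv : Convex ℝ Gp := by
    intro u hu v hv a b ha hb hab
    refine ⟨hA.convG hu.1 hv.1 ha hb hab, fun y hy => ?_⟩
    obtain ⟨u1, u2⟩ := hu.2 y hy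
    obtain ⟨v1, v2⟩ := hv.2 y hy
    rw [fAff_combo_right _ _ _ hab]
    have e1 : fAff y p = a * fAff y p + b * fAff y p := by rw [← add_mul, hab, one_mul]
    have h1 := mul_le_mul_of_nonneg_left u1 ha
    have h2 := mul_le_mul_of_nonneg_left u2 ha
    have h3 := mul_le_mul_of_nonneg_left v1 hb
    have h4 := mul_le_mul_of_nonneg_left v2 hb
    constructor
    · have : Real.exp (2 * S) * fAff y p =
          a * (Real.exp (2 * S) * fAff y p) + b * (Real.exp (2 * S) * fAff y p) := by
        rw [← add_mul, hab, one_mul]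
      linarith
    · calc fAff y p = a * fAff y p + b * fAff y p := e1
        _ ≤ a * (Real.exp (2 * S) * fAff y u) + b * (Real.exp (2 * S) * fAff y v) := by
          linarith
        _ = _ := by ring
  have hpGp : p ∈ Gp := by
    refine ⟨hp, fun y hy => ?_⟩
    have h0 := hA.pos hy hp
    have h1 : 1 ≤ Real.exp (2 * S) := Real.one_le_exp (by linarith)
    constructor <;> nlinarith
  have hIGp : ∀ x ∈ I, x ∈ Gp := by
    intro x hx
    refine ⟨hI hx, fun y hy => ⟨?_, ?_⟩⟩
    · exact hA.fAff_le_of_hilb_le (hI hx) hp hy (hIp x hx).le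
    · exact hA.fAff_le_of_hilb_le hp (hI hx) hy (by rw [hilb_comm]; exact (hIp x hx).le)
  have hratio : ∀ y ∈ polarSet K, ∀ v ∈ Gp, ∀ v' ∈ Gp,
      fAff y v ≤ Real.exp (4 * S) * fAff y v' := by
    intro y hy v hv v' hv'
    have h1 := (hv.2 y hy).1
    have h2 := (hv'.2 y hy).2
    calc fAff y v ≤ Real.exp (2 * S) * fAff y p := h1
      _ ≤ Real.exp (2 * S) * (Real.exp (2 * S) * fAff y v') :=
        mul_le_mul_of_nonneg_left h2 (Real.exp_pos _).le
      _ = Real.exp (4 * S) * fAff y v' := by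
        rw [← mul_assoc, ← Real.exp_add]; congr 2; ring
  -- a maximal convexly separated sequence in the piece
  obtain ⟨n, hnr, ⟨z, hz⟩, hmax⟩ := exists_last
    (P := fun n => ∃ x : ℕ → EuclideanSpace ℝ (Fin d), CSeq Gp K β n x)
    ⟨fun _ => 0, fun i hi => absurd hi (Nat.not_lt_zero i), fun j _ hj =>
      absurd hj (Nat.not_lt_zero j)⟩ (r := r)
    (by rintro ⟨x, hx⟩; exact hr x (hx.mono_set hGpG))
  have hn0 : 0 < n := by
    rcases Nat.eq_zero_or_pos n with h | h
    · exfalso
      apply hmax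
      refine ⟨fun _ => p, fun _ _ => hpGp, fun j hj0 hj => ?_⟩
      omega
    · exact h
  have happrox : ∀ v ∈ Gp, ∃ c ∈ convexHull ℝ (z '' {i | i < n}), hilb K v c < β := by
    intro v hv
    by_contra hcon
    push Not at hcon
    apply hmax
    refine ⟨fun i => if i < n then z i else v, ?_, ?_⟩
    · intro i hi
      by_cases h : i < n
      · simp only [h, if_true]; exact hz.1 i h
      · simp only [h, if_false]; exact hv
    · intro j hj0 hj
      have himg : (fun i => if i < n then z i else v) '' {i | i < j} = z '' {i | i < j} := by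
        ext u
        constructor
        · rintro ⟨i, hi, rfl⟩
          have hi' : i < n := lt_of_lt_of_le hi (by omega)
          exact ⟨i, hi, by simp only [hi', if_true]⟩
        · rintro ⟨i, hi, rfl⟩
          have hi' : i < n := lt_of_lt_of_le hi (by omega)
          exact ⟨i, hi, by simp only [hi', if_true]⟩
      rw [himg]
      by_cases h : j < n
      · simp only [h, if_true]
        exact hz.2 j hj0 h
      · have hjn : j = n := by omega
        simp only [h, if_false]
        rw [hjn]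
        unfold hilbSet
        apply le_csInf
        · exact ((Set.Nonempty.image z ⟨0, hn0⟩).convexHull).image _
        · rintro _ ⟨c, hc, rfl⟩
          exact hcon c hc
  have hhullGp : convexHull ℝ (z '' {i | i < n}) ⊆ Gp :=
    convexHull_min (by rintro _ ⟨i, hi, rfl⟩; exact hz.1 i hi) hconv
  -- approximation by averages
  have havg : ∀ v ∈ I, ∃ T : Fin t → Fin n,
      hilb K v (avg (fun i : Fin n => z i) T) < β + s / 4 := by
    intro v hv
    obtain ⟨c, hc, hvc⟩ := happrox v (hIGp v hv)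
    obtain ⟨w, hw, hw1, hcw⟩ := exists_weights_of_mem_convexHull z hc
    have hs8 : s / 4 / 2 = s / 8 := by ring
    obtain ⟨T, hT⟩ := hA.sampling hGpG hconv (R := Real.exp (4 * S))
      (Real.one_le_exp (by linarith)) hratio hr (η := s / 4) (by linarith) (by linarith) ht0
      hV0 hV (by rw [hs8]; exact hδR) (by rw [hs8]; exact ht) (fun i : Fin n => z i)
      (fun i => hz.1 i i.2) w hw hw1
    refine ⟨T, ?_⟩
    rw [← hcw] at hT
    have hTG := hGpG (avg_mem ht0 hconv (fun i : Fin n => hz.1 i i.2) T)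
    have := hA.hilb_triangle (hI hv) (hGpG (hhullGp hc)) hTG
    linarith
  have hch : ∀ v : EuclideanSpace ℝ (Fin d), ∃ T : Fin t → Fin n, v ∈ I →
      hilb K v (avg (fun i : Fin n => z i) T) < β + s / 4 := by
    intro v
    by_cases hv : v ∈ I
    · obtain ⟨T, hT⟩ := havg v hv
      exact ⟨T, fun _ => hT⟩
    · exact ⟨fun _ => ⟨0, hn0⟩, fun h => absurd h hv⟩
  choose F hF using hch
  have hcard : I.card ≤ (Finset.univ : Finset (Fin t → Fin n)).card := by
    refine Finset.card_le_card_of_injOn F (fun _ _ => Finset.mem_coe.2 (Finset.mem_univ _)) ?_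
    intro v hv v' hv' heq
    by_contra hne
    have h1 := hF v hv
    have h2 := hF v' hv'
    rw [← heq] at h2
    have h3 := hsep v hv v' hv' hne
    have hTG := hGpG (avg_mem ht0 hconv (fun i : Fin n => hz.1 i i.2) (F v))
    have h4 := hA.hilb_triangle (hI hv) hTG (hI hv')
    rw [hilb_comm K (avg (fun i : Fin n => z i) (F v)) v'] at h4
    linarith
  have hcard2 : (Finset.univ : Finset (Fin t → Fin n)).card = n ^ t := by simp
  rw [hcard2] at hcard
  exact hcard.trans (Nat.pow_le_pow_left hnr t)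

/-- The step lemma: from the scale `S` to the scale `s`. -/
theorem Admissible.step {G K : Set (EuclideanSpace ℝ (Fin d))} (hA : Admissible G K)
    {s S β : ℝ} {r t B : ℕ} (hs : 0 < s) (hS : 0 < S) (hβ : 16 * β ≤ s)
    (hr : ∀ x, ¬ CSeq G K β (r + 1) x)
    (hB : ∀ I : Finset (EuclideanSpace ℝ (Fin d)), (I : Set (EuclideanSpace ℝ (Fin d))) ⊆ G →
      Sep K S I → I.card ≤ B)
    (ht0 : 0 < t) {V : ℝ} (hV0 : 0 < V)
    (hV : (Real.exp (4 * S) - 1) * min (Real.exp (4 * S) - 1) 2 ≤ V)
    (hδR : (1 - Real.exp (-(s / 8))) * (Real.exp (4 * S) - 1) ≤ 2 * V)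
    (ht : r * (2 * Real.exp (-(t * (1 - Real.exp (-(s / 8))) ^ 2 / (4 * V)))) < 1)
    (I : Finset (EuclideanSpace ℝ (Fin d))) (hI : (I : Set (EuclideanSpace ℝ (Fin d))) ⊆ G)
    (hsep : Sep K s I) : I.card ≤ B * r ^ t := by
  classical
  obtain ⟨P, hP, hPmax⟩ := Finset.exists_max_image (I.powerset.filter (fun P => Sep K S P))
    Finset.card ⟨∅, by
      rw [Finset.mem_filter]
      exact ⟨Finset.empty_mem_powerset _, fun x hx => absurd hx (Finset.notMem_empty x)⟩⟩
  rw [Finset.mem_filter, Finset.mem_powerset] at hP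
  have hcov : ∀ x ∈ I, ∃ p ∈ P, hilb K x p < S := by
    intro x hx
    by_cases hxP : x ∈ P
    · exact ⟨x, hxP, by rw [hA.hilb_self (hI hx)]; exact hS⟩
    · by_contra hcon
      push Not at hcon
      have hins : Sep K S (insert x P) := by
        intro u hu v hv hne
        rw [Finset.mem_insert] at hu hv
        rcases hu with rfl | hu <;> rcases hv with rfl | hv
        · exact absurd rfl hne
        · exact hcon v hv
        · rw [hilb_comm]; exact hcon u hu
        · exact hP.2 u hu v hv hne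
      have hmem : insert x P ∈ I.powerset.filter (fun P => Sep K S P) := by
        rw [Finset.mem_filter, Finset.mem_powerset]
        exact ⟨Finset.insert_subset hx hP.1, hins⟩
      have := hPmax _ hmem
      rw [Finset.card_insert_of_notMem hxP] at this
      omega
  have hsub : I ⊆ P.biUnion (fun p => I.filter (fun x => hilb K x p < S)) := by
    intro x hx
    obtain ⟨p, hp, hxp⟩ := hcov x hx
    rw [Finset.mem_biUnion]
    exact ⟨p, hp, Finset.mem_filter.2 ⟨hx, hxp⟩⟩
  have hPB : P.card ≤ B := hB P (fun x hx => hI (hP.1 hx)) hP.2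
  calc I.card ≤ (P.biUnion (fun p => I.filter (fun x => hilb K x p < S))).card :=
        Finset.card_le_card hsub
    _ ≤ ∑ p ∈ P, (I.filter (fun x => hilb K x p < S)).card := Finset.card_biUnion_le
    _ ≤ ∑ _p ∈ P, r ^ t := by
        refine Finset.sum_le_sum (fun p hp => ?_)
        refine hA.piece hs hS hβ hr ht0 hV0 hV hδR ht _
          (fun x hx => hI (Finset.filter_subset _ _ hx)) (hsep.mono (Finset.filter_subset _ _))
          (hI (hP.1 hp)) ?_
        intro x hx
        exact (Finset.mem_filter.1 hx).2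
    _ = P.card * r ^ t := by rw [Finset.sum_const, smul_eq_mul]
    _ ≤ B * r ^ t := Nat.mul_le_mul_right _ hPB

theorem Admissible.top_aux {G K : Set (EuclideanSpace ℝ (Fin d))} (hA : Admissible G K)
    {β : ℝ} (hβ : 0 < β) {r : ℕ} (hr : ∀ x, ¬ CSeq G K β (r + 1) x)
    {x x' y : EuclideanSpace ℝ (Fin d)} (hx : x ∈ G) (hx' : x' ∈ G) (hy : y ∈ polarSet K) :
    Real.log (fAff y x) < Real.log (fAff y x') + 2 * β * r := by
  by_contra hcon
  push Not at hcon
  have hr0 : 0 < r := by
    rcases Nat.eq_zero_or_pos r with h | h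
    · exfalso
      apply hr (fun _ => x)
      refine ⟨fun _ _ => hx, fun j h0 hj => ?_⟩
      omega
    · exact h
  have hr0' : (0 : ℝ) < r := by exact_mod_cast hr0
  have hpx := hA.pos hy hx
  have hpx' := hA.pos hy hx'
  set A := fAff y x with hAdef
  set B := fAff y x' with hBdef
  have hBA : B * Real.exp (2 * β * r) ≤ A := by
    rw [mul_comm, exp_mul_le_iff hpx' hpx]; linarith
  have hAB : B < A := by
    have h1 : 1 < Real.exp (2 * β * r) := Real.one_lt_exp_iff.2 (by positivity)
    nlinarith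
  set l : ℕ → ℝ := fun k => (A - A * Real.exp (-(2 * β * k))) / (A - B) with hl
  have hl0 : ∀ k, 0 ≤ l k := by
    intro k
    apply div_nonneg
    · have : Real.exp (-(2 * β * k)) ≤ 1 := Real.exp_le_one_iff.2 (by
        have : (0 : ℝ) ≤ k := Nat.cast_nonneg k
        nlinarith [mul_nonneg hβ.le this])
      nlinarith
    · linarith
  have hl1 : ∀ k ≤ r, l k ≤ 1 := by
    intro k hk
    rw [hl]
    simp only
    rw [div_le_one (by linarith)]
    have h1 : Real.exp (-(2 * β * r)) ≤ Real.exp (-(2 * β * k)) := by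
      apply Real.exp_le_exp.2
      have : (k : ℝ) ≤ r := by exact_mod_cast hk
      nlinarith
    have h2 : B ≤ A * Real.exp (-(2 * β * r)) := by
      have h3 : Real.exp (2 * β * r) * Real.exp (-(2 * β * r)) = 1 := by
        rw [← Real.exp_add]; simp
      have h4 := mul_le_mul_of_nonneg_right hBA (Real.exp_pos (-(2 * β * r))).le
      rw [mul_assoc, h3, mul_one] at h4
      exact h4
    nlinarith
  set z : ℕ → EuclideanSpace ℝ (Fin d) := fun k => (1 - l k) • x + l k • x' with hz
  have hfz : ∀ k, fAff y (z k) = A * Real.exp (-(2 * β * k)) := by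
    intro k
    rw [hz]
    simp only
    rw [fAff_combo_right _ _ _ (by ring), ← hAdef, ← hBdef]
    have : l k * (A - B) = A - A * Real.exp (-(2 * β * k)) := by
      rw [hl]; simp only
      rw [div_mul_cancel₀]
      linarith
    linarith
  have hzG : ∀ k ≤ r, z k ∈ G := by
    intro k hk
    exact hA.convG hx hx' (by linarith [hl1 k hk]) (hl0 k) (by ring)
  apply hr z
  refine hA.cSeq_of (fun i hi => hzG i (by omega)) ?_
  intro k hk0 hk
  refine ⟨y, hy, Or.inl fun j hj => ?_⟩
  rw [hfz, hfz]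
  have h1 : Real.exp (2 * β) * (A * Real.exp (-(2 * β * k))) =
      A * Real.exp (2 * β + -(2 * β * k)) := by
    rw [Real.exp_add]; ring
  rw [h1]
  apply mul_le_mul_of_nonneg_left _ hpx.le
  apply Real.exp_le_exp.2
  have : (j : ℝ) + 1 ≤ k := by exact_mod_cast hj
  nlinarith

/-- The top scale: all distances in `G` are less than `2 β r`. -/
theorem Admissible.top {G K : Set (EuclideanSpace ℝ (Fin d))} (hA : Admissible G K)
    {β : ℝ} (hβ : 0 < β) {r : ℕ} (hr : ∀ x, ¬ CSeq G K β (r + 1) x)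
    {x x' : EuclideanSpace ℝ (Fin d)} (hx : x ∈ G) (hx' : x' ∈ G) :
    hilb K x x' < 2 * β * r := by
  by_contra hcon
  push Not at hcon
  obtain ⟨y, hy, h⟩ := hA.exists_of_le_hilb hx hx' hcon
  have h1 := hA.top_aux hβ hr hx hx' hy
  have h2 := hA.top_aux hβ hr hx' hx hy
  rcases le_abs.1 h with h | h <;> linarith

theorem Admissible.card_le_one_of_top {G K : Set (EuclideanSpace ℝ (Fin d))}
    (hA : Admissible G K) {β s : ℝ} (hβ : 0 < β) {r : ℕ} (hr : ∀ x, ¬ CSeq G K β (r + 1) x)
    (hs : 2 * β * r ≤ s)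
    (I : Finset (EuclideanSpace ℝ (Fin d))) (hI : (I : Set (EuclideanSpace ℝ (Fin d))) ⊆ G)
    (hsep : Sep K s I) : I.card ≤ 1 := by
  rw [Finset.card_le_one]
  intro x hx x' hx'
  by_contra hne
  have h1 := hsep x hx x' hx' hne
  have h2 := hA.top hβ hr (hI hx) (hI hx')
  linarith

end Run7.h730
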